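import Pool.Agent.Lib.MP_45faa6_lc.NL.Acc
import Pool.Agent.Lib.MP_45faa6_lc.NL.PTFin

/-!
The local test at a group element with `q` ports.
-/

set_option autoImplicit false

namespace Pool.Agent.Lib.MP_45faa6_lc.TR

open Finset Pool.Agent.Lib.MP_45faa6_lc.NL

theorem flat_getD {α β : Type} (l : List α) (f : α → List β) (c : ℕ) (h : ∀ x ∈ l, (f x).length = c)
    (d : β) {k i : ℕ} (hk : k < l.length) (hi : i < c) :
    (l.flatMap f).getD (k * c + i) d = (f l[k]).getD i d := by
  induction l generalizing k with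
  | nil => exact absurd hk (Nat.not_lt_zero _)
  | cons x l ih =>
    have h0 := h x List.mem_cons_self
    rw [List.flatMap_cons]
    cases k with
    | zero => rw [zero_mul, zero_add, List.getD_append _ _ _ _ (h0 ▸ hi), List.getElem_cons_zero]
    | succ k =>
      rw [List.getD_append_right _ _ _ _ (by rw [h0, add_mul, one_mul]; omega), h0,
        show (k + 1) * c + i - c = k * c + i by rw [add_mul, one_mul]; omega,
        List.getElem_cons_succ]
      exact ih (fun y hy => h y (List.mem_cons_of_mem _ hy)) _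

theorem flat_length {α β : Type} (l : List α) (f : α → List β) (c : ℕ)
    (h : ∀ x ∈ l, (f x).length = c) : (l.flatMap f).length = l.length * c := by
  induction l with
  | nil => simp
  | cons x l ih =>
    rw [List.flatMap_cons, List.length_append, h x List.mem_cons_self,
      ih fun y hy => h y (List.mem_cons_of_mem _ hy), List.length_cons, add_mul, one_mul, add_comm]

/-- Registers of a port: side (`false` out, `true` in) and place in the clause. -/
abbrev Reg : Type := Bool × Fin 3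

/-- Constraint types: link, switch, clause. -/
abbrev Ty : Type := Fin 3 ⊕ (Reg × Reg) ⊕ (Fin 3 → Bool)

/-- Names of the words of a port. -/
abbrev Word : Type := Reg ⊕ Ty × Fin 8

/-- The variable of a register; `c k b` is the label of side `b` of port `k`. -/
def vl (φ : CNF) (c : ℕ → Bool → ℕ) (k : ℕ) (t : Reg) : ℕ := (lit φ (c k t.1 - 2) t.2.val).1

/-- Is the constraint of this type between the ports `k` and `k'` present. -/
def TB (φ : CNF) (q : ℕ) (c : ℕ → Bool → ℕ) (k k' : ℕ) : Ty → Bool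
  | .inl _ => decide (k' = k)
  | .inr (.inl p) => decide (idx ((List.range q).map fun i => vl φ c i p.2) (vl φ c k p.1) = k')
  | .inr (.inr σ) => decide (k' = k) && tCl φ (c k false) σ

/-- The constraint polynomial in the values at port `k`, at port `k'` and at the head of `k`. -/
def pv {F : Type} [Field F] (x y z : Reg → F) : Ty → F
  | .inl r => x (false, r) - z (true, r)
  | .inr (.inl p) => x p.1 - y p.2
  | .inr (.inr σ) => ∏ r, (x (false, r) - bF F (σ r))

variable {M : ℕ} {F : Type} [Field F]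

/-- The constraint polynomial as a function. -/
def pp (γ : ℕ → Mat M F) (A : ℕ → Reg → Pt M F → F) (k k' : ℕ) (τ : Ty) (x : Pt M F) : F :=
  pv (fun t => A k t x) (fun t => A k' t x) (fun t => A k t (γ k * x.1, x.2)) τ

/-- The labels are in range and agree along wires. -/
structure Lab (φ : CNF) (q : ℕ) (γ : ℕ → Mat M F) (cl : Mat M F → ℕ → Bool → ℕ) : Prop where
  mem : ∀ k, γ k ∈ GG M F
  lt : ∀ u k, cl u k false < φ.length + 2
  inn : ∀ u ∈ GG M F, ∀ k < q, cl (γ k * u) k true = cl u k false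

/-- The wires join the clauses. -/
structure Emb (φ : CNF) (q : ℕ) (γ : ℕ → Mat M F) (cl : Mat M F → ℕ → Bool → ℕ) : Prop where
  ex : ∀ c < φ.length, ∃ u ∈ GG M F, ∃ k < q, cl u k false = c + 2
  conn : ∀ c, ∀ u ∈ GG M F, ∀ k < q, ∀ v ∈ GG M F, ∀ k' < q, cl u k false = c + 2 →
    cl v k' false = c + 2 → Relation.EqvGen (fun x y : Mat M F × ℕ => x.1 ∈ GG M F ∧ x.2 < q ∧
      y.2 < q ∧ cl x.1 x.2 false = c + 2 ∧ cl y.1 y.2 false = c + 2 ∧
      (y.1 = x.1 ∨ y.1 = γ x.2 * x.1)) (u, k) (v, k')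
  adj : ∀ c, ∀ c' ∈ (nbs φ).getD c [], c ≠ c' → ∃ u ∈ GG M F, ∃ k < q, ∃ k' < q,
    cl u k false = c + 2 ∧ cl u k' false = c' + 2

theorem TB_uniq {φ : CNF} {q : ℕ} {c : ℕ → Bool → ℕ} {k k₁ k₂ : ℕ} {τ : Ty}
    (h₁ : TB φ q c k k₁ τ = true) (h₂ : TB φ q c k k₂ τ = true) : k₁ = k₂ := by
  rcases τ with r | p | σ <;> simp only [TB, Bool.and_eq_true, decide_eq_true_eq] at h₁ h₂
  · omega
  · omega
  · omega

theorem acc_idx {q : ℕ} {f : ℕ → ℕ} {x : ℕ} (h : idx ((List.range q).map f) x < q) :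
    f (idx ((List.range q).map f) x) = x := by
  rw [idx_eq] at h ⊢
  have h1 : ((List.range q).map f).idxOf x < ((List.range q).map f).length := by simpa using h
  have h2 := List.getElem_idxOf h1
  rwa [List.getElem_map, List.getElem_range] at h2

theorem acc_idx_lt {q : ℕ} (f : ℕ → ℕ) {k : ℕ} (h : k < q) :
    idx ((List.range q).map f) (f k) < q := by
  have h1 := List.idxOf_lt_length_of_mem (List.mem_map_of_mem (f := f) (List.mem_range.2 h))
  rwa [← idx_eq, List.length_map, List.length_range] at h1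

/-- Sketch: two registers at `u` with the same variable have the same value (switch types
`(t₁, t₂)` at `k₁` and `(t₂, t₂)` at `k₂` select the same port, `idx_eq`); link types and `inn`
carry values along wires; `sat_of_val` as in `NL.csp_sat`. -/
theorem csp_sat {φ : CNF} (hφ : okF φ = true) {q : ℕ} {γ : ℕ → Mat M F}
    {cl : Mat M F → ℕ → Bool → ℕ} (hL : Lab φ q γ cl) (hE : Emb φ q γ cl)
    (A : ℕ → Reg → Pt M F → F) (h : ∀ τ, ∀ k < q, ∀ k' < q, ∀ u ∈ GG M F,
      TB φ q (cl u) k k' τ = true → pp γ A k k' τ (u, 0) = 0) : Sat φ := by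
  classical
  have same : ∀ u ∈ GG M F, ∀ k₁ < q, ∀ k₂ < q, ∀ t₁ t₂ : Reg,
      vl φ (cl u) k₁ t₁ = vl φ (cl u) k₂ t₂ → A k₁ t₁ (u, 0) = A k₂ t₂ (u, 0) := by
    intro u hu k₁ h₁ k₂ h₂ t₁ t₂ e
    have hk := acc_idx_lt (fun i => vl φ (cl u) i t₂) h₂
    exact (sub_eq_zero.1 (h (.inr (.inl (t₁, t₂))) k₁ h₁ _ hk u hu
      (decide_eq_true (by rw [e])))).trans
      (sub_eq_zero.1 (h (.inr (.inl (t₂, t₂))) k₂ h₂ _ hk u hu (decide_eq_true rfl))).symm
  have key : ∀ (c : ℕ) (r : Fin 3), ∀ u ∈ GG M F, ∀ k < q, ∀ v ∈ GG M F, ∀ k' < q,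
      cl u k false = c + 2 → cl v k' false = c + 2 →
      A k (false, r) (u, 0) = A k' (false, r) (v, 0) := by
    intro c r u hu k hk v hv k' hk' h1 h2
    have h3 := hE.conn c u hu k hk v hv k' hk' h1 h2
    change A (u, k).2 (false, r) ((u, k).1, 0) = A (v, k').2 (false, r) ((v, k').1, 0)
    generalize (u, k) = x at h3
    generalize (v, k') = y at h3
    induction h3 with
    | rel x y hr =>
      obtain ⟨a1, a2, a3, a4, a5, a6 | a6⟩ := hr
      · rw [a6] at a5 ⊢
        exact same _ a1 _ a2 _ a3 _ _ (by simp only [vl, a4, a5])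
      · rw [a6] at a5 ⊢
        refine (sub_eq_zero.1 (h (.inl r) _ a2 _ a2 _ a1 (decide_eq_true rfl))).trans
          (same _ (mul_mem (hL.mem _) a1) _ a2 _ a3 _ _ ?_)
        simp only [vl, hL.inn _ a1 _ a2, a4, a5]
    | refl p => rfl
    | symm p q _ ih => exact ih.symm
    | trans p q r _ _ ih ih' => exact ih.trans ih'
  choose! u hu k hk hl using hE.ex
  refine sat_of_val hφ (zero_ne_one (α := F)) (fun c r => A (k c) (false, r) (u c, 0))
    (fun c hc r r' e => ?_) (fun c hc c' hc' hne r r' e => ?_) fun c hc => ?_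
  · exact same _ (hu c hc) _ (hk c hc) _ (hk c hc) _ _
      (by simpa only [vl, hl c hc, Nat.add_sub_cancel] using e)
  · obtain ⟨v, hv, j, hj, j', hj', l1, l2⟩ := hE.adj c c' hc' hne
    have hc2 := nbs_lt φ c c' hc'
    exact ((key c r _ (hu c hc) _ (hk c hc) v hv j hj (hl c hc) l1).trans
      (same v hv j hj j' hj' _ (false, r')
        (by simpa only [vl, l1, l2, Nat.add_sub_cancel] using e))).trans
      (key c' r' v hv j' hj' _ (hu c' hc2) _ (hk c' hc2) l2 (hl c' hc2))
  · have h1 := h (.inr (.inr fun r => (lit φ c r).2)) _ (hk c hc) _ (hk c hc) (u c) (hu c hc) (by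
      simp only [TB, tCl, hl c hc, Nat.add_sub_cancel, Bool.and_eq_true, decide_eq_true_eq]
      exact ⟨trivial, ⟨⟨Nat.le_add_left _ _, rfl⟩, rfl⟩, rfl⟩)
    simp only [pp, pv] at h1
    obtain ⟨r, -, hr⟩ := Finset.prod_eq_zero_iff.1 h1
    exact ⟨r, sub_eq_zero.1 hr⟩

variable [CharP F 2] [Fintype F]

/-- The left side of the test. -/
noncomputable def lhs (e K : ℕ) (φ : CNF) (q : ℕ) (γ : ℕ → Mat M F) (cl : Mat M F → ℕ → Bool → ℕ)
    (A : ℕ → Reg → Pt M F → F) (k : ℕ) (τ : Ty) (x : Pt M F) : F :=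
  ∑ k' ∈ range q, hat e K RJ (GS M F) (fun v => bF F (TB φ q (cl v) k k' τ)) x * pp γ A k k' τ x

/-- The test at `u`. -/
def Acc (e K : ℕ) (φ : CNF) (q : ℕ) (γ : ℕ → Mat M F) (cl : Mat M F → ℕ → Bool → ℕ)
    (w : ℕ → Word → Pt M F → F) (u : Mat M F) : Prop :=
  ∀ k < q, (∀ wd a i, LD (128 * 2 ^ (7 * e)) fun c => w k wd (mv e i c (u, a))) ∧
    ∀ τ (a : Fin 8 → F), (∀ i ∉ RJ, a i = 0) →
      lhs e K φ q γ cl (fun k t => w k (.inl t)) k τ (u, a) =
        ∑ j ∈ RJ, a j * w k (.inr (τ, j)) (u, a)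

theorem acc_flat {e K D : ℕ} (hF : Fintype.card F = 2 ^ (8 * e)) (γ : ℕ → Mat M F)
    {A : ℕ → Reg → Pt M F → F} (h : ∀ k t, Flat e K RJ D (A k t)) (k k' : ℕ) (τ : Ty) :
    Flat e K RJ (D + D + D) (pp γ A k k' τ) := by
  rcases τ with r | p | σ
  · exact ((h k _).sub ((h k _).shift hF _)).mono (by omega)
  · exact ((h k _).sub (h k' _)).mono (by omega)
  · have h1 := (((h k (false, 0)).sub (Flat.const (bF F (σ 0)))).mul
      ((h k (false, 1)).sub (Flat.const (bF F (σ 1))))).mul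
      ((h k (false, 2)).sub (Flat.const (bF F (σ 2))))
    have h2 : pp γ A k k' (.inr (.inr σ)) = fun x => (A k (false, 0) x - bF F (σ 0)) *
        (A k (false, 1) x - bF F (σ 1)) * (A k (false, 2) x - bF F (σ 2)) :=
      funext fun x => by simp only [pp, pv, Fin.prod_univ_three]
    rw [h2]
    exact h1

omit [Fintype F] in
theorem acc_sum {e K D : ℕ} (f : ℕ → Pt M F → F) (h : ∀ k, Flat e K RJ D (f k)) (q : ℕ) :
    Flat e K RJ D fun x => ∑ k ∈ range q, f k x := by
  induction q with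
  | zero => exact Flat.const 0
  | succ q ih =>
    simp only [sum_range_succ]
    exact ih.add (h q)

/-- Sketch: as `NL.complete` with `A k t u = bF (x (vl φ (cl u) k t))`; `Flat` is closed under
finite sums; every summand vanishes at `a = 0` (a selected port `k' < q` of a switch type holds the
same variable, `idx_eq`). -/
theorem complete {e : ℕ} (hF : Fintype.card F = 2 ^ (8 * e)) (he : 1 ≤ e) {K : ℕ}
    (hK : M ^ 2 * 2 ^ (8 * e) ≤ 2 ^ (e * (8 * K))) {φ : CNF} (hφ : okF φ = true) (hs : Sat φ)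
    {q : ℕ} {γ : ℕ → Mat M F} {cl : Mat M F → ℕ → Bool → ℕ} (hL : Lab φ q γ cl) :
    ∃ w, ∀ u, Acc e K φ q γ cl w u := by
  classical
  obtain ⟨x, hx⟩ := hs
  let A : ℕ → Reg → Mat M F → F := fun k t u => bF F (x (vl φ (cl u) k t))
  have hfl : ∀ T : Mat M F → F,
      Flat e K RJ (22 * 2 ^ (7 * e) * 2 ^ (e * (8 * K))) (hat e K RJ (GS M F) T) := fun T => by
    have h1 := hat_flat hF he hK RJ (GS M F) T
    rwa [card_RJ] at h1
  have hz : ∀ (k : ℕ) (τ : Ty), ∃ g : Fin 8 → Pt M F → F, k < q →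
      (∀ j i y, LD (128 * 2 ^ (7 * e)) fun c => g j (mv e i c y)) ∧
      ∀ y : Pt M F, (∀ i ∉ RJ, y.2 i = 0) →
        lhs e K φ q γ cl (fun k t => hat e K RJ (GS M F) (A k t)) k τ y =
          ∑ j ∈ RJ, y.2 j * g j y := by
    intro k τ
    by_cases hk : k < q
    swap
    · exact ⟨0, fun h => absurd h hk⟩
    refine Exists.imp (fun g hg _ => hg) (zero_test hF he (acc_sum _ (fun k' =>
      ((hfl fun v => bF F (TB φ q (cl v) k k' τ)).mul
        (acc_flat hF γ (fun k t => hfl (A k t)) k k' τ)).mono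
      (le_of_eq (by ring))) q) fun u => sum_eq_zero fun k' hk' => ?_)
    rw [hat_zero hF]
    split_ifs with hu
    swap
    · exact zero_mul _
    cases hT : TB φ q (cl u) k k' τ
    · rw [bF, if_neg Bool.false_ne_true, zero_mul]
    refine mul_eq_zero_of_right _ ?_
    rcases τ with r | p | σ
    · have hv : γ k * u ∈ GS M F := (mem_GS _).2 (mul_mem (hL.mem k) ((mem_GS _).1 hu))
      simp only [pp, pv, hat_zero hF, if_pos hu, if_pos hv, A, vl,
        hL.inn u ((mem_GS _).1 hu) k hk, sub_self]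
    · simp only [TB, decide_eq_true_eq] at hT
      have h1 := acc_idx (hT.trans_lt (mem_range.1 hk'))
      rw [hT] at h1
      simp only [pp, pv, hat_zero hF, if_pos hu, A, h1, sub_self]
    · simp only [TB, tCl, Bool.and_eq_true, decide_eq_true_eq] at hT
      obtain ⟨-, ⟨⟨h2, s0⟩, s1⟩, s2⟩ := hT
      have hlt := hL.lt u k
      obtain ⟨r, hr⟩ := lit_sat hφ x hx (cl u k false - 2) (by omega)
      have hσ : (lit φ (cl u k false - 2) r).2 = σ r := by
        fin_cases r
        exacts [s0, s1, s2]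
      simp only [pp, pv]
      refine Finset.prod_eq_zero (Finset.mem_univ r) ?_
      simp only [hat_zero hF, if_pos hu, A, vl, hr, hσ, sub_self]
  choose g hg using hz
  refine ⟨fun k => Sum.elim (fun t => hat e K Finset.univ (GS M F) (A k t)) fun p => g k p.1 p.2,
    fun u k hk => ⟨?_, fun τ a ha => ?_⟩⟩
  · rintro (r | ⟨τ, j⟩) a i
    · exact hat_LD hF he hK _ _ _ i (Finset.mem_univ i) _
    · exact (hg k τ hk).1 j i _
  · refine Eq.trans ?_ ((hg k τ hk).2 (u, a) ha)
    refine sum_congr rfl fun k' _ => congrArg _ ?_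
    simp only [pp, Sum.elim_inl, fun T v => hat_slice e K RJ (GS M F) T (v, a) ha]

end Pool.Agent.Lib.MP_45faa6_lc.TR
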