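import Pool.Agent.Lib.MP_45faa6_lc.NL.Main

/-!
The case of a linear number of coin strings.
-/

set_option autoImplicit false

namespace Pool.Agent.Lib.MP_45faa6_lc.TR

open Pool.Agent.Lib.MP_45faa6_lc.NL Pool.Agent.Lib.MP_acf5a6_lc Pool.Agent.Lib.Common.CookLevin

theorem InPCP_mono {X : Type} [N487b59b3 X] {α β : ℝ} {r q r' q' : X → ℝ} {Y N : Set X}
    (h : InPCP α β r q Y N) (hr : ∀ x, r x ≤ r' x) (hq : ∀ x, q x ≤ q' x) :
    InPCP α β r' q' Y N := by
  obtain ⟨R, Q, D, h1, h2, h3, h4⟩ := h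
  exact ⟨R, Q, D, h1, h2, h3, fun x => ⟨(h4 x).1.trans (hr x),
    fun ρ hρ => ((h4 x).2.1 ρ hρ).trans (hq x), (h4 x).2.2⟩⟩

/-- About `log n / log log n`. -/
def sLog (n : ℕ) : ℕ := Nat.size n / Nat.size (Nat.size n) + 2

theorem sLog_PT : PT fun φ : CNF => List.replicate (sLog (csize φ)) true := by
  refine PT.of_eq (f := fun φ : CNF => true :: true :: ((urange (usz (csize φ))).filter fun i =>
    decide (i < (urange (usz (csize φ))).length /
      (urange (usz (urange (usz (csize φ))).length)).length)).map fun _ => true)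
    (by fun_prop) fun φ => ?_
  have h1 : ∀ a b : ℕ, b ≤ a → ((List.range a).filter fun i => decide (i < b)).length = b := by
    intro a b hb
    obtain ⟨c, rfl⟩ := Nat.exists_eq_add_of_le hb
    rw [List.range_add, List.filter_append, List.filter_eq_self.2 (by simp),
      List.filter_eq_nil_iff.2 (by simp)]
    simp
  simp only [urange, usz, sz_nat, sLog, List.map_const', List.length_range,
    h1 _ _ (Nat.div_le_self _ _), List.replicate_succ]

theorem sLog_sq (m : ℕ) : (m + 1) ^ 2 ≤ 3 * 2 ^ m := by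
  induction m with
  | zero => norm_num
  | succ m ih =>
    rcases Nat.lt_or_ge m 2 with h | h
    · interval_cases m <;> norm_num
    · rw [pow_succ 2]
      nlinarith

theorem sLog_low (n : ℕ) : Real.logb 2 n ≤ 5 * (sLog n * Real.logb 2 (sLog n)) := by
  have hs : 2 ≤ sLog n := Nat.le_add_left _ _
  have hs' : (2 : ℝ) ≤ sLog n := by exact_mod_cast hs
  have h1 : 1 ≤ Real.logb 2 (sLog n) := by
    rw [Real.le_logb_iff_rpow_le one_lt_two (by linarith), Real.rpow_one]
    exact hs'
  rcases Nat.eq_zero_or_pos n with rfl | hn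
  · rw [Nat.cast_zero, Real.logb_zero]
    positivity
  have hL : Real.logb 2 n ≤ Nat.size n := by
    rw [Real.logb_le_iff_le_rpow one_lt_two (by exact_mod_cast hn), Real.rpow_natCast]
    exact_mod_cast (Nat.lt_size_self n).le
  have hL0 : 0 < Nat.size n := Nat.size_pos.2 hn
  obtain ⟨m, hm⟩ : ∃ m, Nat.size (Nat.size n) = m + 1 :=
    Nat.exists_eq_succ_of_ne_zero (Nat.size_pos.2 hL0).ne'
  have h2 : 2 ^ m ≤ Nat.size n := Nat.lt_size.1 (by omega)
  have h3 : Nat.size n < (m + 1) * sLog n := by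
    rw [sLog, hm]
    have := Nat.lt_mul_div_succ (Nat.size n) (Nat.succ_pos m)
    nlinarith
  have h4 : m + 1 ≤ 3 * sLog n := by
    by_contra h
    have := sLog_sq m
    nlinarith
  have h5 : 2 ^ m ≤ sLog n ^ 4 := by
    have h6 : 3 ≤ sLog n * sLog n := by nlinarith
    calc 2 ^ m ≤ (3 * sLog n) * sLog n := h2.trans (h3.le.trans (Nat.mul_le_mul_right _ h4))
      _ ≤ (sLog n * sLog n * sLog n) * sLog n := by gcongr
      _ = _ := by ring
  have h6 : (m : ℝ) ≤ 4 * Real.logb 2 (sLog n) := by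
    have h7 : Real.logb 2 ((sLog n : ℝ) ^ 4) = 4 * Real.logb 2 (sLog n) := by
      rw [Real.logb_pow]
      norm_num
    rw [← h7, Real.le_logb_iff_rpow_le one_lt_two (by positivity), Real.rpow_natCast]
    exact_mod_cast h5
  have h8 : (Nat.size n : ℝ) ≤ (m + 1) * sLog n := by exact_mod_cast h3.le
  nlinarith

theorem sLog_up (n : ℕ) : (sLog n : ℝ) ≤ 4 * (1 + Real.logb 2 n / Real.logb 2 (Real.logb 2 n)) := by
  rcases Nat.lt_or_ge n 3 with hn | hn
  · have h1 : sLog n ≤ 4 := by
      interval_cases n <;> simp [sLog, Nat.size_one, show Nat.size 2 = 2 from rfl]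
    have h2 : Real.logb 2 n / Real.logb 2 (Real.logb 2 n) = 0 := by
      interval_cases n <;> simp
    rw [h2]
    have : (sLog n : ℝ) ≤ 4 := by exact_mod_cast h1
    linarith
  have hn' : (3 : ℝ) ≤ n := by exact_mod_cast hn
  have h0 : 1 < Real.logb 2 n := by
    rw [Real.lt_logb_iff_rpow_lt one_lt_two (by linarith), Real.rpow_one]
    linarith
  have h1 : 0 < Real.logb 2 (Real.logb 2 n) := Real.logb_pos one_lt_two h0
  have hL0 : 0 < Nat.size n := Nat.size_pos.2 (by omega)
  have hL : Real.logb 2 n ≤ Nat.size n := by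
    rw [Real.logb_le_iff_le_rpow one_lt_two (by linarith), Real.rpow_natCast]
    exact_mod_cast (Nat.lt_size_self n).le
  have hL' : (Nat.size n : ℝ) ≤ Real.logb 2 n + 1 := by
    obtain ⟨m, hm⟩ := Nat.exists_eq_succ_of_ne_zero hL0.ne'
    have h2 : 2 ^ m ≤ n := Nat.lt_size.1 (by omega)
    have h3 : (m : ℝ) ≤ Real.logb 2 n := by
      rw [Real.le_logb_iff_rpow_le one_lt_two (by linarith), Real.rpow_natCast]
      exact_mod_cast h2
    rw [hm]
    push_cast
    linarith
  have hM : Real.logb 2 (Real.logb 2 n) ≤ Nat.size (Nat.size n) := by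
    rw [Real.logb_le_iff_le_rpow one_lt_two (by linarith), Real.rpow_natCast]
    exact hL.trans (by exact_mod_cast (Nat.lt_size_self _).le)
  have hM1 : (1 : ℝ) ≤ Nat.size (Nat.size n) := by exact_mod_cast Nat.size_pos.2 hL0
  have h4 : ((Nat.size n / Nat.size (Nat.size n) : ℕ) : ℝ) ≤
      Real.logb 2 n / Real.logb 2 (Real.logb 2 n) + 1 := by
    refine Nat.cast_div_le.trans ((div_le_div_of_nonneg_right hL' (by linarith)).trans ?_)
    rw [add_div]
    exact add_le_add (div_le_div_of_nonneg_left (by linarith) h1 hM) (div_le_one_of_le₀ hM1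
      (by linarith))
  have h5 : 0 ≤ Real.logb 2 n / Real.logb 2 (Real.logb 2 n) := div_nonneg (by linarith) h1.le
  rw [sLog]
  push_cast
  linarith

theorem lin_coins {β D E : ℝ} (h : ∀ s : CNF → ℕ,
    N68a2faeb.IsPolyTime (fun φ => List.replicate (s φ) true) → (∀ φ, 2 ≤ s φ) →
    InPCP 1 β (fun φ : CNF => Real.logb 2 (1 + csize φ * Real.logb 2 (csize φ) /
      (s φ * Real.logb 2 (s φ))) + D) (fun φ => E * s φ) ThreeSAT ThreeSATᶜ) :
    InPCP 1 β (fun φ : CNF => Real.logb 2 (csize φ) + (D + 3))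
      (fun φ => 4 * |E| * (1 + Real.logb 2 (csize φ) / Real.logb 2 (Real.logb 2 (csize φ))))
      ThreeSAT ThreeSATᶜ := by
  refine InPCP_mono (h (fun φ => sLog (csize φ)) sLog_PT.isPolyTime fun _ => Nat.le_add_left _ _)
    (fun φ => ?_) fun φ => ?_
  · generalize csize φ = n
    rcases Nat.eq_zero_or_pos n with rfl | hn
    · simp
    have hn' : (1 : ℝ) ≤ n := by exact_mod_cast hn
    have hs' : (2 : ℝ) ≤ sLog n := by exact_mod_cast (Nat.le_add_left _ _ : 2 ≤ sLog n)
    have h1 : 0 < Real.logb 2 (sLog n) := Real.logb_pos one_lt_two (by linarith)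
    have h2 : 0 ≤ Real.logb 2 n := Real.logb_nonneg one_lt_two hn'
    have h3 : n * Real.logb 2 n / (sLog n * Real.logb 2 (sLog n)) ≤ 5 * n := by
      rw [div_le_iff₀ (by positivity)]
      nlinarith [sLog_low n]
    have h4 : Real.logb 2 (n * 2 ^ 3) = Real.logb 2 n + 3 := by
      rw [Real.logb_mul (by positivity) (by positivity), Real.logb_pow]
      simp
    have h5 := Real.logb_le_logb_of_le one_lt_two (by positivity)
      (show 1 + n * Real.logb 2 n / (sLog n * Real.logb 2 (sLog n)) ≤ n * 2 ^ 3 by linarith)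
    rw [h4] at h5
    linarith
  · have h1 := mul_le_mul (le_abs_self E) (sLog_up (csize φ)) (Nat.cast_nonneg _) (abs_nonneg E)
    linarith

end Pool.Agent.Lib.MP_45faa6_lc.TR
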