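import Pool.Agent.Lib.MP_45faa6_lc.TR.EDef
import Pool.Agent.Lib.MP_45faa6_lc.NL.EmbBall

/-!
The breadth-first search and basic facts on wires.
-/

set_option autoImplicit false

namespace Pool.Agent.Lib.MP_45faa6_lc.TR

open Finset Pool.Agent.Lib.MP_45faa6_lc.NL Pool.Agent.Lib.MP_acf5a6_lc
  Pool.Agent.Lib.Common.CookLevin

variable {P : Hs} {nb : List (List ℕ)} {a l : ℕ} (s : St) (j : ℕ)

theorem wires_getD {β : Type} (g : ℕ → β) (d : β) (w : ℕ) :
    ((wires P).map g).getD w d = if w < hW P then g w else d := by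
  have h1 : wires P = List.range (hW P) := rfl
  by_cases h : w < hW P <;> simp [h1, List.getD_eq_getElem?_getD, h]

theorem nodes_getD {β : Type} (g : ℕ → β) (d : β) (v : ℕ) :
    ((nodes P).map g).getD v d = if v < hN P then g v else d := by
  have h1 : nodes P = List.range (hN P) := rfl
  by_cases h : v < hN P <;> simp [h1, List.getD_eq_getElem?_getD, h]

theorem mem_wires {w : ℕ} : w ∈ wires P ↔ w < hW P := by simp [wires, urange, ulen, hW]

theorem mem_nodes {v : ℕ} : v ∈ nodes P ↔ v < hN P := by simp [nodes, urange, hN]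

theorem used_eq (u : ℕ) : used P s u = #{w ∈ range (hW P) | hT P w = u ∧ wl s w ≠ 0} := by
  show _ = ((List.range (hW P)).filter fun w => decide (hT P w = u ∧ wl s w ≠ 0)).length
  exact congrArg List.length (List.filter_congr fun w _ => by simp)

theorem hasL_iff (u x : ℕ) : hasL P s u x = true ↔ ∃ w < hW P, hT P w = u ∧ wl s w = x := by
  simp [hasL, mem_wires]

theorem placed_iff (c : ℕ) : placed P s c = true ↔ ∃ w < hW P, wl s w = c + 2 := by
  simp [placed, mem_wires]

theorem opn_iff (u : ℕ) : opn P s u = true ↔ ga s u = false ∧ 1024 * used P s u ≤ hq P := by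
  simp [opn]

theorem stb_iff (u : ℕ) : stb P s u = true ↔ ga s u = false ∧ 32 * used P s u ≤ hq P := by
  simp [stb]

theorem Ok.tail_lt (h : Ok P nb a l) {w : ℕ} (hw : w < hW P) : hT P w < hN P := by
  rw [h.W_eq, mul_comm] at hw
  exact Nat.div_lt_of_lt_mul hw

/-- Every node is the tail of `q` wires. -/
theorem Ok.fibre (h : Ok P nb a l) {u : ℕ} (hu : u < hN P) :
    #{w ∈ range (hW P) | hT P w = u} = hq P := by
  have h0 : 0 < hq P := by have := h.q_eq; have := h.a_ge; omega
  have h1 : ({w ∈ range (hW P) | hT P w = u} : Finset ℕ) = Ico (u * hq P) (u * hq P + hq P) := by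
    ext w
    have h2 : (u + 1) * hq P ≤ hW P := h.W_eq ▸ Nat.mul_le_mul_right _ hu
    rw [mem_filter, mem_range, mem_Ico, hT, Nat.div_eq_iff h0]
    rw [add_mul, one_mul] at h2
    omega
  rw [h1, Nat.card_Ico, Nat.add_sub_cancel_left]

theorem eball_next_length (tab : List (List ℕ)) : (tabNext P s tab).length = hN P := by
  simp [tabNext, nodes, urange, hN]

theorem eball_mem_ins {tab : List (List ℕ)} {v w : ℕ} : w ∈ ins P s tab v ↔
    w < hW P ∧ hH P w = v ∧ wl s w = 0 ∧ tab.getD (hT P w) [] ≠ [] := by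
  rw [ins, List.mem_filter, mem_wires, Bool.and_eq_true, Bool.and_eq_true, decide_eq_true_eq,
    decide_eq_true_eq, Bool.not_eq_true', List.isEmpty_eq_false_iff, and_assoc]

theorem eball_next_old (tab : List (List ℕ)) (v : ℕ) (hv : v < hN P) (h : tab.getD v [] ≠ []) :
    (tabNext P s tab).getD v [] = tab.getD v [] := by
  rw [tabNext, nodes_getD, if_pos hv, List.isEmpty_eq_false_iff.2 h]
  rfl

theorem eball_next_new (tab : List (List ℕ)) (w : ℕ) (hw : w < hW P) (h0 : wl s w = 0)
    (ht : tab.getD (hT P w) [] ≠ []) (hv : hH P w < hN P) (ho : opn P s (hH P w) = true) :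
    (tabNext P s tab).getD (hH P w) [] ≠ [] := by
  by_cases h : tab.getD (hH P w) [] = []
  · have h1 : (ins P s tab (hH P w)).isEmpty = false := List.isEmpty_eq_false_iff.2
      (List.ne_nil_of_mem ((eball_mem_ins s).2 ⟨hw, rfl, h0, ht⟩))
    rw [tabNext, nodes_getD, if_pos hv, h, h1, ho]
    exact List.cons_ne_nil _ _
  · rwa [eball_next_old s tab _ hv h]

theorem eball_next_cases (tab : List (List ℕ)) (v : ℕ) (h : (tabNext P s tab).getD v [] ≠ []) :
    (tab.getD v [] ≠ [] ∧ (tabNext P s tab).getD v [] = tab.getD v []) ∨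
      (v < hN P ∧ tab.getD v [] = [] ∧ opn P s v = true ∧ ∃ w ∈ ins P s tab v,
        (tabNext P s tab).getD v [] = w :: tab.getD (hT P w) []) := by
  have hv : v < hN P := by
    by_contra hv
    rw [tabNext, nodes_getD, if_neg hv] at h
    exact h rfl
  by_cases h1 : tab.getD v [] = []
  · right
    rw [tabNext, nodes_getD, if_pos hv, h1] at h ⊢
    cases h0 : opn P s v
    · rw [h0] at h
      simp at h
    · rcases hr : ins P s tab v with _ | ⟨w, L⟩
      · rw [hr] at h
        simp at h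
      · exact ⟨hv, rfl, rfl, w, List.mem_cons_self, rfl⟩
  · exact Or.inl ⟨h1, eball_next_old s tab v hv h1⟩

/-- All entries of the table are good, with a bound on the length. -/
def eballGood (P : Hs) (s : St) (j ρ : ℕ) (tab : List (List ℕ)) : Prop :=
  ∀ v, tab.getD v [] ≠ [] → v < hN P ∧ stb P s v = true ∧
    GoodPath P s j v (ρ + 1) (tab.getD v []) ∧
    ∀ w ∈ tab.getD v [], w < hW P → tab.getD (hT P w) [] ≠ [] ∧ hT P w ≠ v ∧ opn P s v = true

theorem eball_good0 : eballGood P s j 0 (tab0 P s j) := by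
  intro v hv
  have h : v < hN P := by
    by_contra h
    rw [tab0, nodes_getD, if_neg h] at hv
    exact hv rfl
  have h1 : (tab0 P s j).getD v [] = cond (stb P s v && hasL P s v (j + 2)) [hW P] [] := by
    rw [tab0, nodes_getD, if_pos h]
  rw [h1] at hv ⊢
  cases hc : (stb P s v && hasL P s v (j + 2))
  · rw [hc] at hv
    exact absurd rfl hv
  rw [Bool.and_eq_true, hasL_iff] at hc
  obtain ⟨h0, x, hx, hx1, hx2⟩ := hc
  have h2 : ∀ {w}, w ∈ cond true [hW P] [] → ¬ w < hW P := fun hw => by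
    rw [List.mem_singleton.1 hw]; exact lt_irrefl _
  exact ⟨h, h0, ⟨fun w hw h3 => absurd h3 (h2 hw), fun w hw _ _ h3 => absurd h3 (h2 hw),
    fun w hw _ _ h3 => absurd h3 (h2 hw), fun w hw h3 => absurd h3 (h2 hw),
    ⟨x, hx, hx2, Or.inl hx1⟩, le_rfl⟩, fun w hw h3 => absurd h3 (h2 hw)⟩

theorem eball_mono {v ρ ρ' : ℕ} {p : List ℕ} (h : GoodPath P s j v ρ p) (h' : ρ ≤ ρ') :
    GoodPath P s j v ρ' p := ⟨h.free, h.inj, h.one, h.conn, h.touch, h.len.trans h'⟩

theorem eball_good_next {ρ : ℕ} {tab : List (List ℕ)} (h : eballGood P s j ρ tab) :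
    eballGood P s j (ρ + 1) (tabNext P s tab) := by
  have hm : ∀ u, tab.getD u [] ≠ [] → (tabNext P s tab).getD u [] ≠ [] := fun u hu => by
    rwa [eball_next_old s tab u (h u hu).1 hu]
  intro v hv
  rcases eball_next_cases s tab v hv with ⟨h1, h2⟩ | ⟨h1, h0, ho, w, hw, h2⟩
  · rw [h2]
    obtain ⟨a, b, c, d⟩ := h v h1
    exact ⟨a, b, eball_mono s j c (Nat.le_succ _), fun w hw h3 =>
      ⟨hm _ (d w hw h3).1, (d w hw h3).2⟩⟩
  rw [h2]
  obtain ⟨w1, w2, w3, w4⟩ := (eball_mem_ins s).1 hw
  obtain ⟨-, b, c, d⟩ := h _ w4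
  refine ⟨h1, ?_, ⟨fun x hx h3 => ?_, fun x hx y hy h3 h4 h5 => ?_,
    fun x hx y hy h3 h4 h5 h6 => ?_, fun x hx h3 => ⟨w, List.mem_cons_self, w1, w2, ?_⟩, ?_, ?_⟩,
    fun x hx h3 => ?_⟩
  · rw [opn_iff] at ho
    exact (stb_iff s v).2 ⟨ho.1, by omega⟩
  · rcases List.mem_cons.1 hx with rfl | hx
    exacts [⟨w3, b⟩, c.free x hx h3]
  · rcases List.mem_cons.1 hx with rfl | hx <;> rcases List.mem_cons.1 hy with rfl | hy
    exacts [rfl, absurd h5.symm (d y hy h4).2.1, absurd h5 (d x hx h3).2.1, c.inj x hx y hy h3 h4 h5]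
  · rcases List.mem_cons.1 hx with rfl | hx <;> rcases List.mem_cons.1 hy with rfl | hy
    · rfl
    · exact absurd ((d y hy h4).2.2.symm.trans h5) (by simp)
    · exact absurd ((d x hx h3).2.2.symm.trans h6) (by simp)
    · exact c.one x hx y hy h3 h4 h5 h6
  · rcases List.mem_cons.1 hx with rfl | hx
    · exact Relation.ReflTransGen.refl
    · obtain ⟨y, hy, y1, y2, y3⟩ := c.conn x hx h3
      refine Relation.ReflTransGen.tail (Relation.ReflTransGen.mono (fun _ _ hz => ?_) _ _ y3)
        ⟨List.mem_cons_of_mem _ hy, List.mem_cons_self, y1, w1, y2.symm⟩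
      exact ⟨List.mem_cons_of_mem _ hz.1, List.mem_cons_of_mem _ hz.2.1, hz.2.2⟩
  · obtain ⟨x, x1, x2, x3⟩ := c.touch
    refine ⟨x, x1, x2, Or.inr ?_⟩
    rcases x3 with x3 | ⟨y, hy, y1⟩
    exacts [⟨w, List.mem_cons_self, w1, x3.symm⟩, ⟨y, List.mem_cons_of_mem _ hy, y1⟩]
  · exact Nat.succ_le_succ c.len
  · have h4 : tab.getD (hT P x) [] ≠ [] := by
      rcases List.mem_cons.1 hx with rfl | hx
      exacts [w4, (d x hx h3).1]
    exact ⟨hm _ h4, fun h5 => h4 (h5 ▸ h0), ho⟩

theorem eball_step_cases (tab : List (List ℕ)) :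
    ((tBig P tab = true ∨ tsize (tabNext P s tab) ≤ hk P * tsize tab) ∧ tStep P s tab = tab) ∨
    (¬ (tBig P tab = true ∨ tsize (tabNext P s tab) ≤ hk P * tsize tab) ∧
      tStep P s tab = tabNext P s tab) := by
  unfold tStep
  cases hc : (tBig P tab || decide (tsize (tabNext P s tab) ≤ hk P * tsize tab))
  · rw [← Bool.not_eq_true, Bool.or_eq_true, decide_eq_true_eq] at hc
    exact Or.inr ⟨hc, rfl⟩
  · rw [Bool.or_eq_true, decide_eq_true_eq] at hc
    exact Or.inl ⟨hc, rfl⟩

theorem eball_iter_length (i : ℕ) : ((tStep P s)^[i] (tab0 P s j)).length = hN P := by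
  induction i with
  | zero => simp [tab0, nodes, urange, hN]
  | succ i ih =>
    rw [Function.iterate_succ_apply']
    rcases eball_step_cases (P := P) s ((tStep P s)^[i] (tab0 P s j)) with ⟨-, h⟩ | ⟨-, h⟩
    · rwa [h]
    · rw [h, eball_next_length]

theorem eball_inv (i : ℕ) : ∃ ρ, eballGood P s j ρ ((tStep P s)^[i] (tab0 P s j)) ∧
    ∀ σ, ρ = σ + 1 → hk P ^ σ ≤ tsize ((tStep P s)^[i] (tab0 P s j)) := by
  induction i with
  | zero => exact ⟨0, eball_good0 s j, fun σ h => absurd h (by omega)⟩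
  | succ i ih =>
    obtain ⟨ρ, h1, h2⟩ := ih
    rw [Function.iterate_succ_apply']
    generalize (tStep P s)^[i] (tab0 P s j) = tab at h1 h2
    rcases eball_step_cases (P := P) s tab with ⟨-, h⟩ | ⟨hg, h⟩
    · rw [h]
      exact ⟨ρ, h1, h2⟩
    · rw [h]
      have hg' := not_le.1 (not_or.1 hg).2
      refine ⟨ρ + 1, eball_good_next s j h1, fun σ hσ => ?_⟩
      obtain rfl : ρ = σ := by omega
      cases ρ with
      | zero => rw [pow_zero]; omega
      | succ σ =>
        rw [pow_succ']
        exact (Nat.mul_le_mul_left _ (h2 σ rfl)).trans hg'.le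

theorem eball_stuck (hk1 : 1 ≤ hk P) (i : ℕ) :
    (tBig P ((tStep P s)^[i] (tab0 P s j)) = true ∨
      tsize (tabNext P s ((tStep P s)^[i] (tab0 P s j))) ≤
        hk P * tsize ((tStep P s)^[i] (tab0 P s j))) ∨
      i ≤ tsize ((tStep P s)^[i] (tab0 P s j)) := by
  induction i with
  | zero => exact Or.inr (Nat.zero_le _)
  | succ i ih =>
    rw [Function.iterate_succ_apply']
    generalize (tStep P s)^[i] (tab0 P s j) = tab at ih
    rcases eball_step_cases (P := P) s tab with ⟨h1, h⟩ | ⟨hg, h⟩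
    · rw [h]
      exact Or.inl h1
    · rw [h]
      have h1 := ih.resolve_left hg
      have h2 := not_le.1 (not_or.1 hg).2
      have h3 := Nat.le_mul_of_pos_left (tsize tab) hk1
      exact Or.inr (by omega)

theorem ball_tsize : tsize (ball P s j) = #(sB P (ball P s j)) := by
  rw [embball_tsize, show (ball P s j).length = hN P from eball_iter_length s j _]
  rfl

/-- Reached nodes are open, or start nodes. -/
theorem ball_stb (v : ℕ) (hv : (ball P s j).getD v [] ≠ []) : v < hN P ∧ stb P s v = true := by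
  obtain ⟨ρ, h1, -⟩ := eball_inv (P := P) s j P.1.n
  exact ⟨(h1 v hv).1, (h1 v hv).2.1⟩

theorem ball_start (v : ℕ) (hv : v < hN P) (h0 : stb P s v = true)
    (hw : ∃ w < hW P, hT P w = v ∧ wl s w = j + 2) : (ball P s j).getD v [] ≠ [] := by
  have key : ∀ i, ((tStep P s)^[i] (tab0 P s j)).getD v [] ≠ [] := fun i => by
    induction i with
    | zero =>
      rw [Function.iterate_zero_apply, tab0, nodes_getD, if_pos hv, h0, (hasL_iff s v _).2 hw]
      exact List.cons_ne_nil _ _
    | succ i ih =>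
      rw [Function.iterate_succ_apply']
      generalize (tStep P s)^[i] (tab0 P s j) = tab at ih
      rcases eball_step_cases (P := P) s tab with ⟨-, h⟩ | ⟨-, h⟩
      · rwa [h]
      · rwa [h, eball_next_old s tab v hv ih]
  exact key _

/-- Sketch: as `NL.ball_path`. Invariant after any number of rounds: there is `ρ` (the number of
growing rounds) such that all entries are good with length `≤ ρ + 1`, every real wire `w` in the
entry of `v` has a reached tail different from `v`, the entry of `v` has no real wire unless `v` is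
open, and `ρ = σ + 1 → κ ^ σ ≤ tsize`. As `tsize ≤ N < κ ^ l`, `ρ ≤ l`; one more round. -/
theorem ballX_path (h : Ok P nb a l) (v : ℕ) (hv : (ballX P s j).getD v [] ≠ []) :
    GoodPath P s j v (l + 2) ((ballX P s j).getD v []) := by
  obtain ⟨ρ, h1, h2⟩ := eball_inv (P := P) s j P.1.n
  refine eball_mono s j (eball_good_next s j h1 v hv).2.2.1 ?_
  cases ρ with
  | zero => omega
  | succ σ =>
    have h3 := ((h2 σ rfl).trans ((embball_tsize_le _).trans
      (eball_iter_length s j _).le)).trans_lt h.pow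
    have := (Nat.pow_lt_pow_iff_right h.k_ge).1 h3
    omega

/-- Open heads of free wires from the ball are reached in the last round. -/
theorem ballX_new (w : ℕ) (hw : w < hW P) (h0 : wl s w = 0)
    (ht : (ball P s j).getD (hT P w) [] ≠ []) (hv : hH P w < hN P)
    (ho : opn P s (hH P w) = true) : (ballX P s j).getD (hH P w) [] ≠ [] := by
  exact eball_next_new s _ w hw h0 ht hv ho

/-- Sketch: as `NL.ball_stuck`: a growing round increases `tsize ≤ N`. -/
theorem ball_stuck (h : Ok P nb a l) (hb : tBig P (ball P s j) = false) :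
    #{v ∈ range (hN P) | opn P s v = true ∧ ∃ w ∈ range (hW P),
      (ball P s j).getD (hT P w) [] ≠ [] ∧ wl s w = 0 ∧ hH P w = v} ≤
      hk P * #(sB P (ball P s j)) := by
  have hk1 : 1 ≤ hk P := by have := h.k_ge; omega
  have h1 : tsize (ballX P s j) ≤ hk P * tsize (ball P s j) := by
    rcases eball_stuck s j hk1 P.1.n with (h0 | h0) | h0
    · exact absurd (hb.symm.trans h0) (by simp)
    · exact h0
    · exact ((embball_tsize_le _).trans (eball_next_length s _).le).trans
        (le_trans h0 (Nat.le_mul_of_pos_left _ hk1))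
  rw [← ball_tsize]
  refine le_trans ?_ h1
  rw [embball_tsize, show (ballX P s j).length = hN P from eball_next_length s _]
  refine card_le_card fun v hv => ?_
  obtain ⟨h2, h3, w, hw, h4, h5, rfl⟩ := mem_filter.1 hv
  exact mem_filter.2 ⟨h2, ballX_new s j w (mem_range.1 hw) h5 h4 (mem_range.1 h2) h3⟩

end Pool.Agent.Lib.MP_45faa6_lc.TR
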