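import Pool.Agent.Lib.MP_45faa6_lc.TR.EBall

/-!
Counting closed nodes; the hub; the bound for the garbage.
-/

set_option autoImplicit false

namespace Pool.Agent.Lib.MP_45faa6_lc.TR

open Finset Pool.Agent.Lib.MP_45faa6_lc.NL Pool.Agent.Lib.MP_acf5a6_lc
  Pool.Agent.Lib.Common.CookLevin

variable {P : Hs} {nb : List (List ℕ)} {a l : ℕ} {s : St} {Hm : Finset ℕ}

theorem ecnt_head {l : List ℕ} (h : l ≠ []) : l.headD 0 ∈ l := by
  cases l with
  | nil => exact absurd rfl h
  | cons a l => exact List.mem_cons_self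

/-- Sketch, `n = nb.length`: `#Hm ≤ n + (a + 1) (#G + #E)` (live home wires inject into labels by
`hm3`, `lt`; junk ones have tails in `sG ∪ sE` by `junk`, fibres `hm2`); on `sE`,
`used - (a + 7) ≥ 31 a - 6`, so `(31 a - 6) #E ≤ 6 #Hm` by `hm4`; `a ≥ 16`. -/
theorem exh_le (h : Ok P nb a l) (I : Inv0 P nb a l s Hm) :
    4 * a * #(sE P s) ≤ nb.length + 2 * a * #(sG P s) := by
  have h1 : Hm ⊆ {w ∈ Hm | 2 ≤ wl s w} ∪
      (sG P s ∪ sE P s).biUnion fun u => {w ∈ Hm | hT P w = u} := by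
    intro w hw
    obtain ⟨e1, e2⟩ := I.hm1 w hw
    by_cases e3 : 2 ≤ wl s w
    · exact mem_union_left _ (mem_filter.2 ⟨hw, e3⟩)
    · have e4 := mem_range.2 (h.tail_lt e1)
      refine mem_union_right _ (mem_biUnion.2 ⟨hT P w, ?_, mem_filter.2 ⟨hw, rfl⟩⟩)
      rcases I.junk w e1 (by omega) with e | e
      · exact mem_union_left _ (mem_filter.2 ⟨e4, e⟩)
      · exact mem_union_right _ (mem_filter.2 ⟨e4, e⟩)
  have h2 : #{w ∈ Hm | 2 ≤ wl s w} ≤ nb.length := by
    rw [← card_range nb.length]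
    refine card_le_card_of_injOn (fun w => wl s w - 2) (fun w hw => ?_) fun w hw w' hw' e => ?_
    · have := (mem_filter.1 (mem_coe.1 hw)).2
      have := I.lt w
      exact mem_coe.2 (mem_range.2 (show wl s w - 2 < _ by omega))
    · obtain ⟨e1, e2⟩ := mem_filter.1 (mem_coe.1 hw)
      obtain ⟨e3, e4⟩ := mem_filter.1 (mem_coe.1 hw')
      have e5 : wl s w - 2 = wl s w' - 2 := e
      exact I.hm3 w e1 w' e3 e2 (by omega)
  have h3 := (card_biUnion_le_card_mul (sG P s ∪ sE P s) _ _ fun u _ => I.hm2 u).trans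
    (Nat.mul_le_mul_right _ (card_union_le _ _))
  have h4 := (card_le_card h1).trans ((card_union_le _ _).trans (Nat.add_le_add h2 h3))
  obtain ⟨b, rfl⟩ := Nat.exists_eq_add_of_le h.a_ge
  have h5 := (card_nsmul_le_sum (sE P s) (fun u => used P s u - (16 + b + 7)) (31 * b + 490)
    fun u hu => by
      have e1 := (mem_filter.1 hu).2
      rw [h.q_eq] at e1
      omega).trans ((sum_le_sum_of_subset (filter_subset _ _)).trans I.hm4)
  rw [smul_eq_mul] at h5
  nlinarith [Nat.zero_le (b * #(sE P s)), Nat.zero_le (b * #(sG P s))]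

/-- Sketch: a closed node is in `sG`, in `sE`, or has more than `a` used wires, all live (`junk`);
there are at most `7 (l + 2) n` live wires (`small`, `lt`); `big`. -/
theorem closed_le (h : Ok P nb a l) (I : Inv0 P nb a l s Hm) :
    64 * #{u ∈ range (hN P) | opn P s u = false} ≤ 96 * #(sG P s) + 2 * hN P := by
  obtain ⟨Z, hZ⟩ : ∃ Z : Finset ℕ, ∀ u, u ∈ Z ↔ u < hN P ∧ ga s u = false ∧
      32 * used P s u ≤ hq P ∧ a < used P s u :=
    ⟨{u ∈ range (hN P) | ga s u = false ∧ 32 * used P s u ≤ hq P ∧ a < used P s u},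
      fun u => by rw [mem_filter, mem_range]⟩
  have h1 : {u ∈ range (hN P) | opn P s u = false} ⊆ sG P s ∪ sE P s ∪ Z := by
    intro u hu
    obtain ⟨e1, e2⟩ := mem_filter.1 hu
    by_cases e3 : ga s u = true
    · exact mem_union_left _ (mem_union_left _ (mem_filter.2 ⟨e1, e3⟩))
    by_cases e4 : hq P < 32 * used P s u
    · exact mem_union_left _ (mem_union_right _ (mem_filter.2 ⟨e1, e4⟩))
    have e5 := eq_false_of_ne_true e3
    have e6 : ¬1024 * used P s u ≤ hq P := fun e => by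
      rw [(opn_iff s u).2 ⟨e5, e⟩] at e2
      exact Bool.noConfusion e2
    rw [h.q_eq] at e6
    exact mem_union_right _ ((hZ u).2 ⟨mem_range.1 e1, e5, not_lt.1 e4, by omega⟩)
  have h2 : (Z.biUnion fun u => {w ∈ range (hW P) | hT P w = u ∧ wl s w ≠ 0}) ⊆
      (range nb.length).biUnion fun c => sL P s (c + 2) := by
    intro w hw
    obtain ⟨u, hu, e⟩ := mem_biUnion.1 hw
    obtain ⟨e1, rfl, e2⟩ := mem_filter.1 e
    obtain ⟨-, e3, e4, -⟩ := (hZ _).1 hu
    have e5 : wl s w ≠ 1 := fun e => (I.junk w (mem_range.1 e1) e).elim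
      (fun e' => Bool.noConfusion (e3.symm.trans e')) (not_lt.2 e4)
    have := I.lt w
    exact mem_biUnion.2 ⟨wl s w - 2, mem_range.2 (by omega), mem_filter.2 ⟨e1, by omega⟩⟩
  have h3 := (card_le_card h2).trans (card_biUnion_le_card_mul _ _ _ fun c _ => I.small c)
  rw [card_range, card_biUnion fun u _ u' _ e => disjoint_left.2 fun w e1 e2 =>
    e ((mem_filter.1 e1).2.1.symm.trans (mem_filter.1 e2).2.1)] at h3
  have h4 := (card_nsmul_le_sum Z _ a fun u hu =>
    ((hZ u).1 hu).2.2.2.le.trans_eq (used_eq s u)).trans h3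
  rw [smul_eq_mul] at h4
  have h5 := (card_le_card h1).trans ((card_union_le _ _).trans
    (Nat.add_le_add_right (card_union_le _ _) _))
  have h6 := exh_le h I
  have h7 := h.big
  have a0 : 0 < a := lt_of_lt_of_le (by norm_num) h.a_ge
  have h8 : 64 * #Z ≤ hN P := Nat.le_of_mul_le_mul_left (by nlinarith) a0
  have h9 : 64 * #(sE P s) ≤ hN P + 32 * #(sG P s) :=
    Nat.le_of_mul_le_mul_left (by nlinarith [Nat.zero_le (l * nb.length)]) a0
  omega

/-- At least `15 q / 16` wires with tail `u` are free (`fibre`, `cap`). -/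
theorem free_ge (h : Ok P nb a l) (I : Inv0 P nb a l s Hm) {u : ℕ} (hu : u < hN P) :
    15 * hq P ≤ 16 * #{w ∈ range (hW P) | hT P w = u ∧ wl s w = 0} := by
  have h1 := card_filter_add_card_filter_not (s := {w ∈ range (hW P) | hT P w = u})
    fun w => wl s w = 0
  rw [filter_filter, filter_filter, h.fibre hu, ← used_eq] at h1
  have := I.cap u
  omega

/-- Sketch: `exp` with `X = sG` and `H = sF ∪ closed nodes`. -/
theorem few_of (h : Ok P nb a l) (I : Inv0 P nb a l s Hm) (h2 : hK P * #(sG P s) ≤ 2 * hN P) :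
    hK P * #(sG P s) ≤ hN P := by
  have h1 := closed_le h I
  have h3 := I.bd
  have h4 := (Nat.mul_le_mul_right #(sG P s) h.K_ge).trans h2
  have h5 := card_union_le (sF P s) {u ∈ range (hN P) | opn P s u = false}
  refine h.exp (sG P s) (sF P s ∪ {u ∈ range (hN P) | opn P s u = false}) (filter_subset _ _)
    (union_subset (filter_subset _ _) (filter_subset _ _)) (by nlinarith) fun u hu => ?_
  obtain ⟨e1, e2⟩ := mem_filter.1 hu
  refine (free_ge h I (mem_range.1 e1)).trans (Nat.mul_le_mul_left _ (card_le_card fun w hw => ?_))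
  obtain ⟨e3, rfl, e4⟩ := mem_filter.1 hw
  have e5 := mem_range.2 (h.head w (mem_range.1 e3))
  refine mem_filter.2 ⟨e3, rfl, ?_⟩
  by_cases e6 : opn P s (hH P w) = true
  · exact mem_union_left _ (mem_filter.2 ⟨e5, e6, w, e3, e2, e4, rfl⟩)
  · exact mem_union_right _ (mem_filter.2 ⟨e5, eq_false_of_ne_true e6⟩)

/-- Sketch: for a big ball the heads of the free wires from it are more than `7 N / 8` nodes
(`exp`, `ball_stb`, `free_ge`); at most six balls; fewer than `N / 4` closed nodes; `ballX_new`. -/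
theorem hub_spec (h : Ok P nb a l) (I : Inv0 P nb a l s Hm) (few : hK P * #(sG P s) ≤ hN P) {c : ℕ}
    (hb : ∀ j ∈ nbPl P nb s c, tBig P (ball P s j) = true) :
    hub P nb s c < hN P ∧ opn P s (hub P nb s c) = true ∧
      (∀ j ∈ nbPl P nb s c, (ballX P s j).getD (hub P nb s c) [] ≠ []) ∧
      homeW P nb s c < hW P ∧ hT P (homeW P nb s c) = hub P nb s c ∧
      wl s (homeW P nb s c) = 0 := by
  let H : ℕ → Finset ℕ := fun j => {v ∈ range (hN P) | ∃ w ∈ range (hW P),
    (ball P s j).getD (hT P w) [] ≠ [] ∧ wl s w = 0 ∧ hH P w = v}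
  have h1 : ∀ j ∈ (nbPl P nb s c).toFinset, #(range (hN P) \ H j) ≤ (hN P - 1) / 8 := by
    intro j hj
    have h2 : hN P < hK P * tsize (ball P s j) :=
      of_decide_eq_true (hb j (List.mem_toFinset.1 hj))
    have h3 : ¬8 * #(H j) ≤ 7 * hN P := fun e => by
      rw [ball_tsize] at h2
      refine h2.not_ge (h.exp _ (H j) (filter_subset _ _) (filter_subset _ _) e fun u hu => ?_)
      obtain ⟨e1, e2⟩ := mem_filter.1 hu
      refine (free_ge h I (mem_range.1 e1)).trans
        (Nat.mul_le_mul_left _ (card_le_card fun w hw => ?_))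
      obtain ⟨e3, rfl, e4⟩ := mem_filter.1 hw
      exact mem_filter.2 ⟨e3, rfl, mem_filter.2
        ⟨mem_range.2 (h.head w (mem_range.1 e3)), w, e3, e2, e4, rfl⟩⟩
    rw [card_sdiff_of_subset (s := H j) (filter_subset _ _), card_range]
    omega
  have h3 : #(nbPl P nb s c).toFinset ≤ 6 :=
    (List.toFinset_card_le _).trans ((List.length_filter_le _ _).trans (h.deg c))
  have h4 := (card_biUnion_le_card_mul _ _ _ h1).trans (Nat.mul_le_mul_right _ h3)
  have h5 := closed_le h I
  have h6 : 32 * #(sG P s) ≤ hN P :=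
    (Nat.mul_le_mul_right _ (by linarith [h.K_ge, h.k_ge])).trans few
  have h7 := h.pos
  obtain ⟨v, hv, h8⟩ := exists_mem_notMem_of_card_lt_card (t := range (hN P))
    (((card_union_le _ {u ∈ range (hN P) | opn P s u = false}).trans
      (Nat.add_le_add_right h4 _)).trans_lt (by rw [card_range]; omega))
  rw [mem_union, not_or] at h8
  have o1 : opn P s v = true := eq_true_of_ne_false fun e => h8.2 (mem_filter.2 ⟨hv, e⟩)
  have o2 : ∀ j ∈ nbPl P nb s c, (ballX P s j).getD v [] ≠ [] := fun j hj => by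
    have e : v ∈ H j := by_contra fun e => h8.1
      (mem_biUnion.2 ⟨j, List.mem_toFinset.2 hj, mem_sdiff.2 ⟨hv, e⟩⟩)
    obtain ⟨-, w, e1, e2, e3, rfl⟩ := mem_filter.1 e
    exact ballX_new s j w (mem_range.1 e1) e3 e2 (mem_range.1 hv) o1
  have e : ∀ v, v ∈ ((nodes P).filter fun v => opn P s v &&
      (nbPl P nb s c).all fun j => !((ballX P s j).getD v []).isEmpty) ↔
      v < hN P ∧ opn P s v = true ∧ ∀ j ∈ nbPl P nb s c, (ballX P s j).getD v [] ≠ [] := by
    intro v
    simp only [List.mem_filter, mem_nodes, Bool.and_eq_true, List.all_eq_true, Bool.not_eq_true',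
      List.isEmpty_eq_false_iff]
  obtain ⟨u1, u2, u3⟩ := (e (hub P nb s c)).1
    (ecnt_head (List.ne_nil_of_mem ((e v).2 ⟨mem_range.1 hv, o1, o2⟩)))
  have e' : ∀ w, w ∈ ((wires P).filter fun w =>
      decide (hT P w = hub P nb s c) && decide (wl s w = 0)) ↔
      w < hW P ∧ hT P w = hub P nb s c ∧ wl s w = 0 := by
    intro w
    simp only [List.mem_filter, mem_wires, Bool.and_eq_true, decide_eq_true_eq]
  have h9 := free_ge h I u1
  have h0 := h.a_ge
  rw [h.q_eq] at h9
  obtain ⟨w, hw⟩ := card_pos.1 (Nat.pos_of_mul_pos_left (lt_of_lt_of_le (by omega) h9))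
  rw [mem_filter, mem_range] at hw
  exact ⟨u1, u2, u3, (e' (homeW P nb s c)).1 (ecnt_head (List.ne_nil_of_mem ((e' w).2 hw)))⟩

end Pool.Agent.Lib.MP_45faa6_lc.TR
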