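import Pool.Agent.Lib.MP_45faa6_lc.NL.EmbDef

/-!
A deterministic algorithm that joins the neighbours of a sparse graph by disjoint chains of wires.
Wire `w` has the tail `w / q` and the head `hH P w`. Labels: `0` free, `1` junk, `c + 2` live.
-/

set_option autoImplicit false

namespace Pool.Agent.Lib.MP_45faa6_lc.TR

open Finset Pool.Agent.Lib.MP_45faa6_lc.NL Pool.Agent.Lib.MP_acf5a6_lc
  Pool.Agent.Lib.Common.CookLevin

/-- The host: number of nodes `N`, ports `q`, growth factor `κ`, size factor `K`, list of heads. -/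
abbrev Hs : Type := Un × ℕ × ℕ × ℕ × List ℕ

/-- The state: labels of the wires, garbage flags of the nodes. -/
abbrev St : Type := List ℕ × List Bool

/-- The number of nodes. -/
def hN (P : Hs) : ℕ := P.1.n

/-- The number of ports. -/
def hq (P : Hs) : ℕ := P.2.1

/-- The growth factor. -/
def hk (P : Hs) : ℕ := P.2.2.1

/-- The size factor. -/
def hK (P : Hs) : ℕ := P.2.2.2.1

/-- The number of wires. -/
def hW (P : Hs) : ℕ := P.2.2.2.2.length

/-- The head of a wire. -/
def hH (P : Hs) (w : ℕ) : ℕ := P.2.2.2.2.getD w 0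

/-- The tail of a wire. -/
def hT (P : Hs) (w : ℕ) : ℕ := w / hq P

/-- The nodes. -/
def nodes (P : Hs) : List ℕ := urange P.1

/-- The wires. -/
def wires (P : Hs) : List ℕ := urange (ulen P.2.2.2.2)

/-- The label of a wire. -/
def wl (s : St) (w : ℕ) : ℕ := s.1.getD w 0

/-- The garbage flag of a node. -/
def ga (s : St) (u : ℕ) : Bool := s.2.getD u false

/-- The number of wires with tail `u` that are not free. -/
def used (P : Hs) (s : St) (u : ℕ) : ℕ :=
  ((wires P).filter fun w => decide (hT P w = u) && !decide (wl s w = 0)).length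

/-- Open nodes. -/
def opn (P : Hs) (s : St) (u : ℕ) : Bool := !ga s u && decide (1024 * used P s u ≤ hq P)

/-- Nodes at which a chain may start. -/
def stb (P : Hs) (s : St) (u : ℕ) : Bool := !ga s u && decide (32 * used P s u ≤ hq P)

/-- Some wire with tail `u` has the label `l`. -/
def hasL (P : Hs) (s : St) (u l : ℕ) : Bool :=
  !((wires P).all fun w => !(decide (hT P w = u) && decide (wl s w = l)))

/-- Empty chains, marked by the number of wires. -/
def tab0 (P : Hs) (s : St) (j : ℕ) : List (List ℕ) :=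
  (nodes P).map fun v => cond (stb P s v && hasL P s v (j + 2)) [hW P] []

/-- Free wires into `v` from reached nodes. -/
def ins (P : Hs) (s : St) (tab : List (List ℕ)) (v : ℕ) : List ℕ :=
  (wires P).filter fun w =>
    decide (hH P w = v) && decide (wl s w = 0) && !(tab.getD (hT P w) []).isEmpty

/-- One round of breadth-first search. -/
def tabNext (P : Hs) (s : St) (tab : List (List ℕ)) : List (List ℕ) :=
  (nodes P).map fun v => cond (tab.getD v []).isEmpty
    (cond (opn P s v && !(ins P s tab v).isEmpty)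
      ((ins P s tab v).headD 0 :: tab.getD (hT P ((ins P s tab v).headD 0)) []) [])
    (tab.getD v [])

/-- The ball is big. -/
def tBig (P : Hs) (tab : List (List ℕ)) : Bool := decide (hN P < hK P * tsize tab)

/-- Grow unless the ball is big or does not expand. -/
def tStep (P : Hs) (s : St) (tab : List (List ℕ)) : List (List ℕ) :=
  cond (tBig P tab || decide (tsize (tabNext P s tab) ≤ hk P * tsize tab)) tab (tabNext P s tab)

/-- The final ball around the wires of `j`. -/
def ball (P : Hs) (s : St) (j : ℕ) : List (List ℕ) := (tStep P s)^[P.1.n] (tab0 P s j)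

/-- The ball after one more round. -/
def ballX (P : Hs) (s : St) (j : ℕ) : List (List ℕ) := tabNext P s (ball P s j)

/-- Some wire has the label of `c`. -/
def placed (P : Hs) (s : St) (c : ℕ) : Bool := !((wires P).all fun w => !decide (wl s w = c + 2))

/-- Vertices of the small graph without wires. -/
def missing (P : Hs) (nb : List (List ℕ)) (s : St) : List ℕ :=
  (urange (ulen nb)).filter fun c => !placed P s c

/-- Placed neighbours of `c`. -/
def nbPl (P : Hs) (nb : List (List ℕ)) (s : St) (c : ℕ) : List ℕ :=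
  (nb.getD c []).filter fun j => placed P s j

/-- Placed neighbours whose ball is small. -/
def nbBad (P : Hs) (nb : List (List ℕ)) (s : St) (c : ℕ) : List ℕ :=
  (nbPl P nb s c).filter fun j => !tBig P (ball P s j)

/-- An open node in all the extended balls. -/
def hub (P : Hs) (nb : List (List ℕ)) (s : St) (c : ℕ) : ℕ :=
  ((nodes P).filter fun v => opn P s v &&
    (nbPl P nb s c).all fun j => !((ballX P s j).getD v []).isEmpty).headD 0

/-- A free wire at the hub. -/
def homeW (P : Hs) (nb : List (List ℕ)) (s : St) (c : ℕ) : ℕ :=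
  ((wires P).filter fun w => decide (hT P w = hub P nb s c) && decide (wl s w = 0)).headD 0

/-- Label the wires of `c`. -/
def place (P : Hs) (nb : List (List ℕ)) (s : St) (c : ℕ) : St :=
  ((wires P).map fun w => cond (decide (w = homeW P nb s c) ||
    !((nbPl P nb s c).all fun j => !memb ((ballX P s j).getD (hub P nb s c) []) w))
    (c + 2) (wl s w), s.2)

/-- Give up the wires of `j` and its ball. -/
def discard (P : Hs) (s : St) (j : ℕ) : St :=
  ((wires P).map fun w => cond (decide (wl s w = j + 2)) 1 (wl s w),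
    (nodes P).map fun v => ga s v || !((ball P s j).getD v []).isEmpty)

/-- One step of the main loop. -/
def eStep (P : Hs) (nb : List (List ℕ)) (s : St) : St :=
  cond (missing P nb s).isEmpty s
    (cond (nbBad P nb s ((missing P nb s).headD 0)).isEmpty
      (place P nb s ((missing P nb s).headD 0))
      (discard P s ((nbBad P nb s ((missing P nb s).headD 0)).headD 0)))

/-- The first state. -/
def eInit (P : Hs) : St := ((wires P).map fun _ => 0, (nodes P).map fun _ => false)

/-- The final state. -/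
def embed (P : Hs) (nb : List (List ℕ)) : St := (eStep P nb)^[2 * hW P + 1] (eInit P)

/-- The conditions on the host and on the small graph. -/
structure Ok (P : Hs) (nb : List (List ℕ)) (a l : ℕ) : Prop where
  pos : 0 < hN P
  q_eq : hq P = 1024 * a
  a_ge : 16 ≤ a
  W_eq : hW P = hN P * hq P
  head : ∀ w < hW P, hH P w < hN P
  k_ge : 2 ≤ hk P
  K_ge : 8 * (hk P + 2) ≤ hK P
  pow : hN P < hk P ^ l
  exp : ∀ X H : Finset ℕ, X ⊆ range (hN P) → H ⊆ range (hN P) → 8 * #H ≤ 7 * hN P →
    (∀ u ∈ X, 15 * hq P ≤ 16 * #{w ∈ range (hW P) | hT P w = u ∧ hH P w ∈ H}) → hK P * #X ≤ hN P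
  sym : SymAdj nb
  deg : ∀ c, (nb.getD c []).length ≤ 6
  big : 512 * (l + 2) * nb.length ≤ a * hN P

/-- A short chain of free wires from a tail of a wire of `j` to `v`; entries `≥ hW P` are marks. -/
structure GoodPath (P : Hs) (s : St) (j v l : ℕ) (p : List ℕ) : Prop where
  free : ∀ w ∈ p, w < hW P → wl s w = 0 ∧ stb P s (hT P w) = true
  inj : ∀ w ∈ p, ∀ w' ∈ p, w < hW P → w' < hW P → hT P w = hT P w' → w = w'
  one : ∀ w ∈ p, ∀ w' ∈ p, w < hW P → w' < hW P → opn P s (hT P w) = false →
    opn P s (hT P w') = false → w = w'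
  conn : ∀ w ∈ p, w < hW P → ∃ w' ∈ p, w' < hW P ∧ hH P w' = v ∧ Relation.ReflTransGen
    (fun x y => x ∈ p ∧ y ∈ p ∧ x < hW P ∧ y < hW P ∧ hT P y = hH P x) w w'
  touch : ∃ x < hW P, wl s x = j + 2 ∧ (hT P x = v ∨ ∃ w ∈ p, w < hW P ∧ hT P w = hT P x)
  len : p.length ≤ l

/-- The garbage nodes. -/
def sG (P : Hs) (s : St) : Finset ℕ := {u ∈ range (hN P) | ga s u = true}

/-- The exhausted nodes. -/
def sE (P : Hs) (s : St) : Finset ℕ := {u ∈ range (hN P) | hq P < 32 * used P s u}

/-- Open heads of free wires with garbage tails. -/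
def sF (P : Hs) (s : St) : Finset ℕ := {v ∈ range (hN P) | opn P s v = true ∧
  ∃ w ∈ range (hW P), ga s (hT P w) = true ∧ wl s w = 0 ∧ hH P w = v}

/-- The wires with a given label. -/
def sL (P : Hs) (s : St) (l : ℕ) : Finset ℕ := {w ∈ range (hW P) | wl s w = l}

/-- The reached nodes of a table. -/
def sB (P : Hs) (tab : List (List ℕ)) : Finset ℕ := {v ∈ range (hN P) | tab.getD v [] ≠ []}

/-- Two wires with the label of `c` that meet. -/
def Meet (P : Hs) (s : St) (c x y : ℕ) : Prop :=
  x < hW P ∧ y < hW P ∧ wl s x = c + 2 ∧ wl s y = c + 2 ∧ (hT P y = hT P x ∨ hT P y = hH P x)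

/-- The invariants that do not bound the garbage; `Hm` is the set of all home wires so far. -/
structure Inv0 (P : Hs) (nb : List (List ℕ)) (a l : ℕ) (s : St) (Hm : Finset ℕ) : Prop where
  lt : ∀ w, wl s w < nb.length + 2
  small : ∀ c, #(sL P s (c + 2)) ≤ 7 * (l + 2)
  conn : ∀ c, ∀ x < hW P, ∀ y < hW P, wl s x = c + 2 → wl s y = c + 2 →
    Relation.EqvGen (Meet P s c) x y
  edge : ∀ c, ∀ c' ∈ nb.getD c [], c ≠ c' → placed P s c = true → placed P s c' = true →
    ∃ x < hW P, ∃ y < hW P, wl s x = c + 2 ∧ wl s y = c' + 2 ∧ hT P x = hT P y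
  cap : ∀ u, 16 * used P s u ≤ hq P
  junk : ∀ w < hW P, wl s w = 1 → ga s (hT P w) = true ∨ hq P < 32 * used P s (hT P w)
  bd : #(sF P s) ≤ hk P * #(sG P s)
  hm1 : ∀ w ∈ Hm, w < hW P ∧ wl s w ≠ 0
  hm2 : ∀ u, #{w ∈ Hm | hT P w = u} ≤ a + 1
  hm3 : ∀ w ∈ Hm, ∀ w' ∈ Hm, 2 ≤ wl s w → wl s w = wl s w' → w = w'
  hm4 : ∑ u ∈ range (hN P), (used P s u - (a + 7)) ≤ 6 * #Hm

/-- The potential. -/
def pot (P : Hs) (s : St) : ℕ := #{w ∈ range (hW P) | wl s w ≠ 0} + #(sL P s 1)

end Pool.Agent.Lib.MP_45faa6_lc.TR
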