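import Pool.Agent.Lib.MP_45faa6_lc.TR.ECnt

/-!
The step that gives up a vertex, and the first state.
-/

set_option autoImplicit false

namespace Pool.Agent.Lib.MP_45faa6_lc.TR

open Finset Pool.Agent.Lib.MP_45faa6_lc.NL Pool.Agent.Lib.MP_acf5a6_lc
  Pool.Agent.Lib.Common.CookLevin

variable {P : Hs} {nb : List (List ℕ)} {a l : ℕ} {s : St} {Hm : Finset ℕ}

/-- Sketch: `used` and the free wires do not change; labels `j + 2` become `1`; their tails are in
the ball (`ball_start`), garbage or exhausted; the ball is disjoint from the old garbage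
(`ball_stb`), so `#sG' = #sG + #ball`; `sF' ⊆ sF ∪` the set of `ball_stuck`; `few_of`. -/
theorem discard_spec (h : Ok P nb a l) (I : Inv0 P nb a l s Hm) (few : hK P * #(sG P s) ≤ hN P)
    {j : ℕ} (hj : placed P s j = true) (hb : tBig P (ball P s j) = false) :
    Inv0 P nb a l (discard P s j) Hm ∧ hK P * #(sG P (discard P s j)) ≤ hN P ∧
      pot P s < pot P (discard P s j) := by
  have g : ∀ w, wl (discard P s j) w =
      if w < hW P then (if wl s w = j + 2 then 1 else wl s w) else 0 := fun w => by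
    rw [wl, discard, wires_getD]
    by_cases h1 : wl s w = j + 2 <;> simp [h1]
  have gg : ∀ v, ga (discard P s j) v = true ↔
      v < hN P ∧ (ga s v = true ∨ (ball P s j).getD v [] ≠ []) := fun v => by
    rw [ga, discard, nodes_getD]
    by_cases h1 : v < hN P <;> simp [h1]
  generalize discard P s j = s' at g gg ⊢
  have g0 : ∀ w < hW P, (wl s' w = 0 ↔ wl s w = 0) := fun w hw => by
    rw [g, if_pos hw]
    by_cases e : wl s w = j + 2 <;> simp [e]
  have g1 : ∀ w < hW P, (wl s' w = 1 ↔ wl s w = 1 ∨ wl s w = j + 2) := fun w hw => by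
    rw [g, if_pos hw]
    by_cases e : wl s w = j + 2 <;> simp [e]
  have g2 : ∀ w < hW P, ∀ c, (wl s' w = c + 2 ↔ wl s w = c + 2 ∧ c ≠ j) := fun w hw c => by
    rw [g, if_pos hw]
    split_ifs <;> omega
  have us : ∀ u, used P s' u = used P s u := fun u => by
    rw [used_eq, used_eq]
    exact congrArg _ (filter_congr fun w hw => by rw [Ne, g0 w (mem_range.1 hw)])
  have pl : ∀ c, placed P s' c = true → placed P s c = true ∧ c ≠ j := fun c hc => by
    obtain ⟨w, hw, e⟩ := (placed_iff s' c).1 hc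
    exact ⟨(placed_iff s c).2 ⟨w, hw, ((g2 w hw c).1 e).1⟩, ((g2 w hw c).1 e).2⟩
  have cG : #(sG P s') = #(sG P s) + #(sB P (ball P s j)) := by
    rw [← card_union_of_disjoint (disjoint_left.2 fun v h1 h2 => by
      have e := ((stb_iff s v).1 (ball_stb s j v (mem_filter.1 h2).2).2).1
      rw [(mem_filter.1 h1).2] at e
      exact Bool.noConfusion e)]
    congr 1
    ext v
    simp only [sG, sB, mem_union, mem_filter, mem_range, gg, and_self_left, and_or_left]
  have I' : Inv0 P nb a l s' Hm := by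
    refine ⟨fun w => ?_, fun c => (card_le_card fun w hw => ?_).trans (I.small c),
      fun c x hx y hy h1 h2 => ?_, fun c c' hc hne h1 h2 => ?_, fun u => us u ▸ I.cap u,
      fun w hw h1 => ?_, ?_, fun w hw => ?_, I.hm2, fun w hw w' hw' h1 h2 => ?_, ?_⟩
    · have := I.lt w
      rw [g]
      split_ifs <;> omega
    · obtain ⟨h1, h2⟩ := mem_filter.1 hw
      exact mem_filter.2 ⟨h1, ((g2 w (mem_range.1 h1) c).1 h2).1⟩
    · obtain ⟨h1, hc⟩ := (g2 x hx c).1 h1
      exact (I.conn c x hx y hy h1 ((g2 y hy c).1 h2).1).mono fun u v k =>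
        ⟨k.1, k.2.1, (g2 u k.1 c).2 ⟨k.2.2.1, hc⟩, (g2 v k.2.1 c).2 ⟨k.2.2.2.1, hc⟩, k.2.2.2.2⟩
    · obtain ⟨x, hx, y, hy, e1, e2, e3⟩ := I.edge c c' hc hne (pl c h1).1 (pl c' h2).1
      exact ⟨x, hx, y, hy, (g2 x hx c).2 ⟨e1, (pl c h1).2⟩, (g2 y hy c').2 ⟨e2, (pl c' h2).2⟩, e3⟩
    · rw [us, gg]
      have ht := h.tail_lt hw
      rcases (g1 w hw).1 h1 with e | e
      · exact (I.junk w hw e).imp_left fun k => ⟨ht, Or.inl k⟩
      · by_cases k : stb P s (hT P w) = true
        · exact Or.inl ⟨ht, Or.inr (ball_start s j _ ht k ⟨w, hw, rfl, e⟩)⟩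
        · rw [stb_iff, not_and_or, Bool.not_eq_false, not_le] at k
          exact k.imp_left fun k => ⟨ht, Or.inl k⟩
    · rw [cG, mul_add]
      refine le_trans ((card_le_card fun v hv => ?_).trans (card_union_le _ _))
        (add_le_add I.bd (ball_stuck s j h hb))
      obtain ⟨h1, h2, w, hw, e1, e2, e3⟩ := mem_filter.1 hv
      have h3 : opn P s v = true := by
        obtain ⟨k1, k2⟩ := (opn_iff s' v).1 h2
        refine (opn_iff s v).2 ⟨Bool.eq_false_iff.2 fun k => ?_, us v ▸ k2⟩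
        rw [(gg v).2 ⟨mem_range.1 h1, Or.inl k⟩] at k1
        exact Bool.noConfusion k1
      have e4 := (g0 w (mem_range.1 hw)).1 e2
      rcases ((gg _).1 e1).2 with k | k
      · exact mem_union_left _ (mem_filter.2 ⟨h1, h3, w, hw, k, e4, e3⟩)
      · exact mem_union_right _ (mem_filter.2 ⟨h1, h3, w, hw, k, e4, e3⟩)
    · exact ⟨(I.hm1 w hw).1, fun e => (I.hm1 w hw).2 ((g0 w (I.hm1 w hw).1).1 e)⟩
    · obtain ⟨c, hc⟩ := Nat.exists_eq_add_of_le' h1
      have e1 := ((g2 w (I.hm1 w hw).1 c).1 hc).1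
      have e2 := ((g2 w' (I.hm1 w' hw').1 c).1 (h2 ▸ hc)).1
      exact I.hm3 w hw w' hw' (by omega) (e1.trans e2.symm)
    · simp only [us]
      exact I.hm4
  refine ⟨I', few_of h I' ?_, ?_⟩
  · have hb' : hK P * tsize (ball P s j) ≤ hN P := by simpa [tBig] using hb
    rw [ball_tsize] at hb'
    rw [cG, mul_add]
    omega
  · obtain ⟨u, hu, e⟩ := (placed_iff s j).1 hj
    refine add_lt_add_of_le_of_lt (card_le_card fun w hw => ?_)
      (card_lt_card ⟨fun w hw => ?_, fun k => ?_⟩)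
    · obtain ⟨h1, h2⟩ := mem_filter.1 hw
      exact mem_filter.2 ⟨h1, fun k => h2 ((g0 w (mem_range.1 h1)).1 k)⟩
    · obtain ⟨h1, h2⟩ := mem_filter.1 hw
      exact mem_filter.2 ⟨h1, (g1 w (mem_range.1 h1)).2 (Or.inl h2)⟩
    · have := (mem_filter.1 (k (mem_filter.2 ⟨mem_range.2 hu, (g1 u hu).2 (Or.inr e)⟩))).2
      omega

theorem init_spec (h : Ok P nb a l) :
    Inv0 P nb a l (eInit P) ∅ ∧ hK P * #(sG P (eInit P)) ≤ hN P := by
  have g : ∀ w, wl (eInit P) w = 0 := fun w => by rw [wl, eInit, wires_getD, ite_self]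
  have gg : ∀ v, ga (eInit P) v = false := fun v => by rw [ga, eInit, nodes_getD, ite_self]
  have _ := h.pos
  generalize eInit P = s at g gg ⊢
  have us : ∀ u, used P s u = 0 := fun u => by simp [used_eq, g]
  refine ⟨⟨fun w => ?_, fun c => by simp [sL, g], fun c x _ _ _ e => ?_, fun c _ _ _ e => ?_,
    fun u => by simp [us], fun w _ e => ?_, by simp [sF, gg], by simp, by simp, by simp,
    by simp [us]⟩, by simp [sG, gg]⟩
  · rw [g]
    omega
  · rw [g] at e
    omega
  · obtain ⟨w, -, e⟩ := (placed_iff s c).1 e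
    rw [g] at e
    omega
  · rw [g] at e
    omega

end Pool.Agent.Lib.MP_45faa6_lc.TR
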