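import Pool.Agent.Lib.MP_45faa6_lc.TR.EDef
import Pool.Agent.Lib.MP_45faa6_lc.NL.EmbPT

/-!
The algorithm runs in polynomial time.
-/

set_option autoImplicit false

namespace Pool.Agent.Lib.MP_45faa6_lc.TR

open Pool.Agent.Lib.MP_45faa6_lc.NL Pool.Agent.Lib.MP_acf5a6_lc Pool.Agent.Lib.Common.CookLevin

variable {α : Type} [N487b59b3 α]

@[fun_prop] theorem ept_hN {P : α → Hs}
    (hP : PT P) :
    PT fun x => hN (P x) := by
  unfold hN; fun_prop

@[fun_prop] theorem ept_hq {P : α → Hs}
    (hP : PT P) :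
    PT fun x => hq (P x) := by
  unfold hq; fun_prop

@[fun_prop] theorem ept_hk {P : α → Hs}
    (hP : PT P) :
    PT fun x => hk (P x) := by
  unfold hk; fun_prop

@[fun_prop] theorem ept_hK {P : α → Hs}
    (hP : PT P) :
    PT fun x => hK (P x) := by
  unfold hK; fun_prop

@[fun_prop] theorem ept_hW {P : α → Hs}
    (hP : PT P) :
    PT fun x => hW (P x) := by
  unfold hW; fun_prop

@[fun_prop] theorem ept_hH {P : α → Hs} {w : α → ℕ}
    (hP : PT P) (hw : PT w) :
    PT fun x => hH (P x) (w x) := by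
  unfold hH; fun_prop

@[fun_prop] theorem ept_hT {P : α → Hs} {w : α → ℕ}
    (hP : PT P) (hw : PT w) :
    PT fun x => hT (P x) (w x) := by
  unfold hT; fun_prop

@[fun_prop] theorem ept_nodes {P : α → Hs}
    (hP : PT P) :
    PT fun x => nodes (P x) := by
  unfold nodes; fun_prop

@[fun_prop] theorem ept_wires {P : α → Hs}
    (hP : PT P) :
    PT fun x => wires (P x) := by
  unfold wires; fun_prop

@[fun_prop] theorem ept_wl {s : α → St} {w : α → ℕ}
    (hs : PT s) (hw : PT w) :
    PT fun x => wl (s x) (w x) := by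
  unfold wl; fun_prop

@[fun_prop] theorem ept_ga {s : α → St} {u : α → ℕ}
    (hs : PT s) (hu : PT u) :
    PT fun x => ga (s x) (u x) := by
  unfold ga; fun_prop

@[fun_prop] theorem ept_used {P : α → Hs} {s : α → St} {u : α → ℕ}
    (hP : PT P) (hs : PT s) (hu : PT u) :
    PT fun x => used (P x) (s x) (u x) := by
  unfold used; fun_prop

@[fun_prop] theorem ept_opn {P : α → Hs} {s : α → St} {u : α → ℕ}
    (hP : PT P) (hs : PT s) (hu : PT u) :
    PT fun x => opn (P x) (s x) (u x) := by
  unfold opn; fun_prop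

@[fun_prop] theorem ept_stb {P : α → Hs} {s : α → St} {u : α → ℕ}
    (hP : PT P) (hs : PT s) (hu : PT u) :
    PT fun x => stb (P x) (s x) (u x) := by
  unfold stb; fun_prop

@[fun_prop] theorem ept_hasL {P : α → Hs} {s : α → St} {u : α → ℕ} {l : α → ℕ}
    (hP : PT P) (hs : PT s) (hu : PT u) (hl : PT l) :
    PT fun x => hasL (P x) (s x) (u x) (l x) := by
  unfold hasL; fun_prop

@[fun_prop] theorem ept_tab0 {P : α → Hs} {s : α → St} {j : α → ℕ}
    (hP : PT P) (hs : PT s) (hj : PT j) :
    PT fun x => tab0 (P x) (s x) (j x) := by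
  unfold tab0; fun_prop

@[fun_prop] theorem ept_ins {P : α → Hs} {s : α → St} {tab : α → List (List ℕ)} {v : α → ℕ}
    (hP : PT P) (hs : PT s) (htab : PT tab) (hv : PT v) :
    PT fun x => ins (P x) (s x) (tab x) (v x) := by
  unfold ins; fun_prop

@[fun_prop] theorem ept_tabNext {P : α → Hs} {s : α → St} {tab : α → List (List ℕ)}
    (hP : PT P) (hs : PT s) (htab : PT tab) :
    PT fun x => tabNext (P x) (s x) (tab x) := by
  unfold tabNext; fun_prop

@[fun_prop] theorem ept_tBig {P : α → Hs} {tab : α → List (List ℕ)}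
    (hP : PT P) (htab : PT tab) :
    PT fun x => tBig (P x) (tab x) := by
  unfold tBig; fun_prop

@[fun_prop] theorem ept_tStep {P : α → Hs} {s : α → St} {tab : α → List (List ℕ)}
    (hP : PT P) (hs : PT s) (htab : PT tab) :
    PT fun x => tStep (P x) (s x) (tab x) := by
  unfold tStep; fun_prop

theorem ept_lenN {β : Type} (P : Hs) (f : ℕ → β) : ((nodes P).map f).length ≤ hN P :=
  ((List.length_map _).trans List.length_range).le

theorem ept_lenW {β : Type} (P : Hs) (f : ℕ → β) : ((wires P).map f).length ≤ hW P :=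
  ((List.length_map _).trans List.length_range).le

theorem ept_head {l : List ℕ} {f : ℕ → Bool} {n : ℕ} (h : l = List.range n) :
    (l.filter f).headD 0 ≤ n := by
  rw [List.headD_eq_getD, h]
  exact embpt_getD (p := fun x => x ≤ n)
    (fun x hx => (List.mem_range.1 (List.mem_of_mem_filter hx)).le) (Nat.zero_le _) 0

theorem ept_ball_aux (P : Hs) (s : St) (j i : ℕ) :
    ((tStep P s)^[i] (tab0 P s j)).length ≤ hN P ∧
      ∀ p ∈ (tStep P s)^[i] (tab0 P s j), sz p ≤ (i + 1) * (2 * hW P + 1) := by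
  induction i with
  | zero =>
    refine ⟨ept_lenN _ _, fun p hp => ?_⟩
    obtain ⟨v, -, rfl⟩ := List.mem_map.1 hp
    have := sz_nat_le (hW P)
    rw [Bool.cond_eq_ite]
    split_ifs <;> simp
    omega
  | succ i ih =>
    rw [Function.iterate_succ_apply']
    generalize (tStep P s)^[i] (tab0 P s j) = t at ih
    have h0 := embpt_getD (p := fun p => sz p ≤ (i + 1) * (2 * hW P + 1)) (d := []) ih.2
      (Nat.zero_le _)
    unfold tStep
    rw [Bool.cond_eq_ite, add_mul (i + 1), one_mul]
    split_ifs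
    · exact ⟨ih.1, fun p hp => (ih.2 p hp).trans (Nat.le_add_right _ _)⟩
    · refine ⟨ept_lenN _ _, fun p hp => ?_⟩
      obtain ⟨v, -, rfl⟩ := List.mem_map.1 hp
      have h1 : sz ((ins P s t v).headD 0) ≤ hW P := (sz_nat_le _).trans (ept_head rfl)
      have := h0 (hT P ((ins P s t v).headD 0))
      rw [Bool.cond_eq_ite, Bool.cond_eq_ite]
      split_ifs
      · rw [sz_cons]
        omega
      · exact Nat.zero_le _
      · exact (h0 v).trans (Nat.le_add_right _ _)

theorem ept_pbN {P : α → Hs} (hP : PT P) : PB fun x => hN (P x) := PB_un (PT.fst hP)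

theorem ept_pbW {P : α → Hs} (hP : PT P) : PB fun x => hW (P x) :=
  PB_un (u := fun x => ulen (P x).2.2.2.2) (by fun_prop)

@[fun_prop] theorem ept_ball {P : α → Hs} {s : α → St} {j : α → ℕ} (hP : PT P) (hs : PT s)
    (hj : PT j) : PT fun x => ball (P x) (s x) (j x) := by
  have h1 := ept_pbN hP
  refine (PT.iterP (g := fun x => tStep (P x) (s x)) (h := fun x => tab0 (P x) (s x) (j x))
    (c := fun x => (P x).1) (by fun_prop) (by fun_prop) (by fun_prop)
    (h1.mul (((PB.const 2).mul ((h1.add (PB.const 1)).mul (((PB.const 2).mul (ept_pbW hP)).add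
      (PB.const 1)))).add (PB.const 1))) fun a i hi => ?_).of_eq fun a => by rw [sz_un]; rfl
  rw [sz_un] at hi
  exact embpt_sz (ept_ball_aux _ _ _ i).1 fun p hp => ((ept_ball_aux _ _ _ i).2 p hp).trans
    (Nat.mul_le_mul_right _ (Nat.succ_le_succ hi))

@[fun_prop] theorem ept_ballX {P : α → Hs} {s : α → St} {j : α → ℕ}
    (hP : PT P) (hs : PT s) (hj : PT j) :
    PT fun x => ballX (P x) (s x) (j x) := by
  unfold ballX; fun_prop

@[fun_prop] theorem ept_placed {P : α → Hs} {s : α → St} {c : α → ℕ}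
    (hP : PT P) (hs : PT s) (hc : PT c) :
    PT fun x => placed (P x) (s x) (c x) := by
  unfold placed; fun_prop

@[fun_prop] theorem ept_missing {P : α → Hs} {nb : α → List (List ℕ)} {s : α → St}
    (hP : PT P) (hnb : PT nb) (hs : PT s) :
    PT fun x => missing (P x) (nb x) (s x) := by
  unfold missing; fun_prop

@[fun_prop] theorem ept_nbPl {P : α → Hs} {nb : α → List (List ℕ)} {s : α → St} {c : α → ℕ}
    (hP : PT P) (hnb : PT nb) (hs : PT s) (hc : PT c) :
    PT fun x => nbPl (P x) (nb x) (s x) (c x) := by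
  unfold nbPl; fun_prop

@[fun_prop] theorem ept_nbBad {P : α → Hs} {nb : α → List (List ℕ)} {s : α → St} {c : α → ℕ}
    (hP : PT P) (hnb : PT nb) (hs : PT s) (hc : PT c) :
    PT fun x => nbBad (P x) (nb x) (s x) (c x) := by
  unfold nbBad; fun_prop

@[fun_prop] theorem ept_hub {P : α → Hs} {nb : α → List (List ℕ)} {s : α → St} {c : α → ℕ}
    (hP : PT P) (hnb : PT nb) (hs : PT s) (hc : PT c) :
    PT fun x => hub (P x) (nb x) (s x) (c x) := by
  unfold hub; fun_prop

@[fun_prop] theorem ept_homeW {P : α → Hs} {nb : α → List (List ℕ)} {s : α → St} {c : α → ℕ}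
    (hP : PT P) (hnb : PT nb) (hs : PT s) (hc : PT c) :
    PT fun x => homeW (P x) (nb x) (s x) (c x) := by
  unfold homeW; fun_prop

@[fun_prop] theorem ept_place {P : α → Hs} {nb : α → List (List ℕ)} {s : α → St} {c : α → ℕ}
    (hP : PT P) (hnb : PT nb) (hs : PT s) (hc : PT c) :
    PT fun x => place (P x) (nb x) (s x) (c x) := by
  unfold place; fun_prop

@[fun_prop] theorem ept_discard {P : α → Hs} {s : α → St} {j : α → ℕ}
    (hP : PT P) (hs : PT s) (hj : PT j) :
    PT fun x => discard (P x) (s x) (j x) := by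
  unfold discard; fun_prop

@[fun_prop] theorem ept_eStep {P : α → Hs} {nb : α → List (List ℕ)} {s : α → St}
    (hP : PT P) (hnb : PT nb) (hs : PT s) :
    PT fun x => eStep (P x) (nb x) (s x) := by
  unfold eStep; fun_prop

@[fun_prop] theorem ept_eInit {P : α → Hs}
    (hP : PT P) :
    PT fun x => eInit (P x) := by
  unfold eInit; fun_prop

theorem ept_embed_aux (P : Hs) (nb : List (List ℕ)) (i : ℕ) :
    (((eStep P nb)^[i] (eInit P)).1.length ≤ hW P ∧
      ∀ x ∈ ((eStep P nb)^[i] (eInit P)).1, x ≤ nb.length + 2) ∧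
      ((eStep P nb)^[i] (eInit P)).2.length ≤ hN P := by
  induction i with
  | zero =>
    refine ⟨⟨ept_lenW _ _, fun p hp => ?_⟩, ept_lenN _ _⟩
    obtain ⟨v, -, rfl⟩ := List.mem_map.1 hp
    exact Nat.zero_le _
  | succ i ih =>
    rw [Function.iterate_succ_apply']
    generalize (eStep P nb)^[i] (eInit P) = t at ih
    have h0 : ∀ v, wl t v ≤ nb.length + 2 :=
      embpt_getD (p := fun x => x ≤ nb.length + 2) (d := 0) ih.1.2 (Nat.zero_le _)
    have h1 : (missing P nb t).headD 0 ≤ nb.length := ept_head rfl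
    unfold eStep
    rw [Bool.cond_eq_ite, Bool.cond_eq_ite]
    split_ifs
    · exact ih
    all_goals
      refine ⟨⟨ept_lenW _ _, fun p hp => ?_⟩, by first | exact ept_lenN _ _ | exact ih.2⟩
      obtain ⟨v, -, rfl⟩ := List.mem_map.1 hp
      have := h0 v
      rw [Bool.cond_eq_ite]
      split_ifs <;> omega

/-- The state always has at most `hW P` labels `≤ nb.length + 2` and at most `hN P` flags. -/
@[fun_prop] theorem embed_PT {P : α → Hs} {nb : α → List (List ℕ)} (hP : PT P) (hn : PT nb) :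
    PT fun x => embed (P x) (nb x) := by
  refine (PT.iterP (g := fun x => eStep (P x) (nb x)) (h := fun x => eInit (P x))
    (c := fun x => ((Un.mk 2).mul (ulen (P x).2.2.2.2)).add ⟨1⟩) (by fun_prop) (by fun_prop)
    (by fun_prop)
    ((((PB.const 2).mul ((ept_pbW hP).mul (((PB.const 2).mul ((PB_un (PT.ulen' hn)).add
      (PB.const 2))).add (PB.const 1)))).add (PB.const 1)).add ((ept_pbN hP).mul (PB.const 3)))
    fun a i _ => ?_).of_eq fun a => by rw [sz_un]; rfl
  obtain ⟨⟨h1, h2⟩, h3⟩ := ept_embed_aux (P a) (nb a) i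
  generalize (eStep (P a) (nb a))^[i] (eInit (P a)) = t at h1 h2 h3
  obtain ⟨t1, t2⟩ := t
  rw [sz_pair]
  exact Nat.add_le_add (Nat.succ_le_succ (Nat.mul_le_mul_left 2
    (embpt_sz h1 fun x hx => (sz_nat_le x).trans (h2 x hx))))
    (embpt_sz (c := 1) h3 fun x _ => (sz_bool x).le)

end Pool.Agent.Lib.MP_45faa6_lc.TR
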