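import Pool.Agent.Lib.MP_45faa6_lc.TR.ECnt

/-!
The step that places a vertex.
-/

set_option autoImplicit false

namespace Pool.Agent.Lib.MP_45faa6_lc.TR

open Finset Pool.Agent.Lib.MP_45faa6_lc.NL Pool.Agent.Lib.MP_acf5a6_lc
  Pool.Agent.Lib.Common.CookLevin

variable {P : Hs} {nb : List (List ℕ)} {a l : ℕ} {s : St} {Hm : Finset ℕ}

theorem epla_wl (c w : ℕ) : wl (place P nb s c) w = if w < hW P then
    (if w = homeW P nb s c ∨ ∃ j ∈ nbPl P nb s c, w ∈ (ballX P s j).getD (hub P nb s c) []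
      then c + 2 else wl s w) else 0 := by
  rw [wl, place, wires_getD, cond_eq_ite]
  congr 2
  simp only [Bool.or_eq_true, decide_eq_true_eq, Bool.not_eq_true', List.all_eq_false,
    Bool.not_eq_false, memb_iff]

/-- Sketch: `hub_spec`, `ballX_path`. The new wires `Z` (home wire and chains) are free, have tails
with `stb`, at most seven per tail (`inj`), at most six of them have a tail that is not open
(`one`), at most `1 + 6 (l + 2)` in all. So `used' u = used u + #{w ∈ Z | tail = u}`; `cap` from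
`q = 1024 a`; `opn' ⊆ opn`, free' ⊆ free, garbage unchanged (`bd`); `hm2` from `hm1` and
`used hub ≤ a`; `hm4`: open nodes end with `used ≤ a + 7`. -/
theorem place_spec (h : Ok P nb a l) (I : Inv0 P nb a l s Hm) (few : hK P * #(sG P s) ≤ hN P)
    {c : ℕ} (hc : c < nb.length) (hp : ¬placed P s c = true)
    (hb : ∀ j ∈ nbPl P nb s c, tBig P (ball P s j) = true) :
    Inv0 P nb a l (place P nb s c) (insert (homeW P nb s c) Hm) ∧
      hK P * #(sG P (place P nb s c)) ≤ hN P ∧ pot P s < pot P (place P nb s c) := by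
  obtain ⟨u1, u2, u3, w1, w2, w3⟩ := hub_spec h I few hb
  have g := epla_wl (P := P) (nb := nb) (s := s) c
  have gg : ∀ v, ga (place P nb s c) v = ga s v := fun _ => rfl
  generalize place P nb s c = s' at g gg ⊢
  generalize homeW P nb s c = z at g w1 w2 w3 ⊢
  generalize hub P nb s c = u at g u1 u2 u3 w2
  have gp := fun j hj => ballX_path s j h u (u3 j hj)
  have hq := h.q_eq
  have ha := h.a_ge
  have uo := (opn_iff s u).1 u2
  obtain ⟨B, hB⟩ : ∃ B : Finset ℕ, ∀ w, w ∈ B ↔
      w < hW P ∧ ∃ j ∈ nbPl P nb s c, w ∈ (ballX P s j).getD u [] :=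
    ⟨{w ∈ range (hW P) | ∃ j ∈ nbPl P nb s c, w ∈ (ballX P s j).getD u []}, fun w => by
      rw [mem_filter, mem_range]⟩
  have cnt : ∀ (S : Finset ℕ) (m : ℕ), S ⊆ B → (∀ j ∈ nbPl P nb s c,
      #{w ∈ S | w ∈ (ballX P s j).getD u []} ≤ m) → #S ≤ 6 * m := by
    intro S m h1 h2
    have h3 : #(nbPl P nb s c).toFinset ≤ 6 :=
      (List.toFinset_card_le _).trans ((List.length_filter_le _ _).trans (h.deg c))
    refine (card_le_card fun w hw => ?_).trans ((card_biUnion_le_card_mul _ _ _ fun j hj =>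
      h2 j (List.mem_toFinset.1 hj)).trans (Nat.mul_le_mul_right _ h3))
    obtain ⟨-, j, hj, e⟩ := (hB w).1 (h1 hw)
    exact mem_biUnion.2 ⟨j, List.mem_toFinset.2 hj, mem_filter.2 ⟨hw, e⟩⟩
  have fr : ∀ w ∈ insert z B, w < hW P ∧ wl s w = 0 ∧ 32 * used P s (hT P w) ≤ TR.hq P := by
    intro w hw
    rcases mem_insert.1 hw with rfl | hw
    · exact ⟨w1, w3, by rw [w2]; omega⟩
    · obtain ⟨h1, j, hj, e⟩ := (hB w).1 hw
      exact ⟨h1, ((gp j hj).free w e h1).1, ((stb_iff s _).1 ((gp j hj).free w e h1).2).2⟩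
  have g1 : ∀ w ∈ insert z B, wl s' w = c + 2 := fun w hw => by
    rw [g, if_pos (fr w hw).1, if_pos ((mem_insert.1 hw).imp_right fun e => ((hB w).1 e).2)]
  have g2 : ∀ w < hW P, w ∉ insert z B → wl s' w = wl s w := fun w h1 h2 => by
    rw [g, if_pos h1, if_neg fun e => h2 (mem_insert.2 (e.imp_right fun e => (hB w).2 ⟨h1, e⟩))]
  have nc : ∀ w < hW P, wl s w ≠ c + 2 := fun w hw e => hp ((placed_iff s c).2 ⟨w, hw, e⟩)
  have gc : ∀ w < hW P, wl s' w = c + 2 → w ∈ insert z B := fun w hw e =>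
    by_contra fun h1 => nc w hw ((g2 w hw h1).symm.trans e)
  have up : ∀ w < hW P, wl s w ≠ 0 → wl s' w = wl s w := fun w hw e =>
    g2 w hw fun h1 => e (fr w h1).2.1
  have dn : ∀ w < hW P, wl s' w ≠ c + 2 → wl s' w = wl s w := fun w hw e =>
    g2 w hw fun h1 => e (g1 w h1)
  have upd : ∀ w < hW P, ∀ d, wl s w = d + 2 → wl s' w = d + 2 := fun w hw d e =>
    (up w hw (by omega)).trans e
  have dnd : ∀ w < hW P, ∀ d, d ≠ c → wl s' w = d + 2 → wl s w = d + 2 := fun w hw d hd e =>
    (dn w hw (by omega)).symm.trans e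
  have pl : ∀ d, d ≠ c → placed P s' d = true → placed P s d = true := fun d hd e => by
    obtain ⟨w, hw, e⟩ := (placed_iff s' d).1 e
    exact (placed_iff s d).2 ⟨w, hw, dnd w hw d hd e⟩
  have us : ∀ v, used P s' v = used P s v + #{w ∈ insert z B | hT P w = v} := fun v => by
    rw [used_eq, used_eq, ← card_union_of_disjoint (disjoint_left.2 fun w h1 h2 =>
      (mem_filter.1 h1).2.2 (fr w (mem_filter.1 h2).1).2.1)]
    congr 1
    ext w
    simp only [mem_union, mem_filter, mem_range]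
    by_cases hw : w ∈ insert z B
    · have := fr w hw
      have := g1 w hw
      simp only [hw, true_and]
      omega
    · simp only [hw, false_and, or_false]
      exact and_congr_right fun h1 => by rw [g2 w h1 hw]
  have zt : ∀ v, #{w ∈ insert z B | hT P w = v} ≤ 7 := fun v => by
    have h1 := cnt {w ∈ B | hT P w = v} 1 (filter_subset _ _) fun j hj =>
      card_le_one.2 fun x hx y hy => by
        simp only [mem_filter] at hx hy
        exact (gp j hj).inj x hx.2 y hy.2 ((hB x).1 hx.1.1).1 ((hB y).1 hy.1.1).1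
          (hx.1.2.trans hy.1.2.symm)
    have h2 := card_insert_le z {w ∈ B | hT P w = v}
    rw [filter_insert]
    split_ifs <;> omega
  have zn : #{w ∈ insert z B | opn P s (hT P w) = false} ≤ 6 := by
    rw [filter_insert, if_neg (by rw [w2, u2]; exact Bool.noConfusion)]
    exact cnt _ 1 (filter_subset _ _) fun j hj => card_le_one.2 fun x hx y hy => by
      simp only [mem_filter] at hx hy
      exact (gp j hj).one x hx.2 y hy.2 ((hB x).1 hx.1.1).1 ((hB y).1 hy.1.1).1 hx.1.2 hy.1.2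
  have eG : sG P s' = sG P s := by simp only [sG, gg]
  have gz := g1 z (mem_insert_self _ _)
  have gb : ∀ j ∈ nbPl P nb s c, ∀ w ∈ (ballX P s j).getD u [], w < hW P → wl s' w = c + 2 :=
    fun j hj w e hw => g1 w (mem_insert_of_mem ((hB w).2 ⟨hw, j, hj, e⟩))
  have touch : ∀ j ∈ nb.getD c [], j ≠ c → placed P s' j = true → ∃ x < hW P, ∃ y < hW P,
      wl s' x = c + 2 ∧ wl s' y = j + 2 ∧ hT P x = hT P y := by
    intro j hj hne e
    have hj' : j ∈ nbPl P nb s c := List.mem_filter.2 ⟨hj, pl j hne e⟩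
    obtain ⟨y, hy, e1, e2 | ⟨x, e2, hx, e3⟩⟩ := (gp j hj').touch
    · exact ⟨z, w1, y, hy, gz, upd y hy j e1, w2.trans e2.symm⟩
    · exact ⟨x, hx, y, hy, gb j hj' x e2 hx, upd y hy j e1, e3⟩
  have zH : z ∉ Hm := fun e => (I.hm1 z e).2 w3
  have old : ∀ w ∈ Hm, wl s' w = wl s w := fun w hw => up w (I.hm1 w hw).1 (I.hm1 w hw).2
  refine ⟨⟨fun w => ?_, fun d => ?_, fun d x hx y hy h1 h2 => ?_, fun d d' hd hne h1 h2 => ?_,
    fun v => ?_, fun w hw e => ?_, ?_, fun w hw => ?_, fun v => ?_, fun x hx y hy h1 h2 => ?_, ?_⟩,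
    eG ▸ few, ?_⟩
  · have := I.lt w
    rw [g]
    split_ifs <;> omega
  · by_cases hd : d = c
    · subst hd
      have h1 := cnt B (l + 2) Subset.rfl fun j hj => (card_le_card fun w hw =>
        List.mem_toFinset.2 (mem_filter.1 hw).2).trans ((List.toFinset_card_le _).trans (gp j hj).len)
      have h2 : #(sL P s' (d + 2)) ≤ #(insert z B) := card_le_card fun w hw =>
        gc w (mem_range.1 (mem_filter.1 hw).1) (mem_filter.1 hw).2
      have h3 := card_insert_le z B
      omega
    · exact (card_le_card fun w hw => mem_filter.2 ⟨(mem_filter.1 hw).1,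
        dnd w (mem_range.1 (mem_filter.1 hw).1) d hd (mem_filter.1 hw).2⟩).trans (I.small d)
  · by_cases hd : d = c
    · subst hd
      have key : ∀ x < hW P, wl s' x = d + 2 → Relation.EqvGen (Meet P s' d) x z := by
        intro x hx e
        rcases mem_insert.1 (gc x hx e) with rfl | e
        · exact .refl _
        obtain ⟨-, j, hj, e⟩ := (hB x).1 e
        obtain ⟨y, e1, hy, e2, e3⟩ := (gp j hj).conn x e hx
        refine .trans _ y _ ?_ (.rel _ _ ⟨hy, w1, gb j hj y e1 hy, gz, Or.inr (w2.trans e2.symm)⟩)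
        clear e1 hy e2
        induction e3 with
        | refl => exact .refl _
        | tail _ r ih => exact .trans _ _ _ ih (.rel _ _ ⟨r.2.2.1, r.2.2.2.1,
            gb j hj _ r.1 r.2.2.1, gb j hj _ r.2.1 r.2.2.2.1, Or.inr r.2.2.2.2⟩)
      exact .trans _ _ _ (key x hx h1) (.symm _ _ (key y hy h2))
    · exact (I.conn d x hx y hy (dnd x hx d hd h1) (dnd y hy d hd h2)).mono fun x y r =>
        ⟨r.1, r.2.1, upd x r.1 d r.2.2.1, upd y r.2.1 d r.2.2.2.1, r.2.2.2.2⟩
  · by_cases e1 : d = c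
    · subst e1
      exact touch d' hd hne.symm h2
    · by_cases e2 : d' = c
      · subst e2
        obtain ⟨x, hx, y, hy, f1, f2, f3⟩ := touch d (h.sym.symm _ _ hd) hne h1
        exact ⟨y, hy, x, hx, f2, f1, f3.symm⟩
      · obtain ⟨x, hx, y, hy, f1, f2, f3⟩ := I.edge d d' hd hne (pl d e1 h1) (pl d' e2 h2)
        exact ⟨x, hx, y, hy, upd x hx d f1, upd y hy d' f2, f3⟩
  · have h1 := I.cap v
    have h2 := zt v
    rw [us]
    rcases eq_empty_or_nonempty {w ∈ insert z B | hT P w = v} with e | ⟨w, hw⟩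
    · rw [e, card_empty]
      exact h1
    · have h3 := (fr w (mem_filter.1 hw).1).2.2
      rw [(mem_filter.1 hw).2] at h3
      omega
  · rw [gg, us]
    exact (I.junk w hw ((dn w hw (by omega)).symm.trans e)).imp_right fun _ => by omega
  · rw [eG]
    refine (card_le_card fun v hv => ?_).trans I.bd
    obtain ⟨h1, h2, w, hw, f1, f2, f3⟩ := mem_filter.1 hv
    rw [opn_iff, gg, us] at h2
    exact mem_filter.2 ⟨h1, (opn_iff s v).2 ⟨h2.1, by omega⟩, w, hw, f1 ▸ (gg _).symm,
      (dn w (mem_range.1 hw) (by omega)).symm.trans f2, f3⟩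
  · rcases mem_insert.1 hw with rfl | hw
    · exact ⟨w1, by omega⟩
    · exact ⟨(I.hm1 w hw).1, old w hw ▸ (I.hm1 w hw).2⟩
  · rw [filter_insert]
    split_ifs with e
    · have h1 : #{w ∈ Hm | hT P w = v} ≤ used P s u := by
        rw [used_eq]
        exact card_le_card fun w hw => mem_filter.2 ⟨mem_range.2 (I.hm1 w (mem_filter.1 hw).1).1,
          (mem_filter.1 hw).2.trans (e.symm.trans w2), (I.hm1 w (mem_filter.1 hw).1).2⟩
      have h2 := card_insert_le z {w ∈ Hm | hT P w = v}
      omega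
    · exact I.hm2 v
  · rcases mem_insert.1 hx with ex | ex <;> rcases mem_insert.1 hy with ey | ey
    · exact ex.trans ey.symm
    · exact absurd ((old y ey).symm.trans (h2.symm.trans (ex ▸ gz))) (nc y (I.hm1 y ey).1)
    · exact absurd ((old x ex).symm.trans (h2.trans (ey ▸ gz))) (nc x (I.hm1 x ex).1)
    · exact I.hm3 x ex y ey (old x ex ▸ h1) ((old x ex).symm.trans (h2.trans (old y ey)))
  · have h1 := card_eq_sum_card_fiberwise (f := hT P)
      (s := {w ∈ insert z B | opn P s (hT P w) = false}) (t := range (hN P)) fun w hw =>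
        mem_coe.2 (mem_range.2 (h.tail_lt (fr w (mem_filter.1 (mem_coe.1 hw)).1).1))
    have h2 : ∑ v ∈ range (hN P), (used P s' v - (a + 7)) ≤ ∑ v ∈ range (hN P),
        (used P s v - (a + 7) +
          #{w ∈ {w ∈ insert z B | opn P s (hT P w) = false} | hT P w = v}) := by
      refine sum_le_sum fun v _ => ?_
      have h3 := zt v
      rw [us]
      by_cases e : opn P s v = true
      · have := ((opn_iff s v).1 e).2
        omega
      · have : #{w ∈ insert z B | hT P w = v} ≤
            #{w ∈ {w ∈ insert z B | opn P s (hT P w) = false} | hT P w = v} :=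
          card_le_card fun w hw => mem_filter.2 ⟨mem_filter.2 ⟨(mem_filter.1 hw).1, by
            rw [(mem_filter.1 hw).2]
            exact Bool.eq_false_iff.2 e⟩, (mem_filter.1 hw).2⟩
        omega
    have h4 := I.hm4
    rw [sum_add_distrib, ← h1] at h2
    rw [card_insert_of_notMem zH]
    omega
  · refine Nat.add_lt_add_of_lt_of_le (card_lt_card ⟨fun w hw => ?_, fun e => ?_⟩)
      (card_le_card fun w hw => ?_)
    · obtain ⟨h1, h2⟩ := mem_filter.1 hw
      exact mem_filter.2 ⟨h1, up w (mem_range.1 h1) h2 ▸ h2⟩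
    · exact (mem_filter.1 (e (mem_filter.2 ⟨mem_range.2 w1, by omega⟩))).2 w3
    · obtain ⟨h1, h2⟩ := mem_filter.1 hw
      exact mem_filter.2 ⟨h1, (up w (mem_range.1 h1) (by omega)).trans h2⟩

end Pool.Agent.Lib.MP_45faa6_lc.TR
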