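import Pool.Agent.Lib.MP_45faa6_lc.TR.EDis
import Pool.Agent.Lib.MP_45faa6_lc.TR.EPla

/-!
Correctness of the algorithm.
-/

set_option autoImplicit false

namespace Pool.Agent.Lib.MP_45faa6_lc.TR

open Finset Pool.Agent.Lib.MP_45faa6_lc.NL Pool.Agent.Lib.MP_acf5a6_lc
  Pool.Agent.Lib.Common.CookLevin

variable {P : Hs} {nb : List (List ℕ)} {a l : ℕ}

theorem espec_missing {s : St} {c : ℕ} :
    c ∈ missing P nb s ↔ c < nb.length ∧ ¬placed P s c = true := by
  simp [missing, urange, ulen]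

theorem espec_head {L : List ℕ} (h : L ≠ []) : L.headD 0 ∈ L := by
  cases L with
  | nil => exact absurd rfl h
  | cons a L => exact List.mem_cons_self

theorem espec_step (h : Ok P nb a l) {s : St} {Hm : Finset ℕ} (I : Inv0 P nb a l s Hm)
    (few : hK P * #(sG P s) ≤ hN P) (hm : missing P nb s ≠ []) :
    ∃ Hm', Inv0 P nb a l (eStep P nb s) Hm' ∧ hK P * #(sG P (eStep P nb s)) ≤ hN P ∧
      pot P s < pot P (eStep P nb s) := by
  obtain ⟨h1, h2⟩ := espec_missing.1 (espec_head hm)
  rw [eStep, List.isEmpty_eq_false_iff.2 hm, cond_false]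
  generalize (missing P nb s).headD 0 = c at h1 h2 ⊢
  by_cases hb : nbBad P nb s c = []
  · rw [hb, List.isEmpty_nil, cond_true]
    refine ⟨_, place_spec h I few h1 h2 fun j hj => ?_⟩
    simpa using List.filter_eq_nil_iff.1 hb j hj
  · rw [List.isEmpty_eq_false_iff.2 hb, cond_false]
    obtain ⟨h3, h4⟩ := List.mem_filter.1 (espec_head hb)
    exact ⟨_, discard_spec h I few (List.mem_filter.1 h3).2 ((Bool.not_eq_true' _).mp h4)⟩

/-- Sketch: as `NL.embed_spec`; the potential is at most `2 * hW P`. -/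
theorem embed_spec (h : Ok P nb a l) :
    (∀ c < nb.length, ∃ w < hW P, wl (embed P nb) w = c + 2) ∧
    (∀ w, wl (embed P nb) w < nb.length + 2) ∧
    (∀ c, ∀ x < hW P, ∀ y < hW P, wl (embed P nb) x = c + 2 → wl (embed P nb) y = c + 2 →
      Relation.EqvGen (Meet P (embed P nb) c) x y) ∧
    ∀ c, ∀ c' ∈ nb.getD c [], c ≠ c' → ∃ x < hW P, ∃ y < hW P,
      wl (embed P nb) x = c + 2 ∧ wl (embed P nb) y = c' + 2 ∧ hT P x = hT P y := by
  have key : ∀ t, ∃ Hm, Inv0 P nb a l ((eStep P nb)^[t] (eInit P)) Hm ∧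
      hK P * #(sG P ((eStep P nb)^[t] (eInit P))) ≤ hN P ∧
      (missing P nb ((eStep P nb)^[t] (eInit P)) = [] ∨
        t ≤ pot P ((eStep P nb)^[t] (eInit P))) := by
    intro t
    induction t with
    | zero => exact ⟨∅, (init_spec h).1, (init_spec h).2, Or.inr (Nat.zero_le _)⟩
    | succ t ih =>
      rw [Function.iterate_succ_apply']
      generalize (eStep P nb)^[t] (eInit P) = s at ih
      obtain ⟨Hm, i1, i2, i3⟩ := ih
      by_cases hm : missing P nb s = []
      · have e : eStep P nb s = s := by rw [eStep, hm, List.isEmpty_nil, cond_true]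
        rw [e]
        exact ⟨Hm, i1, i2, Or.inl hm⟩
      · obtain ⟨Hm', h1, h2, h3⟩ := espec_step h i1 i2 hm
        exact ⟨Hm', h1, h2, Or.inr ((i3.resolve_left hm).trans_lt h3)⟩
  obtain ⟨Hm, I, -, k⟩ := key (2 * hW P + 1)
  change Inv0 P nb a l (embed P nb) Hm at I
  change missing P nb (embed P nb) = [] ∨ _ ≤ pot P (embed P nb) at k
  have hm : missing P nb (embed P nb) = [] := by
    refine k.resolve_right fun k => ?_
    have h1 : #{w ∈ range (hW P) | wl (embed P nb) w ≠ 0} ≤ hW P :=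
      (card_filter_le _ _).trans (card_range _).le
    have h2 : #(sL P (embed P nb) 1) ≤ hW P := (card_filter_le _ _).trans (card_range _).le
    unfold pot at k
    omega
  have pl : ∀ c < nb.length, placed P (embed P nb) c = true := fun c hc =>
    by_contra fun k => List.ne_nil_of_mem (espec_missing.2 ⟨hc, k⟩) hm
  exact ⟨fun c hc => (placed_iff _ c).1 (pl c hc), I.lt, I.conn, fun c c' k hne =>
    I.edge c c' k hne (pl c (h.sym.lt _ _ (h.sym.symm _ _ k))) (pl c' (h.sym.lt _ _ k))⟩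

end Pool.Agent.Lib.MP_45faa6_lc.TR
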