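import Pool.Agent.Lib.MP_45faa6_lc.TR.Sound
import Pool.Agent.Lib.MP_45faa6_lc.NL.Main

/-!
The parts of the verifier: positions of the proof bits, the check at one port, running times.
-/

set_option autoImplicit false
set_option linter.unusedSectionVars false

namespace Pool.Agent.Lib.MP_45faa6_lc.TR

open Finset Pool.Agent.Lib.MP_45faa6_lc.NL Pool.Agent.Lib.MP_acf5a6_lc
  Pool.Agent.Lib.Common.CookLevin

/-- Names of the proof bits stored at one port. -/
abbrev enga_Tag (F : Type) : Type := Word × (Fin 8 → F) × F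

/-- Names of the queries of one port. -/
abbrev enga_Qi (F : Type) : Type := Option (Fin 8 × F) × enga_Tag F

/-- The number of rounds. -/
def enga_K (M : Un) : Un := (usz (M.mul M).n).add ⟨1⟩

variable {F : Type} [Field F] [Fintype F] [DecidableEq F]

/-- The truncation order. -/
def enga_P (F : Type) [Fintype F] (M : Un) : Un := ⟨Fintype.card F ^ (enga_K M).n⟩

theorem enga_K_spec {e : ℕ} (hF : Fintype.card F = 2 ^ (8 * e)) (he : 1 ≤ e) (M : Un) :
    M.n ^ 2 * 2 ^ (8 * e) ≤ 2 ^ (e * (8 * (enga_K M).n)) ∧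
      (enga_P F M).n = 2 ^ (e * (8 * (enga_K M).n)) := by
  constructor
  · have h1 := lt_two_pow_sz (M.n * M.n)
    change _ ≤ 2 ^ (e * (8 * (sz (M.n * M.n) + 1)))
    rw [sq]
    generalize sz (M.n * M.n) = s at h1 ⊢
    refine (Nat.mul_le_mul_right _ h1.le).trans ?_
    rw [← pow_add]
    exact Nat.pow_le_pow_right two_pos (by nlinarith)
  · change Fintype.card F ^ _ = _
    rw [hF, ← pow_mul]
    congr 1
    ring

/-- The position of a bit. -/
noncomputable def enga_posT (L : List (List (List F))) (q : ℕ) (u : List (List F)) (k : ℕ)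
    (t : enga_Tag F) : ℕ :=
  (idx L u * q + k) * Fintype.card (enga_Tag F) + (Fintype.equivFin (enga_Tag F) t).val

/-- The neighbours read by the verifier; `s` is the head of the port. -/
def enga_nbr (M : Un) (s g : List (List F)) : Option (Fin 8 × F) → List (List F)
  | none => s
  | some p => eeL p.1.val p.2 M g

/-- The position of a query. -/
noncomputable def enga_posQ (M : Un) (L : List (List (List F))) (q : ℕ) (s g : List (List F))
    (k : ℕ) (i : enga_Qi F) : ℕ :=
  enga_posT L q (enga_nbr M s g i.1) k i.2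

/-- A value read from the bits of a port. -/
noncomputable def enga_val (v : enga_Qi F → Bool) (p : Option (Fin 8 × F)) (wd : Word)
    (a : Fin 8 → F) : F :=
  dec fun x => v (p, wd, a, x)

/-- The constraint polynomial on the values read. -/
noncomputable def enga_pv (y : Ty × (Fin 8 → F)) (v v' : enga_Qi F → Bool) : F :=
  pv (fun t => enga_val v (some (0, 0)) (.inl t) y.2) (fun t => enga_val v' (some (0, 0)) (.inl t) y.2)
    (fun t => enga_val v none (.inl t) y.2) y.1

/-- The values of the extended selectors. -/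
def enga_tv (e : ℕ) (φ : CNF) (M : Un) (q : ℕ) (cl : List (List F) → ℕ → Bool → ℕ)
    (L : List (List (List F))) (g : List (List F)) (k k' : ℕ) (y : Ty × (Fin 8 → F)) : F :=
  hatL e y.2 M (enga_K M) (enga_P F M) (L.map fun u => (u, bF F (TB φ q (cl u) k k' y.1))) g

/-- The left side of the test. -/
noncomputable def enga_lhs (e : ℕ) (φ : CNF) (M q : Un) (cl : List (List F) → ℕ → Bool → ℕ)
    (L : List (List (List F))) (g : List (List F)) (v : ℕ → enga_Qi F → Bool) (k : ℕ)
    (y : Ty × (Fin 8 → F)) : F :=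
  ((urange q).map fun k' => enga_tv e φ M q.n cl L g k k' y * enga_pv y (v k) (v k')).sum

/-- The finite check at one port. -/
def enga_Chek (e : ℕ) (t : Ty × (Fin 8 → F) → F) (v : enga_Qi F → Bool) : Prop :=
  (∀ (wd : Word) (a : Fin 8 → F) (i : Fin 8), LD (128 * 2 ^ (7 * e)) fun c =>
    enga_val v (some (i, c ^ 2 ^ (e * (7 - i.val)))) wd (a + Pi.single i c)) ∧
  ∀ τ (a : Fin 8 → F), (∀ i ∉ RJ, a i = 0) →
    t (τ, a) = ∑ j ∈ RJ, a j * enga_val v (some (0, 0)) (.inr (τ, j)) a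

/-- The words written in a proof. -/
noncomputable def enga_wrd {M : ℕ} (l : List (Mat M F)) (q : ℕ) (π : ℕ → Bool) (k : ℕ) (wd : Word)
    (x : Pt M F) : F :=
  dec fun c => π (enga_posT (l.map toL) q (toL x.1) k (wd, x.2, c))

theorem enga_toFinset {M : ℕ} [CharP F 2] (l : List (Mat M F)) (hl' : ∀ u, u ∈ l ↔ u ∈ GG M F) :
    l.toFinset = GS M F := by
  ext v
  rw [List.mem_toFinset, hl', mem_GS]

theorem enga_chek_iff [CharP F 2] {e : ℕ} (hF : Fintype.card F = 2 ^ (8 * e)) (he : 1 ≤ e)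
    (φ : CNF) (M q : Un) (γ : ℕ → Mat M.n F) (cl : List (List F) → ℕ → Bool → ℕ)
    (l : List (Mat M.n F)) (hl : l.Nodup) (hl' : ∀ u, u ∈ l ↔ u ∈ GG M.n F) (u : Mat M.n F)
    (π : ℕ → Bool) (v : ℕ → enga_Qi F → Bool) (hv : ∀ k < q.n, ∀ i,
      v k i = π (enga_posQ M (l.map toL) q.n (toL (γ k * u)) (toL u) k i)) :
    (∀ k < q.n, enga_Chek e (enga_lhs e φ M q cl (l.map toL) (toL u) v k) (v k)) ↔
      Acc e (enga_K M).n φ q.n γ (fun v => cl (toL v)) (enga_wrd l q.n π) u := by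
  have hS := enga_toFinset l hl'
  have h1 : ∀ k < q.n, ∀ (p : Fin 8 × F) (wd : Word) a,
      enga_val (v k) (some p) wd a = enga_wrd l q.n π k wd (ee p.1 p.2 u, a) := by
    intro k hk p wd a
    simp only [enga_val, hv k hk, enga_posQ, enga_nbr, enga_wrd, eeL_toL]
  have h1' : ∀ k < q.n, ∀ (wd : Word) a,
      enga_val (v k) none wd a = enga_wrd l q.n π k wd (γ k * u, a) := by
    intro k hk wd a
    simp only [enga_val, hv k hk, enga_posQ, enga_nbr, enga_wrd]
  have h3 : ∀ k k' τ a, enga_tv e φ M q.n cl (l.map toL) (toL u) k k' (τ, a) =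
      hat e (enga_K M).n RJ (GS M.n F) (fun v => bF F (TB φ q.n (cl (toL v)) k k' τ)) (u, a) := by
    intro k k' τ a
    rw [enga_tv, List.map_map, ← hS, ← hatL_spec e a M _ _ (enga_K_spec hF he M).2 l hl]
    rfl
  have h4 : ∀ k < q.n, ∀ τ a, enga_lhs e φ M q cl (l.map toL) (toL u) v k (τ, a) =
      lhs e (enga_K M).n φ q.n γ (fun v => cl (toL v))
        (fun k t => enga_wrd l q.n π k (.inl t)) k τ (u, a) := by
    intro k hk τ a
    rw [enga_lhs, lhs, urange, ← List.sum_toFinset _ List.nodup_range, List.toFinset_range]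
    refine sum_congr rfl fun k' hk' => ?_
    rw [h3]
    simp only [enga_pv, pp, h1 k hk, h1 k' (mem_range.1 hk'), h1' k hk, ee_zero]
  refine forall₂_congr fun k hk => ?_
  simp only [enga_Chek, h1 k hk, h4 k hk, ee_zero, mv]

theorem enga_congr [CharP F 2] {M e K q : ℕ} {φ : CNF} {γ : ℕ → Mat M F} (hγ : ∀ k, γ k ∈ GG M F)
    {cl : Mat M F → ℕ → Bool → ℕ} {w w' : ℕ → Word → Pt M F → F} {u : Mat M F} (hu : u ∈ GG M F)
    (h : ∀ k < q, ∀ wd, ∀ v ∈ GG M F, ∀ a, w' k wd (v, a) = w k wd (v, a))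
    (H : Acc e K φ q γ cl w u) : Acc e K φ q γ cl w' u := by
  intro k hk
  refine ⟨fun wd a i => ((H k hk).1 wd a i).congr fun c => h k hk wd _ (ee_mem _ _ hu) _,
    fun τ a ha => ?_⟩
  have h1 : lhs e K φ q γ cl (fun k t => w' k (.inl t)) k τ (u, a) =
      lhs e K φ q γ cl (fun k t => w k (.inl t)) k τ (u, a) := by
    refine sum_congr rfl fun k' hk' => ?_
    simp only [pp, h k hk _ _ hu, h k' (mem_range.1 hk') _ _ hu, h k hk _ _ (mul_mem (hγ k) hu)]
  rw [h1, (H k hk).2 τ a ha]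
  simp only [h k hk _ _ hu]

theorem enga_proof {M : ℕ} (l : List (Mat M F)) (q : ℕ) (w : ℕ → Word → Pt M F → F) :
    ∃ π : ℕ → Bool, ∀ k < q, ∀ wd, ∀ v ∈ l, ∀ a, enga_wrd l q π k wd (v, a) = w k wd (v, a) := by
  have hT : 0 < Fintype.card (enga_Tag F) := Fintype.card_pos
  refine ⟨fun n => decide (w (n / Fintype.card (enga_Tag F) % q)
    ((Fintype.equivFin (enga_Tag F)).symm ⟨n % _, Nat.mod_lt _ hT⟩).1
    (l.getD (n / Fintype.card (enga_Tag F) / q) 1,
      ((Fintype.equivFin (enga_Tag F)).symm ⟨n % _, Nat.mod_lt _ hT⟩).2.1) =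
    ((Fintype.equivFin (enga_Tag F)).symm ⟨n % _, Nat.mod_lt _ hT⟩).2.2), fun k hk wd v hv a => ?_⟩
  rw [← dec_eq (w k wd (v, a)), enga_wrd]
  congr 1
  funext c
  have h1 : (⟨enga_posT (l.map toL) q (toL v) k (wd, a, c) % _, Nat.mod_lt _ hT⟩ :
      Fin (Fintype.card (enga_Tag F))) = Fintype.equivFin (enga_Tag F) (wd, a, c) := by
    ext
    simp only [enga_posT]
    rw [Nat.mul_add_mod_self_right, Nat.mod_eq_of_lt (Fin.isLt _)]
  have h2 : enga_posT (l.map toL) q (toL v) k (wd, a, c) / Fintype.card (enga_Tag F) =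
      l.idxOf v * q + k := by
    rw [enga_posT, add_comm, Nat.add_mul_div_right _ _ hT, Nat.div_eq_of_lt (Fin.isLt _), zero_add,
      idx_eq, idxOf_map_inj toL_inj]
  have h3 : l.getD (l.idxOf v) 1 = v := by
    rw [List.getD_eq_getElem _ _ (List.idxOf_lt_length_of_mem hv), List.getElem_idxOf]
  have h4 : (l.idxOf v * q + k) % q = k := by
    rw [Nat.mul_add_mod_self_right, Nat.mod_eq_of_lt hk]
  have h5 : (l.idxOf v * q + k) / q = l.idxOf v := by
    rw [add_comm, Nat.add_mul_div_right _ _ (Nat.zero_lt_of_lt hk), Nat.div_eq_of_lt hk, zero_add]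
  simp only [h1, h2, h3, h4, h5, Equiv.symm_apply_apply]

variable [N487b59b3 F] {α : Type} [N487b59b3 α]

theorem enga_K_PT {M : α → Un} (hM : PT M) : PT fun a => enga_K (M a) := by
  unfold enga_K; fun_prop

theorem enga_P_PT {M : α → Un} (h0 : PT M) : PT fun a => enga_P F (M a) := by
  have h1 : PT fun a => (M a).mul (M a) := by fun_prop
  have key : ∀ i, (fun u : Un => u.mul ⟨Fintype.card F⟩)^[i] ⟨1⟩ = ⟨Fintype.card F ^ i⟩ := by
    intro i
    induction i with
    | zero => rfl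
    | succ i ih => rw [Function.iterate_succ_apply', ih]; rfl
  refine (PT.iterP (g := fun (_ : α) (u : Un) => u.mul ⟨Fintype.card F⟩) (h := fun _ => ⟨1⟩)
    (by fun_prop) (by fun_prop) (enga_K_PT h0) ((PB.of_PT h1).poly
      ((Polynomial.C 4 * Polynomial.X + Polynomial.C 2) ^ Fintype.card F)) fun φ i hi => ?_).of_eq
    fun φ => by rw [key, sz_un]; rfl
  rw [key, sz_un, sz_un, Polynomial.eval_pow, Polynomial.eval_add, Polynomial.eval_mul,
    Polynomial.eval_C, Polynomial.eval_X, Polynomial.eval_C]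
  rw [sz_un] at hi
  change i ≤ sz ((M φ).mul (M φ)).n + 1 at hi
  rw [sz_nat] at hi
  generalize ((M φ).mul (M φ)).n = m at *
  have h2 : 2 ^ i ≤ 4 * m + 2 := by
    refine (Nat.pow_le_pow_right two_pos hi).trans ?_
    rcases Nat.eq_zero_or_pos m with rfl | hm
    · simp
    · have h3 := Nat.size_pos.2 hm
      have h4 := Nat.lt_size.1 (show Nat.size m - 1 < Nat.size m by omega)
      rw [show Nat.size m + 1 = Nat.size m - 1 + 2 by omega, pow_add]
      omega
  calc Fintype.card F ^ i ≤ (2 ^ Fintype.card F) ^ i :=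
        Nat.pow_le_pow_left Nat.lt_two_pow_self.le _
    _ = (2 ^ i) ^ Fintype.card F := by rw [← pow_mul, ← pow_mul, mul_comm]
    _ ≤ _ := Nat.pow_le_pow_left h2 _

theorem enga_posQ_PT (i : enga_Qi F) {M : α → Un} {L : α → List (List (List F))} {q k : α → ℕ}
    {s g : α → List (List F)} (hM : PT M) (hL : PT L) (hq : PT q) (hs : PT s) (hg : PT g)
    (hk : PT k) : PT fun a => enga_posQ (M a) (L a) (q a) (s a) (g a) (k a) i := by
  refine PT.natAdd (PT.natMul (PT.natAdd (PT.natMul (idx_PT hL ?_) hq) hk) (PT.const _))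
    (PT.const _)
  rcases i with ⟨_ | p, t⟩
  · exact hs
  · exact eeL_PT (PT.const _) (PT.const _) hM hg

theorem enga_vl_PT (t : Reg) {φ : α → CNF} {c : α → ℕ → Bool → ℕ} {k : α → ℕ} (h : PT φ)
    (hc : PT fun a => c a (k a) t.1) : PT fun a => vl (φ a) (c a) (k a) t :=
  PT.fst (lit_PT h (PT.natSub hc (PT.const _)) (PT.const _))

theorem enga_TB_PT (τ : Ty) {φ : α → CNF} {q : α → Un} {c : α → ℕ → Bool → ℕ} {k k' : α → ℕ}
    (h : PT φ) (hq : PT q) (hc : ∀ b, PT fun x : α × ℕ => c x.1 x.2 b) (hk : PT k) (hk' : PT k') :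
    PT fun a => TB (φ a) (q a).n (c a) (k a) (k' a) τ := by
  have h1 : ∀ b, PT fun a => c a (k a) b := fun b => PT.comp (hc b) (PT.prodMk PT.id' hk)
  rcases τ with r | p | σ
  · exact PT.decide_eq hk' hk
  · exact PT.decide_eq (idx_PT (PT.map (f := fun a i => vl (φ a) (c a) i p.2)
      (enga_vl_PT (φ := fun x : α × ℕ => φ x.1) (c := fun x => c x.1) (k := fun x => x.2) p.2
        (PT.comp h (PT.fst PT.id')) (hc _)) (PT.urange' hq)) (enga_vl_PT p.1 h (h1 _))) hk'
  · exact PT.and' (PT.decide_eq hk' hk) (tCl_PT σ h (h1 _))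

theorem enga_tv_PT (e : ℕ) (y : Ty × (Fin 8 → F)) {φ : α → CNF} {M q : α → Un}
    {cl : α → List (List F) → ℕ → Bool → ℕ} {L : α → List (List (List F))}
    {g : α → List (List F)} {k k' : α → ℕ} (h : PT φ) (hM : PT M) (hq : PT q)
    (hc : ∀ b, PT fun x : (α × List (List F)) × ℕ => cl x.1.1 x.1.2 x.2 b) (hL : PT L) (hg : PT g)
    (hk : PT k) (hk' : PT k') :
    PT fun a => enga_tv e (φ a) (M a) (q a).n (cl a) (L a) (g a) (k a) (k' a) y := by
  have h0 : PT fun x : α × List (List F) => x.1 := PT.fst PT.id'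
  exact hatL_PT e y.2 hM (enga_K_PT hM) (enga_P_PT hM) (PT.map (f := fun a u =>
    (u, bF F (TB (φ a) (q a).n (cl a u) (k a) (k' a) y.1)))
    (PT.prodMk (PT.snd PT.id') (bF_PT (enga_TB_PT y.1 (c := fun x : α × List (List F) => cl x.1 x.2)
      (PT.comp h h0) (PT.comp hq h0) hc (PT.comp hk h0) (PT.comp hk' h0)))) hL) hg

theorem enga_pv_PT (y : Ty × (Fin 8 → F)) {v v' : α → enga_Qi F → Bool}
    (hv : ∀ i, PT fun a => v a i) (hv' : ∀ i, PT fun a => v' a i) :
    PT fun a => enga_pv y (v a) (v' a) :=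
  PT_finFun (β := Bool) (ι := enga_Qi F ⊕ enga_Qi F)
    (Sum.elim (fun i a => v a i) fun i a => v' a i) (by
      rintro (i | i)
      · exact hv i
      · exact hv' i) fun w => enga_pv y (fun i => w (.inl i)) fun i => w (.inr i)

theorem enga_lhs_PT (e : ℕ) (y : Ty × (Fin 8 → F)) {φ : α → CNF} {M q : α → Un}
    {cl : α → List (List F) → ℕ → Bool → ℕ} {L : α → List (List (List F))}
    {g : α → List (List F)} {v : α → ℕ → enga_Qi F → Bool} {k : α → ℕ} (h : PT φ) (hM : PT M)
    (hq : PT q) (hc : ∀ b, PT fun x : (α × List (List F)) × ℕ => cl x.1.1 x.1.2 x.2 b) (hL : PT L)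
    (hg : PT g) (hv : ∀ i, PT fun x : α × ℕ => v x.1 x.2 i) (hk : PT k) :
    PT fun a => enga_lhs e (φ a) (M a) (q a) (cl a) (L a) (g a) (v a) (k a) y := by
  have h0 : PT fun x : α × ℕ => x.1 := PT.fst PT.id'
  refine PT_sumF (PT.map (f := fun a k' =>
    enga_tv e (φ a) (M a) (q a).n (cl a) (L a) (g a) (k a) k' y * enga_pv y (v a (k a)) (v a k'))
    (PT_mulF ?_ ?_) (PT.urange' hq))
  · refine enga_tv_PT e y (cl := fun x : α × ℕ => cl x.1) (PT.comp h h0) (PT.comp hM h0)
      (PT.comp hq h0) (fun b => ?_) (PT.comp hL h0) (PT.comp hg h0) (PT.comp hk h0) (PT.snd PT.id')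
    exact PT.comp (g := fun x : ((α × ℕ) × List (List F)) × ℕ => ((x.1.1.1, x.1.2), x.2)) (hc b)
      (by fun_prop)
  · refine enga_pv_PT y (v := fun x : α × ℕ => v x.1 (k x.1)) (v' := fun x : α × ℕ => v x.1 x.2)
      (fun i => ?_) hv
    exact PT.comp (g := fun x : α × ℕ => (x.1, k x.1)) (hv i) (PT.prodMk h0 (PT.comp hk h0))

open Classical in
theorem enga_Chek_PT (e : ℕ) {t : α → Ty × (Fin 8 → F) → F} {v : α → enga_Qi F → Bool}
    (ht : ∀ y, PT fun a => t a y) (hv : ∀ i, PT fun a => v a i) :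
    PT fun a => decide (enga_Chek e (t a) (v a)) := by
  have h4 := PT_finFun (β := F) (ι := (Ty × (Fin 8 → F)) ⊕ enga_Qi F)
    (Sum.elim (fun y a => t a y) fun i a => bF F (v a i))
    (by
      rintro (y | i)
      · exact ht y
      · exact bF_PT (hv i))
    fun w => decide (enga_Chek e (fun y => w (.inl y)) fun i => decide (w (.inr i) = 1))
  refine h4.of_eq fun a => ?_
  have hb : ∀ b (h : Decidable (bF F b = 1)), @decide (bF F b = 1) h = b := by
    intro b h
    cases b <;> simp [bF]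
  simp only [Sum.elim_inl, Sum.elim_inr]
  exact decide_eq_decide.2 (iff_of_eq (congrArg _ (funext fun i => hb _ _)))

end Pool.Agent.Lib.MP_45faa6_lc.TR
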