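import Pool.Agent.Lib.MP_45faa6_lc.TR.Sound
import Pool.Agent.Lib.MP_45faa6_lc.NL.Main
import Pool.Agent.Lib.MP_45faa6_lc.TR.EngA

/-!
The verifier.
-/

set_option autoImplicit false
set_option linter.unusedSectionVars false

namespace Pool.Agent.Lib.MP_45faa6_lc.TR

open Finset Pool.Agent.Lib.MP_45faa6_lc.NL Pool.Agent.Lib.MP_acf5a6_lc
  Pool.Agent.Lib.Common.CookLevin

/-- Matrices as lists of rows. -/
abbrev LM (F : Type) : Type := List (List F)

/-- The data of a verifier: matrix size, the list of group elements, the number of ports, the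
shifts, the labels. -/
structure Dat (F : Type) where
  M : CNF → Un
  L : CNF → List (LM F)
  q : CNF → Un
  sh : CNF → LM F → ℕ → LM F
  cl : CNF → LM F → ℕ → Bool → ℕ

variable {F : Type} [Field F] [Fintype F] [DecidableEq F] [CharP F 2]

/-- The data are good for `φ`. -/
def Dat.Good (V : Dat F) (φ : CNF) : Prop :=
  ∃ (l : List (Mat (V.M φ).n F)) (γ : ℕ → Mat (V.M φ).n F), V.L φ = l.map toL ∧ l.Nodup ∧
    (∀ u, u ∈ l ↔ u ∈ GG (V.M φ).n F) ∧
    (∀ u, ∀ k < (V.q φ).n, V.sh φ (toL u) k = toL (γ k * u)) ∧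
    (okF φ = true → Lab φ (V.q φ).n γ (fun u => V.cl φ (toL u)) ∧
      Emb φ (V.q φ).n γ fun u => V.cl φ (toL u))

/-- The data are computable in polynomial time. -/
structure Dat.Fast [N487b59b3 F] (V : Dat F) : Prop where
  M : PT V.M
  L : PT V.L
  q : PT V.q
  sh : PT fun x : CNF × LM F × ℕ => V.sh x.1 x.2.1 x.2.2
  cl : ∀ b, PT fun x : CNF × LM F × ℕ => V.cl x.1 x.2.1 x.2.2 b

/-- The group element selected by the coins. -/
def eng_g (V : Dat F) (φ : CNF) (ρ : List Bool) : LM F :=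
  (V.L φ).getD (valM ρ) (oneL F (V.M φ))

/-- The number of coins. -/
def eng_R (V : Dat F) (φ : CNF) : ℕ := Nat.size (V.L φ).length

/-- The queries of port `k`. -/
noncomputable def eng_blk (V : Dat F) (y : CNF × List Bool) (k : ℕ) : List ℕ :=
  (List.ofFn (Fintype.equivFin (enga_Qi F)).symm).map fun i =>
    enga_posQ (V.M y.1) (V.L y.1) (V.q y.1).n (V.sh y.1 (eng_g V y.1 y.2) k) (eng_g V y.1 y.2) k i

/-- The queries. -/
noncomputable def eng_Q (V : Dat F) (y : CNF × List Bool) : List ℕ :=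
  (urange (V.q y.1)).flatMap (eng_blk V y)

/-- The answer to query `i` of port `k`. -/
noncomputable def eng_bit (s : List Bool) (k : ℕ) (i : enga_Qi F) : Bool :=
  s.getD (k * Fintype.card (enga_Qi F) + (Fintype.equivFin (enga_Qi F) i).val) false

open Classical in
/-- The decision. -/
noncomputable def eng_D (V : Dat F) (e : ℕ) (y : CNF × List Bool × List Bool) : Bool :=
  okF y.1 && (urange (V.q y.1)).all fun k => decide (enga_Chek e (enga_lhs e y.1 (V.M y.1)
    (V.q y.1) (V.cl y.1) (V.L y.1) (eng_g V y.1 y.2.1) (eng_bit y.2.2) k) (eng_bit y.2.2 k))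

theorem eng_blk_length (V : Dat F) (y : CNF × List Bool) (k : ℕ) :
    (eng_blk V y k).length = Fintype.card (enga_Qi F) := by
  rw [eng_blk, List.length_map, List.length_ofFn]

theorem eng_Q_length (V : Dat F) (y : CNF × List Bool) :
    (eng_Q V y).length = Fintype.card (enga_Qi F) * (V.q y.1).n := by
  rw [eng_Q, flat_length _ _ _ fun k _ => eng_blk_length V y k, urange, List.length_range, mul_comm]

theorem eng_bit_eq (V : Dat F) (y : CNF × List Bool) (π : ℕ → Bool) {k : ℕ} (hk : k < (V.q y.1).n)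
    (i : enga_Qi F) : eng_bit ((eng_Q V y).map π) k i = π (enga_posQ (V.M y.1) (V.L y.1)
      (V.q y.1).n (V.sh y.1 (eng_g V y.1 y.2) k) (eng_g V y.1 y.2) k i) := by
  have h1 : k < (urange (V.q y.1)).length := by rwa [urange, List.length_range]
  have h2 : (urange (V.q y.1))[k] = k := List.getElem_range _
  rw [eng_bit, eng_Q, List.map_flatMap, flat_getD _ _ _
    (fun k _ => by rw [List.length_map, eng_blk_length]) _ h1 (Fin.isLt _), h2, eng_blk,
    List.map_map, List.map_ofFn, List.getD_eq_getElem?_getD, List.getElem?_ofFn,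
    dif_pos (Fin.isLt _)]
  simp only [Fin.eta, Function.comp, Equiv.symm_apply_apply, Option.getD_some]

theorem eng_D_iff {e : ℕ} (hF : Fintype.card F = 2 ^ (8 * e)) (he : 1 ≤ e) (V : Dat F) (φ : CNF)
    (γ : ℕ → Mat (V.M φ).n F) (hγ : ∀ u, ∀ k < (V.q φ).n, V.sh φ (toL u) k = toL (γ k * u))
    (l : List (Mat (V.M φ).n F)) (h0 : V.L φ = l.map toL) (hl : l.Nodup)
    (hl' : ∀ u, u ∈ l ↔ u ∈ GG (V.M φ).n F) (ρ : List Bool) (π : ℕ → Bool) :
    eng_D V e (φ, ρ, (eng_Q V (φ, ρ)).map π) = true ↔ okF φ = true ∧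
      Acc e (enga_K (V.M φ)).n φ (V.q φ).n γ (fun v => V.cl φ (toL v))
        (enga_wrd l (V.q φ).n π) (l.getD (valM ρ) 1) := by
  have hg : eng_g V φ ρ = toL (l.getD (valM ρ) 1) := by
    rw [eng_g, h0, oneL_eq, List.getD_map]
  rw [← enga_chek_iff hF he φ _ _ γ _ l hl hl' _ π (eng_bit ((eng_Q V (φ, ρ)).map π))
    fun k hk i => by rw [eng_bit_eq V (φ, ρ) π hk, hg, hγ _ k hk, h0]]
  simp only [eng_D, Bool.and_eq_true, List.all_eq_true, decide_eq_true_eq, urange, List.mem_range,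
    hg, h0]

section

variable [N487b59b3 F] {V : Dat F} (hV : V.Fast)

include hV

theorem eng_g_PT {α : Type} [N487b59b3 α] {φ : α → CNF} {ρ : α → List Bool} (h : PT φ)
    (hρ : PT ρ) : PT fun a => eng_g V (φ a) (ρ a) := by
  have h3 : PT fun a => valM (ρ a) :=
    (PT.ofBitsM hρ).of_eq fun a => by rw [foldl_bit]; simp
  exact listGetD_PT (PT.comp hV.L h) h3 (oneL_PT (PT.comp hV.M h))

theorem eng_R_PT : PT fun φ => List.replicate (eng_R V φ) true := by
  have h1 := hV.L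
  refine PT.of_eq (f := fun φ => (urange (usz (V.L φ).length)).map fun _ => true)
    (PT.map (f := fun _ _ => true) (PT.const _) (PT.urange' (PT.usz' (PT.length h1)))) fun φ => ?_
  simp [urange, usz, sz_nat, eng_R]

theorem eng_Q_PT : PT (eng_Q V) := by
  refine PT.flatMap (f := eng_blk V) (PT_listOf _ _ fun i => ?_)
    (PT.urange' (PT.comp hV.q (PT.fst PT.id')))
  have h0 : PT fun y : (CNF × List Bool) × ℕ => y.1.1 := by fun_prop
  have h3 : PT fun y : (CNF × List Bool) × ℕ => eng_g V y.1.1 y.1.2 := eng_g_PT hV h0 (by fun_prop)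
  have h4 : PT fun y : (CNF × List Bool) × ℕ => y.2 := PT.snd PT.id'
  exact enga_posQ_PT i (PT.comp hV.M h0) (PT.comp hV.L h0) (PT.unN (PT.comp hV.q h0))
    (PT.comp hV.sh (PT.prodMk h0 (PT.prodMk h3 h4))) h3 h4

theorem eng_D_PT (e : ℕ) : PT (eng_D V e) := by
  have h0 : PT fun y : (CNF × List Bool × List Bool) × ℕ => y.1.1 := by fun_prop
  have h3 : PT fun y : (CNF × List Bool × List Bool) × ℕ => eng_g V y.1.1 y.1.2.1 :=
    eng_g_PT hV h0 (by fun_prop)
  have h4 : PT fun y : (CNF × List Bool × List Bool) × ℕ => y.2 := PT.snd PT.id'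
  have h5 : ∀ (β : Type) [N487b59b3 β] (s : β → List Bool) (k : β → ℕ), PT s → PT k →
      ∀ i : enga_Qi F, PT fun a => eng_bit (s a) (k a) i := fun β _ s k hs hk i =>
    listGetD_PT hs (PT.natAdd (PT.natMul hk (PT.const _)) (PT.const _)) (PT.const _)
  refine PT.and' (okF_PT (PT.fst PT.id')) (PT.all (enga_Chek_PT e (fun y => ?_)
    (h5 _ _ _ (by fun_prop) h4)) (PT.urange' (PT.comp hV.q (PT.fst PT.id'))))
  refine enga_lhs_PT e y (cl := fun x : (CNF × List Bool × List Bool) × ℕ => V.cl x.1.1)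
    (v := fun x : (CNF × List Bool × List Bool) × ℕ => eng_bit x.1.2.2) h0 (PT.comp hV.M h0)
    (PT.comp hV.q h0) (fun b => ?_) (PT.comp hV.L h0) h3 (h5 _ _ _ (by fun_prop) (by fun_prop)) h4
  exact PT.comp (g := fun x : (((CNF × List Bool × List Bool) × ℕ) × LM F) × ℕ =>
    (x.1.1.1.1, x.1.2, x.2)) (hV.cl b) (by fun_prop)

end

/-- Completeness and soundness of the test. -/
theorem engine_core (hF : Fintype.card F = 2 ^ (8 * 12)) :
    ∃ β : ℝ, 0 < β ∧ β < 1 ∧ ∀ (V : Dat F) (φ : CNF), V.Good φ →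
      (φ ∈ ThreeSAT → ∃ π, 1 ≤ accProb (eng_R V) (eng_Q V) (eng_D V 12) φ π) ∧
      (φ ∈ ThreeSATᶜ → ∀ π, accProb (eng_R V) (eng_Q V) (eng_D V 12) φ π ≤ β) := by
  classical
  obtain ⟨C, hC⟩ : ∃ C : ℕ, C = 2 ^ 80 * Fintype.card F ^ 13 := ⟨_, rfl⟩
  have hC0 : 1 ≤ C := by
    rw [hC]; exact Nat.succ_le_of_lt (by have := Fintype.card_pos (α := F); positivity)
  have hC1 : (1 : ℝ) ≤ C := by exact_mod_cast hC0
  have hβ : (0 : ℝ) < 1 / (2 * C) := by positivity
  have hβ' : (1 : ℝ) / (2 * C) < 1 := by rw [div_lt_one (by positivity)]; linarith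
  refine ⟨1 - 1 / (2 * C), by linarith, by linarith, fun V φ hG => ?_⟩
  obtain ⟨l, γ, h0, hl, hl', hγ, hE⟩ := hG
  have hlen : l.length = #(GS (V.M φ).n F) := by
    rw [← enga_toFinset l hl', List.toFinset_card_of_nodup hl]
  have hR : eng_R V φ = Nat.size l.length := by rw [eng_R, h0, List.length_map]
  have hpos : 0 < l.length := hlen ▸ GS_pos
  have hmem : ∀ n, l.getD n 1 ∈ GG (V.M φ).n F := by
    intro n
    rcases lt_or_ge n l.length with h | h
    · rw [List.getD_eq_getElem _ _ h]; exact (hl' _).1 (List.getElem_mem _)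
    · rw [List.getD_eq_default _ _ h]; exact one_mem _
  have hK := (enga_K_spec hF (by norm_num) (V.M φ)).1
  have key := eng_D_iff hF (by norm_num) V φ γ hγ l h0 hl hl'
  refine ⟨fun hφ => ?_, fun hφ π => ?_⟩
  · have hok := okF_of_mem hφ
    obtain ⟨w, hw⟩ := complete hF (by norm_num) hK hok hφ.2 (hE hok).1
    obtain ⟨π, hπ⟩ := enga_proof l (V.q φ).n w
    refine ⟨π, ?_⟩
    rw [accProb, filter_true_of_mem fun ρ _ => (key _ π).2 ⟨hok, enga_congr (hE hok).1.mem (hmem _)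
      (fun k hk wd v hv a => hπ k hk wd v ((hl' v).2 hv) a) (hw _)⟩]
    simp
  · by_cases hok : okF φ = true
    swap
    · rw [accProb, filter_false_of_mem fun ρ _ h => hok ((key _ π).1 h).1]
      simp only [card_empty, Nat.cast_zero, zero_div]
      linarith
    have hns : ¬Sat φ := fun h => hφ ⟨fun c hc => ((okF_iff φ).1 hok c hc).2, h⟩
    have h1 := fun h => hns (sound hF le_rfl hK hok (hE hok).1 (hE hok).2
      (enga_wrd l (V.q φ).n π) h)
    rw [← hC, ← hlen] at h1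
    have h2 := not_le.1 h1
    set bad := {u ∈ GS (V.M φ).n F | ¬Acc 12 (enga_K (V.M φ)).n φ (V.q φ).n γ
      (fun v => V.cl φ (toL v)) (enga_wrd l (V.q φ).n π) u}
    have h3 : bad.card ≤ #{ρ : Fin (eng_R V φ) → Bool |
        ¬eng_D V 12 (φ, List.ofFn ρ, (eng_Q V (φ, List.ofFn ρ)).map π) = true} := by
      refine card_le_card_of_surjOn (fun ρ => l.getD (valM (List.ofFn ρ)) 1) fun u hu => ?_
      obtain ⟨hu1, hu2⟩ := mem_filter.1 (mem_coe.1 hu)
      have hul : u ∈ l := (hl' u).2 ((mem_GS u).1 hu1)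
      have hi := List.idxOf_lt_length_of_mem hul
      obtain ⟨ρ, hρ⟩ := exists_valM (eng_R V φ) (l.idxOf u)
        (hR ▸ hi.trans (Nat.lt_size_self _))
      have hu3 : l.getD (valM (List.ofFn ρ)) 1 = u := by
        rw [hρ, List.getD_eq_getElem _ _ hi, List.getElem_idxOf]
      refine ⟨ρ, mem_coe.2 (mem_filter.2 ⟨mem_univ _, fun h => hu2 ?_⟩), hu3⟩
      have := ((key _ π).1 h).2
      rwa [hu3] at this
    have h4 := card_filter_add_card_filter_not (s := (univ : Finset (Fin (eng_R V φ) → Bool)))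
      fun ρ => eng_D V 12 (φ, List.ofFn ρ, (eng_Q V (φ, List.ofFn ρ)).map π) = true
    have h5 : #(univ : Finset (Fin (eng_R V φ) → Bool)) = 2 ^ eng_R V φ := by simp
    have h6 : 2 ^ eng_R V φ ≤ 2 * (C * bad.card) := by
      rw [hR]; exact (two_pow_size_le hpos).trans (by omega)
    rw [h5] at h4
    rw [accProb, div_le_iff₀ (by positivity)]
    have h7 : ((2 : ℝ) ^ eng_R V φ) ≤ 2 * (C * bad.card) := by exact_mod_cast h6
    have h8 : (1 : ℝ) / (2 * C) * 2 ^ eng_R V φ ≤ bad.card := by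
      rw [div_mul_eq_mul_div, one_mul, div_le_iff₀ (by positivity)]; linarith
    have h9 := congrArg (Nat.cast : ℕ → ℝ) h4
    have h10 : (bad.card : ℝ) ≤ _ := Nat.cast_le.2 h3
    push_cast at h9
    linarith

/-- The verifier picks a group element and runs the test at all its ports. -/
theorem engine [N487b59b3 F] (hF : Fintype.card F = 2 ^ (8 * 12)) :
    ∃ β : ℝ, 0 < β ∧ β < 1 ∧ ∃ E : ℕ, ∀ V : Dat F, V.Fast → (∀ φ, V.Good φ) →
      InPCP 1 β (fun φ => Nat.size (V.L φ).length) (fun φ => (E * (V.q φ).n : ℕ))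
        ThreeSAT ThreeSATᶜ := by
  obtain ⟨β, b0, b1, H⟩ := engine_core hF
  exact ⟨β, b0, b1, Fintype.card (enga_Qi F), fun V hV hG =>
    ⟨eng_R V, eng_Q V, eng_D V 12, (eng_R_PT hV).isPolyTime, (eng_Q_PT hV).isPolyTime,
      (eng_D_PT hV 12).isPolyTime, fun φ =>
        ⟨le_rfl, fun ρ _ => by rw [eng_Q_length], H V φ (hG φ)⟩⟩⟩

end Pool.Agent.Lib.MP_45faa6_lc.TR
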