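import Pool.Agent.Lib.MP_45faa6_lc.NL.GrpVex

/-!
Words in the generators expand.
-/

set_option autoImplicit false

namespace Pool.Agent.Lib.MP_45faa6_lc.TR

open Finset Pool.Agent.Lib.MP_45faa6_lc.NL

variable {F : Type} [Field F] [Fintype F]

/-- All products of `t` generators. -/
noncomputable def wds (M : ℕ) (F : Type) [Field F] [Fintype F] : ℕ → List (Mat M F)
  | 0 => [1]
  | t + 1 => (wds M F t).flatMap fun γ =>
      (univ : Finset (Fin 4 × F)).toList.map fun p => gen M p.1.val p.2 * γ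

theorem wds_length (M t : ℕ) : (wds M F t).length = (4 * Fintype.card F) ^ t := by
  induction t with
  | zero => rfl
  | succ t ih =>
    rw [wds, List.length_flatMap, pow_succ, ← ih]
    simp

theorem wds_mem (M t : ℕ) : ∀ γ ∈ wds M F t, γ ∈ GG M F := by
  induction t with
  | zero => exact fun γ h => List.mem_singleton.1 h ▸ one_mem _
  | succ t ih =>
    intro γ h
    obtain ⟨δ, h1, h2⟩ := List.mem_flatMap.1 h
    obtain ⟨p, -, rfl⟩ := List.mem_map.1 h2
    exact mul_mem (gen_mem _ _) (ih δ h1)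

section

open scoped RealInnerProductSpace

variable {E : Type} [NormedAddCommGroup E] [InnerProductSpace ℝ E] {ε : ℝ}

/-- The mean of the four projections. -/
noncomputable def exp_A (q : Quad E ε) : Module.End ℝ E := (1 / 4 : ℝ) • ∑ i, q.P i

theorem exp_apply (q : Quad E ε) (v : E) : exp_A q v = (1 / 4 : ℝ) • ∑ i, q.P i v := by
  simp [exp_A]

theorem exp_fix (q : Quad E ε) {w : E} (h : ∀ i, q.P i w = w) (t : ℕ) : (exp_A q ^ t) w = w := by
  induction t with
  | zero => rfl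
  | succ t ih =>
    rw [pow_succ', Module.End.mul_apply, ih, exp_apply]
    simp only [h, sum_const, card_univ, Fintype.card_fin, ← Nat.cast_smul_eq_nsmul ℝ, smul_smul]
    norm_num

theorem exp_step [FiniteDimensional ℝ E] (q : Quad E ε) (h0 : 0 ≤ ε) (h1 : ε ≤ 1 / 9) {v : E}
    (hv : q.Perp v) : q.Perp (exp_A q v) ∧ ‖exp_A q v‖ ^ 2 ≤ 13 / 16 * ‖v‖ ^ 2 := by
  refine ⟨fun w hw => ?_, ?_⟩
  · rw [exp_apply, real_inner_smul_left, sum_inner]
    simp only [q.symP, hw, hv w hw, sum_const_zero, mul_zero]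
  · have g := q.gap h0 h1 v hv
    have p : ∀ i, ‖v - q.P i v‖ ^ 2 = ‖v‖ ^ 2 - ‖q.P i v‖ ^ 2 := fun i => by
      rw [norm_sub_sq_real, ← real_inner_self_eq_norm_sq (q.P i v), q.symP, q.idemP]
      ring
    have n : ‖exp_A q v‖ ≤ 1 / 4 * ∑ i, ‖q.P i v‖ := by
      rw [exp_apply, norm_smul, Real.norm_of_nonneg (by norm_num)]
      exact mul_le_mul_of_nonneg_left (norm_sum_le _ _) (by norm_num)
    have c := sq_sum_le_card_mul_sum_sq (s := univ) (f := fun i => ‖q.P i v‖)
    simp only [p, sum_sub_distrib, sum_const, card_univ, Fintype.card_fin, nsmul_eq_mul,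
      Nat.cast_ofNat] at g c
    have n2 := pow_le_pow_left₀ (norm_nonneg _) n 2
    rw [mul_pow] at n2
    linarith

theorem exp_pow [FiniteDimensional ℝ E] (q : Quad E ε) (h0 : 0 ≤ ε) (h1 : ε ≤ 1 / 9) {v : E}
    (hv : q.Perp v) (t : ℕ) :
    q.Perp ((exp_A q ^ t) v) ∧ ‖(exp_A q ^ t) v‖ ^ 2 ≤ (13 / 16) ^ t * ‖v‖ ^ 2 := by
  induction t with
  | zero => exact ⟨hv, by simp⟩
  | succ t ih =>
    obtain ⟨a, b⟩ := exp_step q h0 h1 ih.1
    rw [pow_succ', Module.End.mul_apply, pow_succ' _ t, mul_assoc]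
    exact ⟨a, b.trans (mul_le_mul_of_nonneg_left ih.2 (by norm_num))⟩

end

open Classical in
/-- Extension by zero. -/
noncomputable def exp_ext {M : ℕ} (f : EuclideanSpace ℝ (GG M F)) (z : Mat M F) : ℝ :=
  if h : z ∈ GG M F then f ⟨z, h⟩ else 0

theorem exp_sum {M : ℕ} {ε : ℝ} (q : Quad (EuclideanSpace ℝ (GG M F)) ε)
    (hq : ∀ i, q.P i = ((grpvex_sys M F).x i).avg) (u : GG M F) (t : ℕ)
    (f : EuclideanSpace ℝ (GG M F)) : ((wds M F t).map fun γ => exp_ext f (γ * u.1)).sum =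
      (4 * Fintype.card F : ℝ) ^ t * (exp_A q ^ t) f u := by
  induction t generalizing f with
  | zero => simp [wds, exp_ext]
  | succ t ih =>
    have h0 : (Fintype.card F : ℝ) ≠ 0 := Nat.cast_ne_zero.2 Fintype.card_ne_zero
    rw [pow_succ (exp_A q), Module.End.mul_apply, pow_succ', mul_assoc, ← ih, wds,
      List.map_flatMap, List.flatMap_def, List.sum_flatten, List.map_map, ← List.sum_map_mul_left]
    refine congrArg _ (List.map_congr_left fun γ hγ => ?_)
    have h1 : γ * u.1 ∈ GG M F := mul_mem (wds_mem M t γ hγ) u.2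
    simp only [Function.comp_apply, List.map_map, sum_map_toList]
    rw [exp_ext, dif_pos h1, exp_apply, Fintype.sum_prod_type]
    simp only [PiLp.smul_apply, WithLp.ofLp_sum, Finset.sum_apply, hq, heis_avg, ← sum_div,
      smul_eq_mul]
    rw [show ∀ x : ℝ, 4 * (Fintype.card F : ℝ) * (1 / 4 * (x / Fintype.card F)) = x from
      fun x => by field_simp]
    refine sum_congr rfl fun i _ => sum_congr rfl fun c _ => ?_
    rw [mul_assoc, exp_ext, dif_pos (mul_mem (gen_mem _ _) h1)]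
    rfl

theorem exp_count {α : Type} (L : List α) (p : α → Prop) [DecidablePred p] :
    ((L.filter fun γ => decide (p γ)).length : ℝ) = (L.map fun γ => if p γ then 1 else 0).sum := by
  induction L with
  | nil => simp
  | cons a L ih =>
    by_cases h : p a
    · simp only [List.filter_cons, h, decide_true, if_true, List.length_cons, List.map_cons,
        List.sum_cons, ← ih]
      push_cast
      ring
    · simp only [List.filter_cons, h, decide_false, if_false, List.map_cons, List.sum_cons, ← ih,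
        zero_add, Bool.false_eq_true]

open Classical in
/-- Sketch: `S = grpvex_sys M F`, `q` from `S.quad`, `A = (1/4) ∑ P i`. For `v` in `Perp`,
`‖A v‖² ≤ (1/4) ∑ ‖P i v‖² ≤ (13/16) ‖v‖²` (`Quad.gap`, Pythagoras) and `A v` is in `Perp`. The sum
of `f (γ u)` over the words is `(4 Q) ^ t (A ^ t f) u`. Split the indicator of `H` by `heis_split`;
the invariant part is at most `#H / N ≤ 7/8` everywhere (`grpvex_orb`). So `A ^ t v ≥ 1/16` on `X`
and `#X / 256 ≤ (13/16) ^ t N`; `(13/16) ^ 4 ≤ 1/2`. -/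
theorem wds_exp [CharP F 2] (hK : 81 ≤ Fintype.card F) (M j : ℕ) (X H : Finset (Mat M F))
    (hX : X ⊆ GS M F) (hH : H ⊆ GS M F) (h : 8 * #H ≤ 7 * #(GS M F))
    (hx : ∀ u ∈ X, 15 * (wds M F (4 * (j + 13))).length ≤
      16 * ((wds M F (4 * (j + 13))).filter fun γ => decide (γ * u ∈ H)).length) :
    2 ^ (j + 5) * #X ≤ #(GS M F) := by
  have hg : (0 : ℝ) < #(GS M F) := Nat.cast_pos.2 GS_pos
  have cd : ∀ Z : Finset (Mat M F), Z ⊆ GS M F → #{u : GG M F | u.1 ∈ Z} = #Z := fun Z hZ =>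
    card_bij (fun u _ => u.1) (fun u hu => (mem_filter.1 hu).2)
      (fun u _ v _ e => Subtype.ext e) fun u hu =>
        ⟨⟨u, (mem_GS u).1 (hZ hu)⟩, mem_filter.2 ⟨mem_univ _, hu⟩, rfl⟩
  obtain ⟨q, hq⟩ := (grpvex_sys M F).quad
  obtain ⟨w, v, e, h1, h2, h3, h4⟩ := heis_split _ q hq hg grpvex_orb {u | u.1 ∈ H}
  rw [cd H hH] at h3 h4
  have h' : (8 : ℝ) * #H ≤ 7 * #(GS M F) := by exact_mod_cast h
  have hH0 : (0 : ℝ) ≤ #H := Nat.cast_nonneg _
  have hw : ∀ y, w y ≤ 7 / 8 := fun y => by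
    have a1 := grpvex_orb (M := M) (F := F) w (fun i => heis_inv (hq i ▸ h1 i)) y
    rw [← EuclideanSpace.real_norm_sq_eq] at a1
    have a2 := (le_div_iff₀ hg).1 (a1.trans h3)
    refine (abs_le_of_sq_le_sq' (le_of_mul_le_mul_left ?_ (mul_pos hg hg)) (by norm_num)).2
    nlinarith
  generalize ht : 4 * (j + 13) = t at hx
  have hQ : (0 : ℝ) < (4 * Fintype.card F : ℝ) ^ t := by
    have : (0 : ℝ) < Fintype.card F := Nat.cast_pos.2 Fintype.card_pos
    positivity
  have hv : ∀ y : GG M F, y.1 ∈ X → (1 / 16 : ℝ) ^ 2 ≤ (exp_A q ^ t) v y ^ 2 := fun y hy => by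
    have a1 : (15 : ℝ) * (4 * Fintype.card F : ℝ) ^ t ≤
        16 * (((wds M F t).filter fun γ => decide (γ * y.1 ∈ H)).length : ℝ) := by
      have := hx _ hy
      rw [wds_length] at this
      exact_mod_cast this
    rw [exp_count, List.map_congr_left (g := fun γ => exp_ext (heis_ind {u | u.1 ∈ H}) (γ * y.1))
      fun γ hγ => by
        rw [exp_ext, dif_pos (mul_mem (wds_mem M t γ hγ) y.2), heis_ind_apply]
        simp, exp_sum q hq, e, map_add, exp_fix q h1, PiLp.add_apply, mul_left_comm,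
      mul_comm] at a1
    have a2 := le_of_mul_le_mul_left a1 hQ
    exact pow_le_pow_left₀ (by norm_num) (by linarith [hw y]) 2
  have b1 : (#X : ℝ) * (1 / 16) ^ 2 ≤ ‖(exp_A q ^ t) v‖ ^ 2 := by
    rw [EuclideanSpace.real_norm_sq_eq, ← cd X hX, ← nsmul_eq_mul]
    exact (card_nsmul_le_sum _ _ _ fun y hy => hv y (mem_filter.1 hy).2).trans
      (sum_le_sum_of_subset_of_nonneg (subset_univ _) fun _ _ _ => sq_nonneg _)
  have b2 := (exp_pow q (by positivity) (heis_eps hK) h2 t).2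
  have b3 : (13 / 16 : ℝ) ^ t * 2 ^ (j + 13) ≤ 1 := by
    rw [← ht, pow_mul, ← mul_pow]
    exact pow_le_one₀ (by norm_num) (by norm_num)
  have b4 : ‖v‖ ^ 2 ≤ #(GS M F) := by linarith [sq_nonneg ‖w‖]
  have b5 := mul_le_mul_of_nonneg_right ((b1.trans b2).trans
    (mul_le_mul_of_nonneg_left b4 (by positivity))) (show (0 : ℝ) ≤ 2 ^ (j + 13) by positivity)
  have b6 := mul_le_mul_of_nonneg_right b3 hg.le
  rw [← Nat.cast_le (α := ℝ)]
  push_cast
  rw [show j + 13 = j + 5 + 8 by ring, pow_add _ _ 8] at b5 b6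
  nlinarith

end Pool.Agent.Lib.MP_45faa6_lc.TR
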