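import Pool.Agent.Lib.MP_45faa6_lc.Defs
import Pool.Agent.Lib.MP_45faa6_lc.NL.Defs
import Pool.Agent.Lib.MP_73cdf8_lc.Sim
import Pool.Agent.Lib.Common.CookLevin.MorePT

/-!
The graph of consistent accepting views of a verifier.
-/

set_option autoImplicit false

namespace Pool.Agent.Lib.MP_45faa6_lc.TR

open Finset Pool.Agent.Lib.MP_45faa6_lc.NL Pool.Agent.Lib.MP_acf5a6_lc Pool.Agent.Lib.MP_73cdf8_lc
  Pool.Agent.Lib.Common.CookLevin

/-- The positions read, each with its answer. -/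
def view (l : List ℕ) (a : List Bool) : List (ℕ × Bool) :=
  l.zipIdx.map fun p => (p.1, a.getD p.2 false)

theorem mem_view {l : List ℕ} {a : List Bool} {p : ℕ × Bool} :
    p ∈ view l a ↔ ∃ i, ∃ h : i < l.length, p = (l[i], a.getD i false) := by
  simp only [view, List.mem_map, List.mem_zipIdx_iff_getElem?, List.getElem?_eq_some_iff]
  constructor
  · rintro ⟨q, ⟨h, e⟩, rfl⟩
    exact ⟨q.2, h, by rw [e]⟩
  · rintro ⟨i, h, rfl⟩
    exact ⟨(l[i], i), ⟨h, rfl⟩, rfl⟩

theorem fglss {X : Type} [N487b59b3 X] {β : ℝ} {r q : X → ℝ} {Y N : Set X}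
    (h : InPCP 1 β r q Y N) :
    ∃ (R : X → ℕ) (A : X × (List Bool × List Bool) × (List Bool × List Bool) → Bool),
      N68a2faeb.IsPolyTime (fun x => List.replicate (R x) true) ∧ N68a2faeb.IsPolyTime A ∧
      ∀ x, (R x : ℝ) ≤ r x ∧
        (∀ u v, A (x, u, v) = true → u.1.length = R x ∧ (u.2.length : ℝ) ≤ q x) ∧
        (x ∈ Y → ∃ S : Finset (List Bool × List Bool), #S = 2 ^ R x ∧
          ∀ u ∈ S, ∀ v ∈ S, A (x, u, v) = true) ∧
        (x ∈ N → ∀ S : Finset (List Bool × List Bool), (∀ u ∈ S, ∀ v ∈ S, A (x, u, v) = true) →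
          (#S : ℝ) ≤ β * 2 ^ R x) := by
  obtain ⟨R, Q, D, h1, h2, h3, h4⟩ := h
  have p1 := PT_of_isPolyTime h1
  have p2 := PT_of_isPolyTime h2
  have p3 := PT_of_isPolyTime h3
  let A : X × (List Bool × List Bool) × (List Bool × List Bool) → Bool := fun z =>
    decide (z.2.1.1.length = (List.replicate (R z.1) true).length) &&
      decide (z.2.1.2.length = (Q (z.1, z.2.1.1)).length) && D (z.1, z.2.1.1, z.2.1.2) &&
      (!decide (z.2.1.1 = z.2.2.1) || decide (z.2.1.2 = z.2.2.2)) &&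
      (view (Q (z.1, z.2.1.1)) z.2.1.2).all fun p => (view (Q (z.1, z.2.2.1)) z.2.2.2).all fun p' =>
        !decide (p.1 = p'.1) || decide (p.2 = p'.2)
  have hA : ∀ x u v, A (x, u, v) = true ↔ u.1.length = R x ∧ u.2.length = (Q (x, u.1)).length ∧
      D (x, u.1, u.2) = true ∧ (u.1 = v.1 → u.2 = v.2) ∧
      ∀ p ∈ view (Q (x, u.1)) u.2, ∀ p' ∈ view (Q (x, v.1)) v.2, p.1 = p'.1 → p.2 = p'.2 := by
    intro x u v
    simp only [A, Bool.and_eq_true, Bool.or_eq_true, decide_eq_true_eq, List.length_replicate,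
      List.all_eq_true, Bool.not_eq_true', decide_eq_false_iff_not, ← imp_iff_not_or, and_assoc]
  refine ⟨R, A, h1, PT.isPolyTime ?_, fun x => ⟨(h4 x).1, fun u v hu => ?_, fun hx => ?_,
    fun hx S hS => ?_⟩⟩
  · have p4 : PT fun z : X × (List Bool × List Bool) × (List Bool × List Bool) =>
        List.replicate (R z.1) true := PT.comp p1 (by fun_prop)
    simp only [A, view]
    fun_prop
  · obtain ⟨e1, e2, -⟩ := (hA x u v).1 hu
    exact ⟨e1, e2 ▸ (h4 x).2.1 _ e1⟩
  · obtain ⟨π, hπ⟩ := (h4 x).2.2.1 hx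
    have h5 : ∀ ρ : Fin (R x) → Bool,
        D (x, List.ofFn ρ, (Q (x, List.ofFn ρ)).map π) = true := by
      rw [accProb, one_le_div (by positivity)] at hπ
      have h6 : #(univ : Finset (Fin (R x) → Bool)) ≤ #(univ.filter fun ρ : Fin (R x) → Bool =>
          D (x, List.ofFn ρ, (Q (x, List.ofFn ρ)).map π) = true) := by
        rw [card_univ, Fintype.card_fun, Fintype.card_bool, Fintype.card_fin]
        exact_mod_cast hπ
      intro ρ
      have h7 := eq_of_subset_of_card_le (filter_subset _ _) h6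
      exact (filter_eq_self.1 h7) ρ (mem_univ ρ)
    have h8 : ∀ (l : List ℕ), ∀ p ∈ view l (l.map π), p.2 = π p.1 := by
      intro l p hp
      obtain ⟨i, hi, rfl⟩ := mem_view.1 hp
      simp [hi]
    refine ⟨univ.image fun ρ : Fin (R x) → Bool => (List.ofFn ρ, (Q (x, List.ofFn ρ)).map π),
      ?_, fun u hu v hv => ?_⟩
    · rw [card_image_of_injective _ fun a b e => List.ofFn_injective (congrArg Prod.fst e),
        card_univ, Fintype.card_fun, Fintype.card_bool, Fintype.card_fin]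
    · obtain ⟨a, -, rfl⟩ := mem_image.1 hu
      obtain ⟨b, -, rfl⟩ := mem_image.1 hv
      refine (hA _ _ _).2 ⟨by simp, by simp, h5 a, fun e => ?_, fun p hp p' hp' e => ?_⟩
      · simp only at e ⊢
        rw [e]
      · rw [h8 _ p hp, h8 _ p' hp', e]
  · classical
    let π : ℕ → Bool := fun i => decide (∃ u ∈ S, (i, true) ∈ view (Q (x, u.1)) u.2)
    have h5 : ∀ u ∈ S, (Q (x, u.1)).map π = u.2 := by
      intro u hu
      obtain ⟨-, e2, -⟩ := (hA x u u).1 (hS u hu u hu)
      refine List.ext_getElem (by simp [e2]) fun i hi hi' => ?_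
      rw [List.length_map] at hi
      have h6 : ((Q (x, u.1))[i], u.2[i]) ∈ view (Q (x, u.1)) u.2 :=
        mem_view.2 ⟨i, hi, by simp [hi']⟩
      rw [List.getElem_map]
      cases e : u.2[i] with
      | true => exact decide_eq_true ⟨u, hu, e ▸ h6⟩
      | false =>
        refine decide_eq_false fun ⟨v, hv, h7⟩ => ?_
        have := ((hA x u v).1 (hS u hu v hv)).2.2.2.2 _ h6 _ h7 rfl
        simp [e] at this
    have h6 := (h4 x).2.2.2 hx π
    rw [accProb, div_le_iff₀ (by positivity)] at h6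
    refine le_trans (Nat.cast_le.2 ?_) h6
    rw [← card_image_of_injective _ (List.ofFn_injective (α := Bool) (n := R x))]
    refine card_le_card_of_injOn Prod.fst (fun u hu => ?_) fun u hu v hv e => ?_
    · obtain ⟨e1, -, e3, -⟩ := (hA x u u).1 (hS u hu u hu)
      have e4 : List.ofFn (fun i : Fin (R x) => u.1[i.1]'(i.2.trans_eq e1.symm)) = u.1 :=
        List.ext_getElem (by simp [e1]) fun i _ _ => by simp
      refine mem_coe.2 (mem_image.2 ⟨_, mem_filter.2 ⟨mem_univ _, ?_⟩, e4⟩)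
      rw [e4, h5 u hu]
      exact e3
    · exact Prod.ext e (((hA x u v).1 (hS u hu v hv)).2.2.2.1 e)

theorem fglss_graph {X : Type} [N487b59b3 X] {β : ℝ} {r q : X → ℝ} {Y N : Set X}
    (h : InPCP 1 β r q Y N) :
    ∃ (R : X → ℕ) (A : X × (List Bool × List Bool) × (List Bool × List Bool) → Bool),
      N68a2faeb.IsPolyTime (fun x => List.replicate (R x) true) ∧ N68a2faeb.IsPolyTime A ∧
      ∀ x, (R x : ℝ) ≤ r x ∧
        (∀ u, A (x, u, u) = true → u.1.length = R x ∧ (u.2.length : ℝ) ≤ q x) ∧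
        (x ∈ Y → 2 ^ R x ≤ (SimpleGraph.fromRel fun u v : {u // A (x, u, u) = true} =>
          A (x, u.1, v.1) = true).cliqueNum) ∧
        (x ∈ N → ((SimpleGraph.fromRel fun u v : {u // A (x, u, u) = true} =>
          A (x, u.1, v.1) = true).cliqueNum : ℝ) ≤ β * 2 ^ R x) := by
  obtain ⟨R, A, h1, h2, h3⟩ := fglss h
  have p2 := PT_of_isPolyTime h2
  refine ⟨R, fun z => A z && A (z.1, z.2.2, z.2.1), h1, PT.isPolyTime (by fun_prop), fun x =>
    ⟨(h3 x).1, fun u hu => (h3 x).2.1 u u (Bool.and_eq_true_iff.1 hu).1, fun hx => ?_, fun hx => ?_⟩⟩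
  · obtain ⟨S, hS, h4⟩ := (h3 x).2.2.1 hx
    have h5 : ∀ u ∈ S, ∀ v ∈ S, (A (x, u, v) && A (x, v, u)) = true := fun u hu v hv =>
      Bool.and_eq_true_iff.2 ⟨h4 u hu v hv, h4 v hv u hu⟩
    have : Finite {u // (A (x, u, u) && A (x, u, u)) = true} := by
      refine ((List.finite_length_eq Bool (R x)).prod (List.finite_length_le Bool ⌊q x⌋₊)).subset
        (t := {u | (A (x, u, u) && A (x, u, u)) = true}) fun u hu => ?_
      have h6 := (h3 x).2.1 u u (Bool.and_eq_true_iff.1 hu).1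
      exact ⟨h6.1, Nat.le_floor h6.2⟩
    rw [← hS, ← filter_true_of_mem fun u hu => h5 u hu u hu, ← card_subtype]
    refine SimpleGraph.IsClique.card_le_cliqueNum (tc := fun u hu v hv e => ?_)
    exact (SimpleGraph.fromRel_adj _ _ _).2
      ⟨e, Or.inl (h5 _ (mem_subtype.1 hu) _ (mem_subtype.1 hv))⟩
  · obtain ⟨s, hs⟩ := (SimpleGraph.fromRel fun u v : {u // (A (x, u, u) && A (x, u, u)) = true} =>
      (A (x, u.1, v.1) && A (x, v.1, u.1)) = true).exists_isNClique_cliqueNum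
    rw [← hs.card_eq, ← card_map (Function.Embedding.subtype _)]
    refine (h3 x).2.2.2 hx _ fun u hu v hv => ?_
    obtain ⟨u, hu', rfl⟩ := mem_map.1 hu
    obtain ⟨v, hv', rfl⟩ := mem_map.1 hv
    by_cases e : u = v
    · exact e ▸ (Bool.and_eq_true_iff.1 u.2).1
    · rcases ((SimpleGraph.fromRel_adj _ _ _).1 (hs.isClique hu' hv' e)).2 with h6 | h6
      exacts [(Bool.and_eq_true_iff.1 h6).1, (Bool.and_eq_true_iff.1 h6).2]

theorem logb_nat_nonneg (n : ℕ) : 0 ≤ Real.logb 2 n := by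
  rcases Nat.eq_zero_or_pos n with rfl | hn
  · simp
  · exact Real.logb_nonneg one_lt_two (by exact_mod_cast hn)

theorem coins_le (n : ℕ) {k : ℕ} (hk : 1 ≤ k) :
    n * Real.logb 2 n / ((n / k + k + 2 : ℕ) * Real.logb 2 (n / k + k + 2 : ℕ)) ≤ 2 * k := by
  rcases Nat.eq_zero_or_pos n with rfl | hn
  · simp
  set s := n / k + k + 2 with hs
  have hk' : (1 : ℝ) ≤ k := by exact_mod_cast hk
  have hn1 : (1 : ℝ) ≤ n := by exact_mod_cast hn
  have h1 : n ≤ k * s := by
    have := Nat.lt_mul_div_succ n hk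
    rw [hs]
    nlinarith
  have h2 : k ≤ s := (Nat.le_add_left _ _).trans (Nat.le_add_right _ _)
  have h3 : (2 : ℝ) ≤ s := by exact_mod_cast (Nat.le_add_left _ _ : 2 ≤ s)
  have h4 : 0 < Real.logb 2 s := Real.logb_pos one_lt_two (by linarith)
  have h5 : Real.logb 2 n ≤ 2 * Real.logb 2 s := by
    have h6 : Real.logb 2 ((s : ℝ) ^ 2) = 2 * Real.logb 2 s := by
      rw [Real.logb_pow]
      norm_num
    rw [← h6]
    refine Real.logb_le_logb_of_le one_lt_two (by linarith) ?_
    exact_mod_cast h1.trans (by nlinarith)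
  have h7 : (n : ℝ) ≤ k * s := by exact_mod_cast h1
  rw [div_le_iff₀ (by positivity)]
  calc n * Real.logb 2 n ≤ (k * s) * (2 * Real.logb 2 s) :=
        mul_le_mul h7 h5 (logb_nat_nonneg n) (by positivity)
    _ = _ := by ring

/-- For every `k`, a graph on `O(k) 2 ^ O(n / k + k)` vertices, given by a vertex and adjacency
test of polynomial time in the formula, with a constant gap in the clique number `O(k)`. -/
theorem clique_gap {β D E : ℝ} (h : ∀ s : CNF → ℕ,
    N68a2faeb.IsPolyTime (fun φ => List.replicate (s φ) true) → (∀ φ, 2 ≤ s φ) →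
    InPCP 1 β (fun φ : CNF => Real.logb 2 (1 + csize φ * Real.logb 2 (csize φ) /
      (s φ * Real.logb 2 (s φ))) + D) (fun φ => E * s φ) ThreeSAT ThreeSATᶜ) :
    ∃ C : ℝ, ∀ k : ℕ, 1 ≤ k →
      ∃ (R : CNF → ℕ) (A : CNF × (List Bool × List Bool) × (List Bool × List Bool) → Bool),
        N68a2faeb.IsPolyTime (fun φ => List.replicate (R φ) true) ∧ N68a2faeb.IsPolyTime A ∧
        ∀ φ, (2 : ℝ) ^ R φ ≤ C * k ∧
          (∀ u, A (φ, u, u) = true →
            u.1.length = R φ ∧ (u.2.length : ℝ) ≤ C * (csize φ / k + k)) ∧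
          (φ ∈ ThreeSAT → 2 ^ R φ ≤ (SimpleGraph.fromRel fun u v : {u // A (φ, u, u) = true} =>
            A (φ, u.1, v.1) = true).cliqueNum) ∧
          (φ ∉ ThreeSAT → ((SimpleGraph.fromRel fun u v : {u // A (φ, u, u) = true} =>
            A (φ, u.1, v.1) = true).cliqueNum : ℝ) ≤ β * 2 ^ R φ) := by
  refine ⟨3 * (2 ^ D + |E|), fun k hk => ?_⟩
  have hs : PT fun φ : CNF => List.replicate (csize φ / k + k + 2) true := by
    refine PT.of_eq (f := fun φ : CNF => (rng (ulen (φ.flatMap fun c => c))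
      ((φ.flatMap fun c => c).length / k)).map (fun _ => true) ++ List.replicate (k + 2) true)
      (by unfold rng; fun_prop) fun φ => ?_
    rw [rng_eq (p := ulen (φ.flatMap fun c => c)) (i := (φ.flatMap fun c => c).length / k)
      (Nat.div_le_self _ _), add_assoc, List.replicate_add (_ / _)]
    simp [csize]
  obtain ⟨R, A, h1, h2, h3⟩ := fglss_graph (h _ hs.isPolyTime fun _ => Nat.le_add_left _ _)
  refine ⟨R, A, h1, h2, fun φ => ⟨?_, fun u hu => ⟨((h3 φ).2.1 u hu).1,
    ((h3 φ).2.1 u hu).2.trans ?_⟩, (h3 φ).2.2⟩⟩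
  all_goals
    have hk' : (1 : ℝ) ≤ k := by exact_mod_cast hk
    have hD : (0 : ℝ) < 2 ^ D := by positivity
    have hE := abs_nonneg E
  · have h4 := coins_le (csize φ) hk
    have h5 : 0 ≤ csize φ * Real.logb 2 (csize φ) /
        ((csize φ / k + k + 2 : ℕ) * Real.logb 2 (csize φ / k + k + 2 : ℕ)) :=
      div_nonneg (mul_nonneg (Nat.cast_nonneg _) (logb_nat_nonneg _))
        (mul_nonneg (Nat.cast_nonneg _) (logb_nat_nonneg _))
    have h6 := Real.rpow_le_rpow_of_exponent_le one_le_two (h3 φ).1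
    rw [Real.rpow_natCast, Real.rpow_add two_pos,
      Real.rpow_logb two_pos (by norm_num) (by linarith)] at h6
    nlinarith
  · have h4 : (0 : ℝ) ≤ csize φ / k := by positivity
    have h5 : ((csize φ / k + k + 2 : ℕ) : ℝ) ≤ 3 * (csize φ / k + k) := by
      have := Nat.cast_div_le (α := ℝ) (m := csize φ) (n := k)
      push_cast
      linarith
    have h6 := mul_le_mul (le_abs_self E) h5 (Nat.cast_nonneg _) hE
    nlinarith

end Pool.Agent.Lib.MP_45faa6_lc.TR
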