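import Pool.Agent.Lib.MP_45faa6_lc.NL.SoundA

/-!
Many words with a common bad set are jointly close to the code.
-/

set_option autoImplicit false

namespace Pool.Agent.Lib.MP_45faa6_lc.TR

open Finset Pool.Agent.Lib.MP_45faa6_lc.NL

/-- Sketch: induction on `I` for all `Y`; split `Y` by `f i x ≠ 0`; on that part one of `J`,
`insert i J` gives a nonzero sum at half of the points, on the rest the two sums agree. -/
theorem half_sum {ι X F : Type} [DecidableEq ι] [AddCommGroup F] [DecidableEq F] (f : ι → X → F)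
    (I : Finset ι) (Y : Finset X) (h : ∀ x ∈ Y, ∃ i ∈ I, f i x ≠ 0) :
    ∃ J ⊆ I, #Y ≤ 2 * #{x ∈ Y | ∑ i ∈ J, f i x ≠ 0} := by
  classical
  induction I using Finset.induction_on generalizing Y with
  | empty =>
    refine ⟨∅, Subset.rfl, ?_⟩
    rw [eq_empty_of_forall_notMem (s := Y) fun x hx => by simpa using h x hx]
    simp
  | insert i I hi ih =>
    obtain ⟨J, hJ, h0⟩ := ih {x ∈ Y | ¬f i x ≠ 0} fun x hx => by
      obtain ⟨j, hj, h1⟩ := h x (mem_filter.1 hx).1
      rcases mem_insert.1 hj with rfl | hj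
      · exact absurd h1 (mem_filter.1 hx).2
      · exact ⟨j, hj, h1⟩
    have hiJ : i ∉ J := fun h => hi (hJ h)
    have split : ∀ J' : Finset ι, #{x ∈ Y | ∑ j ∈ J', f j x ≠ 0} =
        #{x ∈ {x ∈ Y | f i x ≠ 0} | ∑ j ∈ J', f j x ≠ 0} +
          #{x ∈ {x ∈ Y | ¬f i x ≠ 0} | ∑ j ∈ J', f j x ≠ 0} := fun J' => by
      rw [filter_comm, filter_comm (fun x => ¬f i x ≠ 0), card_filter_add_card_filter_not]
    have h1 : #{x ∈ Y | f i x ≠ 0} ≤ #{x ∈ {x ∈ Y | f i x ≠ 0} | ∑ j ∈ J, f j x ≠ 0} +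
        #{x ∈ {x ∈ Y | f i x ≠ 0} | ∑ j ∈ insert i J, f j x ≠ 0} := by
      refine (card_le_card fun x hx => ?_).trans (card_union_le _ _)
      by_cases h2 : ∑ j ∈ J, f j x = 0
      · refine mem_union_right _ (mem_filter.2 ⟨hx, ?_⟩)
        rw [sum_insert hiJ, h2, add_zero]
        exact (mem_filter.1 hx).2
      · exact mem_union_left _ (mem_filter.2 ⟨hx, h2⟩)
    have h2 : {x ∈ {x ∈ Y | ¬f i x ≠ 0} | ∑ j ∈ insert i J, f j x ≠ 0} =
        {x ∈ {x ∈ Y | ¬f i x ≠ 0} | ∑ j ∈ J, f j x ≠ 0} := filter_congr fun x hx => by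
      rw [sum_insert hiJ, not_not.1 (mem_filter.1 hx).2, zero_add]
    have h3 := card_filter_add_card_filter_not (s := Y) fun x => f i x ≠ 0
    have h4 := split J
    have h5 := split (insert i J)
    rw [h2] at h5
    by_cases h6 : #{x ∈ {x ∈ Y | f i x ≠ 0} | ∑ j ∈ J, f j x ≠ 0} ≤
        #{x ∈ {x ∈ Y | f i x ≠ 0} | ∑ j ∈ insert i J, f j x ≠ 0}
    · exact ⟨insert i J, insert_subset_insert i hJ, by omega⟩
    · exact ⟨J, hJ.trans (subset_insert i I), by omega⟩

variable {M : ℕ} {F : Type} [Field F] [CharP F 2] [Fintype F] [DecidableEq F]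

/-- Sketch: `decode` each word and each partial sum (`LD.sum`); by induction on `J` and
`zero_of_sparse` (at most `3 * 1056 Q ^ 5 b` nonzero points) the sum of the decoded words is within
`1056 Q ^ 5 b` of the sum of the words; `half_sum`. If `b = 0` use `GS_pos`. -/
theorem decode_all {ι : Type} (e d : ℕ) (hQ : 2 ^ 90 ≤ Fintype.card F)
    (hd : 16 * d ≤ Fintype.card F) (I : Finset ι) (f : ι → XX M F → F) (B : Finset (XX M F))
    (b : ℕ) (hb : #B ≤ b) (hB : ∀ x ∉ B, ∀ k ∈ I, ∀ i, LD d fun c => f k ((mvX e i).act c x))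
    (hb' : 2 ^ 80 * Fintype.card F ^ 5 * b ≤ #(GS M F)) :
    ∃ (w : ι → XX M F → F) (D : Finset (XX M F)),
      (∀ k i x, LD d fun c => w k ((mvX e i).act c x)) ∧
      #D ≤ 2112 * Fintype.card F ^ 5 * b ∧ ∀ x ∉ D, ∀ k ∈ I, w k x = f k x := by
  classical
  have hdec : ∀ J : Finset ι, ∃ c : XX M F → F,
      (∀ i x, LD d fun t => c ((mvX e i).act t x)) ∧
      (J ⊆ I → #{x | c x ≠ ∑ k ∈ J, f k x} ≤ 1056 * (Fintype.card F ^ 5 * b)) := fun J => by
    by_cases hJ : J ⊆ I
    · obtain ⟨c, h1, h2⟩ := decode e d hQ hd (fun x => ∑ k ∈ J, f k x) b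
        ((card_le_card fun x hx => by_contra fun hn => (mem_filter.1 hx).2.elim fun i hi =>
          hi (LD.sum J fun k hk => hB x hn k (hJ hk) i)).trans hb) hb'
      exact ⟨c, h1, fun _ => h2.trans_eq (mul_assoc _ _ _)⟩
    · exact ⟨fun _ => 0, fun _ _ => LD.const _ _, fun h => absurd h hJ⟩
  choose c hc hc' using hdec
  have h6 := GS_pos (M := M) (F := F)
  rw [mul_assoc] at hb'
  have hsum : ∀ J ⊆ I, ∀ x, c J x = ∑ k ∈ J, c {k} x := fun J => by
    induction J using Finset.induction_on with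
    | empty =>
      intro hJ x
      have h1 := hc' ∅ hJ
      simp only [sum_empty] at h1 ⊢
      exact zero_of_sparse e d hQ (by omega) _ (fun i _ => hc ∅ i) (by omega) x
    | insert k J hk ih =>
      intro hJ x
      have hJ' : J ⊆ I := (subset_insert k J).trans hJ
      have h1 := hc' _ hJ
      have h2 := hc' {k} (singleton_subset_iff.2 (hJ (mem_insert_self k J)))
      have h3 := hc' J hJ'
      rw [sum_insert hk, ← ih hJ' x, ← sub_eq_zero]
      refine zero_of_sparse e d hQ (by omega) (fun x => c (insert k J) x - (c {k} x + c J x))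
        (fun i _ y => (hc _ i y).sub ((hc _ i y).add (hc _ i y))) ?_ x
      refine lt_of_le_of_lt (Nat.mul_le_mul_left _ ((card_le_card fun y hy => ?_).trans
        ((card_union_le _ _).trans (add_le_add h1 ((card_union_le _ _).trans
          (add_le_add h2 h3)))))) (by omega)
      by_contra hn
      simp only [mem_union, mem_filter, mem_univ, true_and, not_or, not_not, sum_singleton] at hn
      refine (mem_filter.1 hy).2 ?_
      rw [hn.1, hn.2.1, hn.2.2, sum_insert hk, sub_self]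
  obtain ⟨J, hJ, h1⟩ := half_sum (fun k x => c {k} x - f k x) I
    {x | ∃ k ∈ I, c {k} x - f k x ≠ 0} fun x hx => (mem_filter.1 hx).2
  refine ⟨fun k => c {k}, _, fun k => hc _, h1.trans ?_, fun x hx k hk => ?_⟩
  · refine (Nat.mul_le_mul_left 2 ((card_le_card fun x hx => ?_).trans (hc' J hJ))).trans_eq
      (by ring)
    refine mem_filter.2 ⟨mem_univ _, fun h2 => (mem_filter.1 hx).2 ?_⟩
    rw [sum_sub_distrib, ← hsum J hJ x, h2, sub_self]
  · by_contra hn
    exact hx (mem_filter.2 ⟨mem_univ _, k, hk, sub_ne_zero.2 hn⟩)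

end Pool.Agent.Lib.MP_45faa6_lc.TR
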