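import Pool.Agent.Lib.MP_45faa6_lc.TR.Eng
import Pool.Agent.Lib.MP_45faa6_lc.TR.Exp
import Pool.Agent.Lib.MP_45faa6_lc.TR.ESpec
import Pool.Agent.Lib.MP_45faa6_lc.TR.EPT

/-!
The labelling of the wires of the group by clauses.
-/

set_option autoImplicit false
set_option linter.unusedSectionVars false

namespace Pool.Agent.Lib.MP_45faa6_lc.TR

open Finset Pool.Agent.Lib.MP_45faa6_lc.NL Pool.Agent.Lib.MP_acf5a6_lc
  Pool.Agent.Lib.Common.CookLevin

variable {F : Type} [Field F] [Fintype F] [DecidableEq F]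

/-- The length of the words. -/
def uT (j : Un) : Un := (Un.mk 4).mul (j.add ⟨13⟩)

/-- All words applied to `u`. -/
noncomputable def shs (M j : Un) (u : LM F) : List (LM F) :=
  (fun l => l.flatMap fun v => nbrsL M v)^[(uT j).n] [u]

/-- The number of ports. -/
noncomputable def uq (F : Type) [Field F] [Fintype F] (M j : Un) : Un := ulen (shs M j (oneL F M))

/-- The host. -/
noncomputable def host (M j : Un) (L : List (LM F)) : Hs :=
  (ulen L, (uq F M j).n, pow2 j, pow2 (j.add ⟨5⟩), L.flatMap fun u => (shs M j u).map (idx L))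

/-- The wire that leaves `u` by port `k`, or enters `u` by port `k`. -/
def wireAt (P : Hs) (u k : ℕ) (b : Bool) : ℕ :=
  cond b (((wires P).filter fun w =>
    decide (w = hT P w * hq P + k) && decide (hH P w = u)).headD 0) (u * hq P + k)

/-- The labels. -/
noncomputable def clab (φ : CNF) (M j : Un) (L : List (LM F)) (u : LM F) (k : ℕ) (b : Bool) : ℕ :=
  wl (embed (host M j L) (nbs φ)) (wireAt (host M j L) (idx L u) k b)

theorem laba_it (M : Un) (u : Mat M.n F) (t : ℕ) :
    (fun l : List (LM F) => l.flatMap fun v => nbrsL M v)^[t] [toL u] =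
      (wds M.n F t).map fun γ => toL (γ * u) := by
  induction t with
  | zero => simp [wds]
  | succ t ih =>
    rw [Function.iterate_succ_apply', ih, wds, List.flatMap_map, List.map_flatMap]
    congr 1
    funext γ
    rw [nbrsL, List.map_map]
    refine List.map_congr_left fun p _ => ?_
    exact (eeL_toL ⟨p.1.val, by omega⟩ p.2 M _).trans
      (congrArg toL ((ee_left _ p.1.isLt p.2 _).trans (mul_assoc _ _ _).symm))

theorem shs_toL (M j : Un) (u : Mat M.n F) :
    shs M j (toL u) = (wds M.n F (4 * (j.n + 13))).map fun γ => toL (γ * u) :=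
  laba_it M u _

theorem laba_q (M j : Un) : (uq F M j).n = (wds M.n F (4 * (j.n + 13))).length := by
  change (shs M j (oneL F M)).length = _
  rw [oneL_eq, shs_toL, List.length_map]

theorem uq_n (M j : Un) : (uq F M j).n = (4 * Fintype.card F) ^ (4 * (j.n + 13)) := by
  rw [laba_q, wds_length]

theorem laba_cnt {β : Type} (W : List β) (p : β → Bool) (d : β) :
    #{k ∈ range W.length | p (W.getD k d) = true} = (W.filter p).length := by
  have h : W = (List.range W.length).map fun k => W.getD k d :=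
    List.ext_getElem (by simp) fun i h1 _ => by simp [h1]
  conv_rhs => rw [h, List.filter_map, List.length_map]
  simp [Finset.card, Finset.filter, Finset.range, Multiset.range, Function.comp_def]

theorem laba_idx {M : ℕ} {l : List (Mat M F)} (hl : l.Nodup) {v : ℕ} (h : v < l.length) :
    idx (l.map toL) (toL l[v]) = v := by
  rw [← List.getElem_map (l := l) toL (h := by simpa using h)]
  exact lab_idx (hl.map toL_inj) _

theorem laba_W (M j : Un) (l : List (Mat M.n F)) :
    hW (host M j (l.map toL)) = l.length * (uq F M j).n := by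
  change ((l.map toL).flatMap fun u => (shs M j u).map (idx (l.map toL))).length = _
  rw [List.flatMap_map, List.length_flatMap]
  simp only [List.length_map, shs_toL, ← laba_q, List.map_const', List.sum_replicate, smul_eq_mul]

theorem laba_H (M j : Un) (l : List (Mat M.n F)) {v k : ℕ} (hv : v < l.length)
    (hk : k < (uq F M j).n) : hH (host M j (l.map toL)) (v * (uq F M j).n + k) =
      idx (l.map toL) (toL ((wds M.n F (4 * (j.n + 13))).getD k 1 * l[v])) := by
  change ((l.map toL).flatMap fun u => (shs M j u).map (idx (l.map toL))).getD _ 0 = _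
  rw [List.flatMap_map, flat_getD l _ (uq F M j).n
    (fun x _ => by rw [List.length_map, shs_toL, List.length_map, laba_q]) 0 hv hk]
  rw [laba_q] at hk
  rw [shs_toL, List.getD_eq_getElem _ _ (by simpa using hk), List.getD_eq_getElem _ _ hk,
    List.getElem_map, List.getElem_map]

/-- Sketch: `N = l.length`, `v ↦ l[v]` is a bijection from `range N` to `GS` (see `NL.labs_spec`);
wire `u * q + k` has the head `idx (γ k * l[u])` (`flat_getD`); `wds_exp` gives `exp`. -/
theorem host_ok [CharP F 2] (hQ : Fintype.card F = 2 ^ 96) {φ : CNF} (hφ : okF φ = true) (M j : Un)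
    (hj : 1 ≤ j.n) (l : List (Mat M.n F)) (hl : l.Nodup) (hl' : ∀ u, u ∈ l ↔ u ∈ GG M.n F)
    (hbig : 2 ^ 19 * (Nat.size l.length / j.n + 3) * φ.length ≤ (uq F M j).n * l.length) :
    Ok (host M j (l.map toL)) (nbs φ) ((uq F M j).n / 1024) (Nat.size l.length / j.n + 1) := by
  obtain ⟨ι, hι⟩ : ∃ ι : Mat M.n F → ℕ, ι = fun u => idx (l.map toL) (toL u) := ⟨_, rfl⟩
  have hι' : ∀ u, idx (l.map toL) (toL u) = ι u := fun u => by rw [hι]
  have h1 : ∀ v (h : v < l.length), ι l[v] = v := fun v h => (hι' _).symm.trans (laba_idx hl h)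
  have h2 : ∀ u ∈ GG M.n F, ∃ h : ι u < l.length, l[ι u] = u := fun u hu => by
    obtain ⟨v, h, rfl⟩ := List.getElem_of_mem ((hl' u).2 hu)
    simp only [h1 v h]
    exact ⟨h, trivial⟩
  have lt : ∀ u ∈ GG M.n F, ι u < l.length := fun u hu => (h2 u hu).1
  have inj : ∀ u ∈ GG M.n F, ∀ u' ∈ GG M.n F, ι u = ι u' → u = u' := fun u hu u' hu' e => by
    rw [← (h2 u hu).2, ← (h2 u' hu').2]
    simp only [e]
  have hc : ∀ Z ⊆ range l.length, Finset.card {u ∈ GS M.n F | ι u ∈ Z} = Z.card := fun Z hZ =>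
    card_bij (fun u _ => ι u) (fun u hu => (mem_filter.1 hu).2)
      (fun u hu v hv => inj u ((mem_GS _).1 (mem_filter.1 hu).1) v
        ((mem_GS _).1 (mem_filter.1 hv).1)) fun v hv => by
      have h := mem_range.1 (hZ hv)
      exact ⟨l[v], mem_filter.2 ⟨(mem_GS _).2 ((hl' _).1 (List.getElem_mem h)),
        (h1 v h).symm ▸ hv⟩, h1 v h⟩
  have hG : (GS M.n F).card = l.length := by
    have := hc _ Subset.rfl
    rwa [card_range, filter_true_of_mem fun u hu => mem_range.2 (lt u ((mem_GS _).1 hu))] at this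
  have eN : hN (host M j (l.map toL)) = l.length := List.length_map _
  have eq : hq (host M j (l.map toL)) = (uq F M j).n := rfl
  have ek : hk (host M j (l.map toL)) = 2 ^ j.n := rfl
  have eK : hK (host M j (l.map toL)) = 2 ^ (j.n + 5) := rfl
  have eW := laba_W M j l
  obtain ⟨b, hb, hb0⟩ : ∃ b, (uq F M j).n = 1024 * (16 * b) ∧ 0 < b := by
    refine ⟨2 ^ 84 * (4 * Fintype.card F) ^ (4 * (j.n + 12) + 3), ?_, by rw [hQ]; positivity⟩
    rw [uq_n, show 4 * (j.n + 13) = 4 * (j.n + 12) + 3 + 1 by ring, pow_succ]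
    generalize (4 * Fintype.card F) ^ (4 * (j.n + 12) + 3) = y
    rw [hQ]
    ring
  have hq0 : 0 < (uq F M j).n := by omega
  have ha : (uq F M j).n / 1024 = 16 * b := by omega
  have wd : ∀ w < hW (host M j (l.map toL)), ∃ h : w / (uq F M j).n < l.length,
      hH (host M j (l.map toL)) w = ι ((wds M.n F (4 * (j.n + 13))).getD (w % (uq F M j).n) 1 *
        l[w / (uq F M j).n]) := fun w hw => by
    have h : w / (uq F M j).n < l.length := (Nat.div_lt_iff_lt_mul hq0).2 (eW ▸ hw)
    refine ⟨h, ?_⟩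
    rw [← hι', ← laba_H M j l h (Nat.mod_lt _ hq0), Nat.div_add_mod']
  have mem : ∀ k, (wds M.n F (4 * (j.n + 13))).getD k 1 ∈ GG M.n F := fun k => by
    by_cases h : k < (wds M.n F (4 * (j.n + 13))).length
    · rw [List.getD_eq_getElem _ _ h]
      exact wds_mem _ _ _ (List.getElem_mem h)
    · rw [List.getD_eq_default _ _ (not_lt.1 h)]
      exact one_mem _
  have h2j : 2 ≤ 2 ^ j.n := Nat.pow_le_pow_right (n := 2) two_pos hj
  have ex := wds_exp (F := F) (by rw [hQ]; norm_num) M.n j.n
  have eL := laba_q (F := F) M j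
  generalize wds M.n F (4 * (j.n + 13)) = W at *
  generalize host M j (l.map toL) = P at *
  generalize (uq F M j).n = q at *
  have eT : ∀ w, hT P w = w / q := fun w => by rw [hT, eq]
  refine ⟨eN ▸ hG ▸ GS_pos, by omega, by omega, by rw [eW, eN, eq], fun w hw => ?_, ek ▸ h2j, ?_,
    ?_, fun X H hX hH h hx => ?_, ⟨fun v w h => nbs_length φ ▸ nbs_lt φ v w h, nbs_symm φ⟩,
    nbs_deg hφ, ?_⟩
  · obtain ⟨h, e⟩ := wd w hw
    rw [e, eN]
    exact lt _ (mul_mem (mem _) ((hl' _).1 (List.getElem_mem h)))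
  · rw [ek, eK, pow_add]
    omega
  · rw [eN, ek, ← pow_mul]
    exact (Nat.lt_size_self _).trans_le
      (Nat.pow_le_pow_right two_pos (Nat.lt_mul_div_succ _ hj).le)
  · rw [eN] at hX hH h ⊢
    have := ex {u ∈ GS M.n F | ι u ∈ X} {u ∈ GS M.n F | ι u ∈ H} (filter_subset _ _)
      (filter_subset _ _) (by rwa [hc H hH, hG]) fun u hu => by
        obtain ⟨k1, k2⟩ := mem_filter.1 hu
        have k3 := (mem_GS _).1 k1
        have k4 := hx _ k2
        rw [eq] at k4
        rw [← laba_cnt _ _ 1, ← eL]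
        refine k4.trans (Nat.mul_le_mul_left _
          (card_le_card_of_injOn (fun w => w % q) (fun w hw => ?_) fun w hw w' hw' e => ?_))
        · obtain ⟨w1, w2, w3⟩ := mem_filter.1 (mem_coe.1 hw)
          obtain ⟨h, e⟩ := wd w (mem_range.1 w1)
          rw [eT] at w2
          simp only [w2, (h2 u k3).2] at e
          rw [e] at w3
          rw [mem_coe, mem_filter]
          exact ⟨mem_range.2 (Nat.mod_lt _ hq0), @decide_eq_true _ (_)
            (mem_filter.2 ⟨(mem_GS _).2 (mul_mem (mem _) k3), w3⟩)⟩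
        · have w1 := (mem_filter.1 (mem_coe.1 hw)).2.1
          have w2 := (mem_filter.1 (mem_coe.1 hw')).2.1
          have w3 : w % q = w' % q := e
          rw [eT] at w1 w2
          rw [← Nat.div_add_mod w q, ← Nat.div_add_mod w' q, w1, w2, w3]
    rwa [hc X hX, hG, ← eK] at this
  · rw [eN, nbs_length, ha]
    rw [hb] at hbig
    refine Nat.le_of_mul_le_mul_left (c := 1024) ?_ (by norm_num)
    calc 1024 * (512 * (Nat.size l.length / j.n + 1 + 2) * φ.length)
        = 2 ^ 19 * (Nat.size l.length / j.n + 3) * φ.length := by ring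
      _ ≤ _ := hbig
      _ = _ := by ring

theorem labb_idx {β : Type} [DecidableEq β] {l : List β} (h : l.Nodup) {v : ℕ}
    (hv : v < l.length) : idx l l[v] = v := by
  rw [idx_eq, h.idxOf_getElem]

/-- Sketch: transport `embed_spec` along `(u, k) ↦ idx u * q + k`; for `inn` the wire found by
`wireAt` is the given one since left multiplication by `γ k` is injective (`grpsys_unit`). -/
theorem clab_spec [CharP F 2] (hQ : Fintype.card F = 2 ^ 96) {φ : CNF} (hφ : okF φ = true)
    (M j : Un) (hj : 1 ≤ j.n) (l : List (Mat M.n F)) (hl : l.Nodup)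
    (hl' : ∀ u, u ∈ l ↔ u ∈ GG M.n F)
    (hbig : 2 ^ 19 * (Nat.size l.length / j.n + 3) * φ.length ≤ (uq F M j).n * l.length) :
    Lab φ (uq F M j).n (fun k => (wds M.n F (4 * (j.n + 13))).getD k 1)
      (fun u => clab φ M j (l.map toL) (toL u)) ∧
    Emb φ (uq F M j).n (fun k => (wds M.n F (4 * (j.n + 13))).getD k 1)
      fun u => clab φ M j (l.map toL) (toL u) := by
  classical
  have ok := host_ok hQ hφ M j hj l hl hl' hbig
  obtain ⟨e1, e2, e3, e4⟩ := embed_spec ok
  rw [nbs_length] at e1 e2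
  obtain ⟨ι, hι⟩ : ∃ ι : Mat M.n F → ℕ, ι = fun u => idx (l.map toL) (toL u) := ⟨_, rfl⟩
  have hι' : ∀ u, idx (l.map toL) (toL u) = ι u := fun u => by rw [hι]
  have hWq : (wds M.n F (4 * (j.n + 13))).length = (uq F M j).n := by rw [wds_length, uq_n]
  have hs := fun u : Mat M.n F => shs_toL M j u
  have hm := wds_mem (F := F) M.n (4 * (j.n + 13))
  generalize wds M.n F (4 * (j.n + 13)) = W at hWq hs hm ⊢
  have hP1 : hq (host M j (l.map toL)) = (uq F M j).n := rfl
  have hP2 : hW (host M j (l.map toL)) = l.length * (uq F M j).n := by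
    rw [ok.W_eq, hP1]
    simp [hN, host, ulen]
  have hP3 : ∀ v (h : v < l.length), ∀ k < (uq F M j).n,
      hH (host M j (l.map toL)) (v * (uq F M j).n + k) = ι (W.getD k 1 * l[v]) := by
    intro v h k hk
    refine (flat_getD (l.map toL) (fun u => (shs M j u).map (idx (l.map toL))) _ (fun x hx => ?_) 0
      (by simpa using h) hk).trans ?_
    · obtain ⟨u, -, rfl⟩ := List.mem_map.1 hx
      rw [List.length_map, hs, List.length_map, hWq]
    · rw [List.getElem_map, hs, List.getD_eq_getElem _ _ (by simpa [hWq] using hk),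
        List.getElem_map, List.getElem_map, hι', List.getD_eq_getElem _ _ (hWq ▸ hk)]
  have hq0 : 0 < (uq F M j).n := by
    have := ok.q_eq
    have := ok.a_ge
    omega
  have hc : (fun u : Mat M.n F => clab φ M j (l.map toL) (toL u)) = fun u k b =>
      wl (embed (host M j (l.map toL)) (nbs φ)) (wireAt (host M j (l.map toL)) (ι u) k b) := by
    funext u k b
    rw [clab, hι']
  rw [hc]
  clear hc hs
  generalize host M j (l.map toL) = P at *
  generalize (uq F M j).n = q at *
  generalize embed P (nbs φ) = E at *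
  have h0 : ∀ u k, wireAt P u k false = u * q + k := fun u k => by rw [wireAt, hP1]; rfl
  have h1 : ∀ v (h : v < l.length), ι l[v] = v := fun v h => by
    rw [← hι', ← List.getElem_map (l := l) toL (h := by simpa using h)]
    exact labb_idx (hl.map toL_inj) _
  have h2 : ∀ u ∈ GG M.n F, ∃ h : ι u < l.length, l[ι u] = u := fun u hu => by
    obtain ⟨v, h, rfl⟩ := List.getElem_of_mem ((hl' u).2 hu)
    simp only [h1 v h]
    exact ⟨h, trivial⟩
  have inj : ∀ u ∈ GG M.n F, ∀ u' ∈ GG M.n F, ι u = ι u' → u = u' := fun u hu u' hu' e => by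
    rw [← (h2 u hu).2, ← (h2 u' hu').2]
    simp only [e]
  have mem : ∀ k, W.getD k 1 ∈ GG M.n F := fun k => by
    by_cases h : k < W.length
    · rw [List.getD_eq_getElem _ _ h]
      exact hm _ (List.getElem_mem h)
    · rw [List.getD_eq_default _ _ (not_lt.1 h)]
      exact one_mem _
  have lt : ∀ u ∈ GG M.n F, ∀ k < q, ι u * q + k < hW P := fun u hu k hk => by
    have := Nat.mul_le_mul_right q (Nat.succ_le_of_lt (h2 u hu).1)
    rw [Nat.succ_mul] at this
    omega
  have tl : ∀ v, ∀ k < q, hT P (v * q + k) = v := fun v k hk => by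
    rw [hT, hP1, mul_comm, Nat.mul_add_div hq0, Nat.div_eq_of_lt hk, add_zero]
  have hd : ∀ u ∈ GG M.n F, ∀ k < q, hH P (ι u * q + k) = ι (W.getD k 1 * u) :=
    fun u hu k hk => by rw [hP3 _ (h2 u hu).1 k hk, (h2 u hu).2]
  have sur : ∀ w < hW P, ∃ u ∈ GG M.n F, ∃ k < q, w = ι u * q + k := fun w hw => by
    have h : w / q < l.length := (Nat.div_lt_iff_lt_mul hq0).2 (hP2 ▸ hw)
    exact ⟨l[w / q], (hl' _).1 (List.getElem_mem h), w % q, Nat.mod_lt _ hq0, by
      rw [h1 _ h, Nat.div_add_mod']⟩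
  have back : ∀ u ∈ GG M.n F, ∀ k < q,
      (l.getD ((ι u * q + k) / q) 1, (ι u * q + k) % q) = (u, k) := fun u hu k hk => by
    have := tl (ι u) k hk
    rw [hT, hP1] at this
    rw [this, List.getD_eq_getElem _ _ (h2 u hu).1, (h2 u hu).2, Nat.mul_add_mod_of_lt hk]
  refine ⟨⟨mem, fun u k => e2 _, fun u hu k hk => ?_⟩, fun c h => ?_,
    fun c u hu k hk v hv k' hk' k1 k2 => ?_, fun c c' k1 k2 => ?_⟩
  · congr 1
    rw [h0, wireAt, cond_true, hP1]
    have k1 : ∀ w, w ∈ (wires P).filter (fun w => decide (w = hT P w * q + k) &&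
        decide (hH P w = ι (W.getD k 1 * u))) ↔ w = ι u * q + k := fun w => by
      simp only [List.mem_filter, mem_wires, Bool.and_eq_true, decide_eq_true_eq]
      constructor
      · rintro ⟨a, b, c⟩
        obtain ⟨v, hv, i, hi, rfl⟩ := sur w a
        rw [tl _ i hi] at b
        obtain rfl : i = k := by omega
        rw [hd v hv i hi] at c
        rw [(grpsys_unit (mem i)).mul_left_cancel
          (inj _ (mul_mem (mem i) hv) _ (mul_mem (mem i) hu) c)]
      · rintro rfl
        exact ⟨lt u hu k hk, by rw [tl _ k hk], hd u hu k hk⟩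
    generalize List.filter _ (wires P) = T at k1
    cases T with
    | nil => exact absurd ((k1 _).2 rfl) List.not_mem_nil
    | cons a T => exact (k1 a).1 List.mem_cons_self
  · obtain ⟨w, hw, e⟩ := e1 c h
    obtain ⟨u, hu, k, hk, rfl⟩ := sur w hw
    exact ⟨u, hu, k, hk, by rw [h0, e]⟩
  · rw [h0] at k1 k2
    have := e3 c _ (lt u hu k hk) _ (lt v hv k' hk') k1 k2
    rw [← back u hu k hk, ← back v hv k' hk']
    generalize ι u * q + k = x at this ⊢
    generalize ι v * q + k' = y at this ⊢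
    induction this with
    | rel x y h =>
      obtain ⟨a1, a2, a3, a4, a5⟩ := h
      obtain ⟨a, ha, i, hi, rfl⟩ := sur x a1
      obtain ⟨b, hb, i', hi', rfl⟩ := sur y a2
      rw [back a ha i hi, back b hb i' hi']
      rw [tl _ i hi, tl _ i' hi', hd a ha i hi] at a5
      exact .rel _ _ ⟨ha, hi, hi', by rw [h0, a3], by rw [h0, a4],
        a5.imp (inj _ hb _ ha) (inj _ hb _ (mul_mem (mem i) ha))⟩
    | refl x => exact .refl _
    | symm x y _ ih => exact .symm _ _ ih
    | trans x y z _ _ ih ih' => exact .trans _ _ _ ih ih'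
  · obtain ⟨x, hx, y, hy, a3, a4, a5⟩ := e4 c c' k1 k2
    obtain ⟨a, ha, i, hi, rfl⟩ := sur x hx
    obtain ⟨b, hb, i', hi', rfl⟩ := sur y hy
    rw [tl _ i hi, tl _ i' hi'] at a5
    obtain rfl := inj _ ha _ hb a5
    exact ⟨a, ha, i, hi, i', hi', by rw [h0, a3], by rw [h0, a4]⟩

variable [N487b59b3 F] {α : Type} [N487b59b3 α]

/-- Sketch: `PT.iterP`; after `i` rounds there are `(4 Q) ^ i` entries, each `u` or an `mmk M`. -/
theorem shs_PT {M j : α → Un} {u : α → LM F} (hM : PT M) (hj : PT j) (hu : PT u)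
    (hB : PB fun x => (4 * Fintype.card F) ^ (4 * ((j x).n + 13))) :
    PT fun x => shs (M x) (j x) (u x) := by
  obtain ⟨c, h⟩ := exists_sz_le F
  have hU := PB_un hM
  have hT : PT fun x => uT (j x) := by unfold uT; fun_prop
  refine (PT.iterP (g := fun x (l : List (LM F)) => l.flatMap fun v => nbrsL (M x) v)
    (h := fun x => [u x]) (by fun_prop) (by fun_prop) hT
    (hB.mul (((PB.const 2).mul ((PB.of_PT hu).add (hU.mul (((PB.const 2).mul
      (hU.mul (PB.const (2 * c + 1)))).add (PB.const 1))))).add (PB.const 1)))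
    fun x i hi => ?_).of_eq fun x => by rw [sz_un, shs]
  have key : ∀ i, ((fun l : List (LM F) => l.flatMap fun v => nbrsL (M x) v)^[i] [u x]).length =
      (4 * Fintype.card F) ^ i ∧
      ∀ v ∈ (fun l : List (LM F) => l.flatMap fun v => nbrsL (M x) v)^[i] [u x],
        sz v ≤ sz (u x) + (M x).n * (2 * ((M x).n * (2 * c + 1)) + 1) := fun i => by
    induction i with
    | zero => simp
    | succ i ih =>
      rw [Function.iterate_succ_apply']
      refine ⟨?_, fun v hv => ?_⟩
      · rw [flat_length _ _ (4 * Fintype.card F) fun v _ => by simp [nbrsL], ih.1, pow_succ]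
      · obtain ⟨w, -, hw⟩ := List.mem_flatMap.1 hv
        obtain ⟨p, -, rfl⟩ := List.mem_map.1 hw
        exact (sz_mmk (M x) _ c fun _ _ => h _).trans (Nat.le_add_left _ _)
  have h1 := sz_map_le _ id _ (key i).2
  rw [List.map_id, (key i).1] at h1
  rw [sz_un] at hi
  exact h1.trans (Nat.mul_le_mul_right _ (Nat.pow_le_pow_right
    (Nat.mul_pos four_pos Fintype.card_pos) hi))

theorem clab_PT {φ : α → CNF} {M j : α → Un} {L : α → List (LM F)} {u : α → LM F} {k : α → ℕ}
    (b : Bool) (h : PT φ) (hM : PT M) (hj : PT j) (hL : PT L) (hu : PT u) (hk : PT k)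
    (hB : PB fun x => (4 * Fintype.card F) ^ (4 * ((j x).n + 13))) :
    PT fun x => clab (φ x) (M x) (j x) (L x) (u x) (k x) b := by
  have h1 : PT fun x => shs (M x) (j x) (oneL F (M x)) := shs_PT hM hj (oneL_PT hM) hB
  have h2 : PT fun y : α × LM F => shs (M y.1) (j y.1) y.2 := by
    obtain ⟨r, hr⟩ := hB
    exact shs_PT (by fun_prop) (by fun_prop) (by fun_prop)
      (((PB.of_PT (PT.fst PT.id')).poly r).mono fun y => hr y.1)
  have h3 : PT fun x => host (M x) (j x) (L x) :=
    PT.prodMk (by fun_prop) (PT.prodMk (PT.unN (PT.ulen' h1)) (PT.prodMk (by fun_prop)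
      (PT.prodMk (by fun_prop) (PT.flatMap (f := fun x v => (shs (M x) (j x) v).map (idx (L x)))
        (PT.map (f := fun (y : α × LM F) v => idx (L y.1) v) (by fun_prop) h2) hL))))
  have h4 : ∀ {P : α → Hs} {v : α → ℕ}, PT P → PT v → PT fun x => wireAt (P x) (v x) (k x) b := by
    intro P v hP hv
    unfold wireAt wires hT hH hq
    fun_prop
  have h5 := embed_PT h3 (nbs_PT h)
  exact listGetD_PT (PT.fst h5) (h4 h3 (idx_PT hL hu)) (PT.const _)

end Pool.Agent.Lib.MP_45faa6_lc.TR
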