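import Pool.Agent.Lib.MP_45faa6_lc.NL.Par

/-!
The numbers.
-/

set_option autoImplicit false

namespace Pool.Agent.Lib.MP_45faa6_lc.TR

open Pool.Agent.Lib.MP_45faa6_lc.NL

/-- The exponent of the growth factor. -/
def nJ (s : ℕ) : ℕ := Nat.size s / 392 + 1

/-- The target size of the group. -/
def nN (n s : ℕ) : ℕ := n * (Nat.size n / nJ s + 1) / s + 1

theorem num_q (j : ℕ) : (4 * 2 ^ 96) ^ (4 * (j + 13)) = 2 ^ 5096 * 2 ^ (392 * j) := by
  rw [show (4 : ℕ) * 2 ^ 96 = 2 ^ 98 from (pow_add 2 2 96).symm, ← pow_mul, ← pow_add]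
  congr 1
  ring

theorem num_j (s : ℕ) : Nat.size s < 392 * nJ s ∧ 392 * nJ s ≤ Nat.size s + 392 := by
  unfold nJ
  omega

theorem q_le {s : ℕ} (hs : 2 ≤ s) : (4 * 2 ^ 96) ^ (4 * (nJ s + 13)) ≤ 2 ^ 5489 * s := by
  have h1 := Nat.size_pos.2 (show 0 < s by omega)
  have h2 := Nat.lt_size.1 (show Nat.size s - 1 < Nat.size s by omega)
  have h3 := (num_j s).2
  rw [num_q, show 5489 = 5096 + 393 from rfl, pow_add, mul_assoc]
  refine Nat.mul_le_mul_left _ (le_trans ?_ (Nat.mul_le_mul_left _ h2))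
  rw [← pow_add]
  exact Nat.pow_le_pow_right two_pos (by omega)

theorem q_ge (s : ℕ) : 2 ^ 5096 * s ≤ (4 * 2 ^ 96) ^ (4 * (nJ s + 13)) := by
  rw [num_q]
  exact Nat.mul_le_mul_left _
    ((Nat.lt_size_self s).le.trans (Nat.pow_le_pow_right two_pos (num_j s).1.le))

theorem nN_le {n s : ℕ} (hs : 2 ≤ s) : nN n s ≤ n * (Nat.size n + 1) + 1 := by
  exact Nat.add_le_add_right ((Nat.div_le_self _ _).trans
    (Nat.mul_le_mul_left _ (Nat.add_le_add_right (Nat.div_le_self _ _) 1))) 1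

/-- Sketch: `size N ≤ 390 + 2 size n`, so `size N / j + 3 ≤ 400 (size n / j + 1)`;
`n (size n / j + 1) ≤ s * nN n s`; `q_ge`. -/
theorem big_ok {n m s N : ℕ} (hs : 2 ≤ s) (hm : m ≤ n) (h1 : nN n s ≤ N)
    (h2 : N ≤ (2 ^ 96) ^ 4 * nN n s + 1) :
    2 ^ 19 * (Nat.size N / nJ s + 3) * m ≤ (4 * 2 ^ 96) ^ (4 * (nJ s + 13)) * N := by
  have h3 : Nat.size N ≤ 96 * 4 + 1 + (Nat.size n + Nat.size n) := by
    have h4 := Nat.lt_size_self n
    have h5 : Nat.size n < 2 ^ Nat.size n := Nat.lt_two_pow_self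
    have h6 := h2.trans (Nat.add_le_add_right (Nat.mul_le_mul_left _ (nN_le hs)) 1)
    generalize Nat.size n = σ at *
    have h7 : n * (σ + 1) < 2 ^ σ * 2 ^ σ := Nat.mul_lt_mul_of_lt_of_le h4 h5 (by positivity)
    rw [Nat.size_le, pow_add 2 _ (σ + σ), pow_add 2 σ, pow_succ, pow_mul]
    have h8 : 2 ≤ (2 ^ 96) ^ 4 :=
      (Nat.le_self_pow (by norm_num) 2).trans (Nat.le_self_pow (by norm_num) _)
    generalize (2 ^ 96) ^ 4 = A at *
    generalize 2 ^ σ * 2 ^ σ = B at *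
    nlinarith
  have j0 : 0 < nJ s := Nat.succ_pos _
  have h4 : Nat.size N / nJ s < 387 + 2 * (Nat.size n / nJ s) := by
    have h5 := Nat.lt_mul_div_succ (Nat.size n) j0
    rw [Nat.div_lt_iff_lt_mul j0]
    nlinarith
  have h5 : n * (Nat.size n / nJ s + 1) ≤ s * N :=
    (Nat.lt_mul_div_succ _ (by omega)).le.trans (Nat.mul_le_mul_left _ h1)
  calc 2 ^ 19 * (Nat.size N / nJ s + 3) * m ≤ 2 ^ 19 * (2 ^ 9 * (Nat.size n / nJ s + 1)) * n :=
        Nat.mul_le_mul (Nat.mul_le_mul_left _ (by omega)) hm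
    _ = 2 ^ 28 * (n * (Nat.size n / nJ s + 1)) := by ring
    _ ≤ 2 ^ 5096 * (s * N) := Nat.mul_le_mul (Nat.pow_le_pow_right two_pos (by omega)) h5
    _ ≤ _ := by
        rw [← mul_assoc]
        exact Nat.mul_le_mul_right _ (q_ge s)

theorem num_nN {n s : ℕ} (hs : 2 ≤ s) :
    0 ≤ n * Real.logb 2 n / (s * Real.logb 2 s) ∧
      (nN n s : ℝ) ≤ 2 ^ 10 * (1 + n * Real.logb 2 n / (s * Real.logb 2 s)) := by
  have h1 : (2 : ℝ) ≤ s := by exact_mod_cast hs
  have h2 := Real.logb_le_logb_of_le one_lt_two two_pos h1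
  rw [Real.logb_self_eq_one one_lt_two] at h2
  have s0 : (0 : ℝ) < s := by linarith
  have l0 : 0 < Real.logb 2 s := by linarith
  by_cases hn : n ≤ 1
  · have h3 : Real.logb 2 n = 0 := by interval_cases n <;> simp
    have h4 : n * (Nat.size n + 1) + 1 ≤ 3 := by interval_cases n <;> simp
    have h5 : (nN n s : ℝ) ≤ 3 := by exact_mod_cast (nN_le hs).trans h4
    rw [h3, mul_zero, zero_div]
    exact ⟨le_rfl, by linarith⟩
  have h3 : (2 : ℝ) ≤ n := by exact_mod_cast not_le.1 hn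
  have h4 := Real.logb_le_logb_of_le one_lt_two two_pos h3
  rw [Real.logb_self_eq_one one_lt_two] at h4
  have h5 := par_size (m := n) (by omega)
  have r0 : 0 ≤ n * Real.logb 2 n / (s * Real.logb 2 s) := by
    have : 0 ≤ Real.logb 2 n := by linarith
    positivity
  refine ⟨r0, ?_⟩
  have h6 : Real.logb 2 s ≤ 392 * nJ s := by
    have h7 : (s : ℝ) ≤ 2 ^ (392 * nJ s) := by
      exact_mod_cast (Nat.lt_size_self s).le.trans (Nat.pow_le_pow_right two_pos (num_j s).1.le)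
    have h8 := Real.logb_le_logb_of_le one_lt_two s0 h7
    rwa [Real.logb_pow, Real.logb_self_eq_one one_lt_two, mul_one, Nat.cast_mul] at h8
  have h7 : ((Nat.size n / nJ s : ℕ) : ℝ) * nJ s ≤ Nat.size n := by
    exact_mod_cast Nat.div_mul_le_self _ _
  have h8 : ((Nat.size n / nJ s : ℕ) : ℝ) ≤ 784 * (Real.logb 2 n / Real.logb 2 s) := by
    rw [← mul_div_assoc, le_div_iff₀ l0]
    linarith [mul_le_mul_of_nonneg_left h6 (Nat.cast_nonneg (α := ℝ) (Nat.size n / nJ s))]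
  have h9 : (nN n s : ℝ) ≤ n / s * ((Nat.size n / nJ s : ℕ) + 1) + 1 := by
    have h10 := Nat.cast_div_le (α := ℝ) (m := n * (Nat.size n / nJ s + 1)) (n := s)
    rw [Nat.cast_mul, Nat.cast_add, Nat.cast_one, mul_div_right_comm] at h10
    rw [nN, Nat.cast_add, Nat.cast_one]
    linarith
  rw [mul_div_mul_comm] at r0 ⊢
  have h10 : (n : ℝ) / s ≤ 1 + n / s * (Real.logb 2 n / Real.logb 2 s) := by
    rcases le_total (n : ℝ) s with h | h
    · linarith [(div_le_one s0).2 h]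
    · linarith [le_mul_of_one_le_right (by positivity : 0 ≤ (n : ℝ) / s)
        ((one_le_div l0).2 (Real.logb_le_logb_of_le one_lt_two s0 h))]
  linarith [mul_le_mul_of_nonneg_left h8 (by positivity : 0 ≤ (n : ℝ) / s)]

/-- Sketch: `par_size`; `392 j > log s`; `size n ≤ 2 log n` for `n ≥ 2`;
`n / s ≤ 1 + n log n / (s log s)` (if `s ≤ n` then `log s ≤ log n`). -/
theorem coins_ok {n s N : ℕ} (hs : 2 ≤ s) (h2 : N ≤ (2 ^ 96) ^ 4 * nN n s + 1) :
    (Nat.size N : ℝ) ≤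
      Real.logb 2 (1 + n * Real.logb 2 n / (s * Real.logb 2 s)) + 400 := by
  obtain ⟨r0, h3⟩ := num_nN (n := n) hs
  generalize n * Real.logb 2 n / (s * Real.logb 2 s) = r at *
  have h4 := Real.logb_nonneg one_lt_two (show 1 ≤ 1 + r by linarith)
  rcases Nat.eq_zero_or_pos N with rfl | hN
  · rw [Nat.size_zero, Nat.cast_zero]
    linarith
  rw [← pow_mul] at h2
  obtain ⟨a, ha, h2⟩ : ∃ a, a = 384 ∧ N ≤ 2 ^ a * nN n s + 1 := ⟨_, rfl, h2⟩
  have h5 : N ≤ 2 ^ (a + 1) * nN n s := by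
    have : 0 < 2 ^ a * nN n s := Nat.mul_pos (by positivity) (Nat.succ_pos _)
    rw [pow_succ, mul_right_comm]
    omega
  have h6 : (N : ℝ) ≤ 2 ^ (a + 1 + 10) * (1 + r) :=
    calc (N : ℝ) ≤ 2 ^ (a + 1) * nN n s := by exact_mod_cast h5
      _ ≤ 2 ^ (a + 1) * (2 ^ 10 * (1 + r)) := by gcongr
      _ = _ := by rw [pow_add 2 (a + 1), mul_assoc]
  have h7 := Real.logb_le_logb_of_le one_lt_two (by exact_mod_cast hN) h6
  rw [Real.logb_mul (by positivity) (by positivity), Real.logb_pow,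
    Real.logb_self_eq_one one_lt_two, ha] at h7
  push_cast at h7
  linarith [par_size hN]

end Pool.Agent.Lib.MP_45faa6_lc.TR
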