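import Pool.Agent.Lib.MP_45faa6_lc.TR.Lab
import Pool.Agent.Lib.MP_45faa6_lc.TR.Num
import Pool.Agent.Lib.MP_45faa6_lc.TR.Cor
import Pool.Agent.Lib.MP_73cdf8_lc.Sim

/-!
The main theorem.
-/

set_option autoImplicit false
set_option linter.unusedSectionVars false

namespace Pool.Agent.Lib.MP_45faa6_lc.TR

open Finset Pool.Agent.Lib.MP_45faa6_lc.NL Pool.Agent.Lib.MP_acf5a6_lc
  Pool.Agent.Lib.Common.CookLevin

variable (F : Type) [Field F] [Fintype F] [DecidableEq F]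

/-- The least matrix size that gives a group of the target size. -/
noncomputable def uM (N : Un) : Un :=
  (((uzip (urange (N.add ⟨1⟩))).map fun x => x.2).filter fun M =>
    decide ((ulen (urange N)).n ≤ (enumG F M N).length)).headD ⟨0⟩

/-- The list of all group elements. -/
noncomputable def grp (N : Un) : List (LM F) :=
  enumG F (uM F N) (((Un.mk (Fintype.card F ^ 4)).mul N).add ⟨1⟩)

theorem uM_spec (N : Un) : N.n ≤ #(GS (uM F N).n F) ∧
    #(GS (uM F N).n F) ≤ Fintype.card F ^ 4 * N.n + 1 := by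
  have key : ∀ M : Un, decide ((ulen (urange N)).n ≤ (enumG F M N).length) = true ↔
      N.n ≤ #(GS M.n F) := fun M => by
    obtain ⟨l, e, -, -, hl⟩ := enumG_spec (F := F) M N
    rw [decide_eq_true_eq, e, List.length_map, hl, ulen, urange, List.length_range]
    change N.n ≤ _ ↔ _
    omega
  obtain ⟨m, e, h1, h2⟩ := par_head N.n
    (fun M => decide ((ulen (urange N)).n ≤ (enumG F M N).length)) ((key ⟨N.n⟩).2 GS_ge)
  have e' : uM F N = ⟨m⟩ := e
  rw [e']
  refine ⟨(key _).1 h1, ?_⟩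
  cases m with
  | zero => exact GS_zero.le.trans (Nat.le_add_left _ _)
  | succ m =>
    have h3 := not_le.1 (mt (key _).2 (h2 m m.lt_succ_self))
    exact (GS_succ.trans (Nat.mul_le_mul_left _ h3.le)).trans (Nat.le_succ _)

theorem grp_spec (N : Un) : ∃ l : List (Mat (uM F N).n F), grp F N = l.map toL ∧ l.Nodup ∧
    (∀ u, u ∈ l ↔ u ∈ GG (uM F N).n F) ∧ l.length = #(GS (uM F N).n F) := by
  obtain ⟨l, e, h1, h2, h3⟩ := enumG_spec (F := F) (uM F N)
    (((Un.mk (Fintype.card F ^ 4)).mul N).add ⟨1⟩)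
  have h4 : l.length = #(GS (uM F N).n F) :=
    h3.trans (min_eq_right ((uM_spec F N).2.trans (Nat.le_succ _)))
  refine ⟨l, e, h1, fun u => ?_, h4⟩
  have h5 : l.toFinset = GS (uM F N).n F :=
    eq_of_subset_of_card_le (fun v hv => (mem_GS v).2 (h2 v (List.mem_toFinset.1 hv)))
      (by rw [List.toFinset_card_of_nodup h1, h4])
  rw [← mem_GS, ← h5, List.mem_toFinset]

/-- The exponent in unary. -/
def uJ (s : ℕ) : Un := ulen (rng ((usz s).add ⟨1⟩) (nJ s))

/-- The target size in unary. -/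
def uN (φ : CNF) (s : ℕ) : Un :=
  ulen (rng (((ulen (φ.flatMap fun c => c)).mul ((usz (csize φ)).add ⟨1⟩)).add ⟨1⟩) (nN (csize φ) s))

theorem uJ_n (s : ℕ) : (uJ s).n = nJ s := by
  have h : nJ s ≤ ((usz s).add ⟨1⟩).n := by
    change Nat.size s / 392 + 1 ≤ sz s + 1
    rw [sz_nat]
    omega
  rw [uJ, rng_eq h]
  simp [ulen]

theorem uN_n (φ : CNF) {s : ℕ} (hs : 2 ≤ s) : (uN φ s).n = nN (csize φ) s := by
  have h : nN (csize φ) s ≤
      (((ulen (φ.flatMap fun c => c)).mul ((usz (csize φ)).add ⟨1⟩)).add ⟨1⟩).n := by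
    change _ ≤ (φ.flatMap fun c => c).length * (sz (csize φ) + 1) + 1
    rw [sz_nat, List.length_flatMap]
    exact nN_le hs
  rw [uN, rng_eq h]
  simp [ulen]

theorem big_ok' {Q n m s N : ℕ} (hQ : Q = 2 ^ 96) (hs : 2 ≤ s) (hm : m ≤ n) (h1 : nN n s ≤ N)
    (h2 : N ≤ Q ^ 4 * nN n s + 1) :
    2 ^ 19 * (Nat.size N / nJ s + 3) * m ≤ (4 * Q) ^ (4 * (nJ s + 13)) * N := by
  subst hQ
  exact big_ok hs hm h1 h2

theorem q_le' {Q : ℕ} (hQ : Q = 2 ^ 96) :
    ∃ C : ℕ, ∀ s, 2 ≤ s → (4 * Q) ^ (4 * (nJ s + 13)) ≤ C * s := by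
  subst hQ
  exact ⟨_, fun _ => q_le⟩

theorem coins_ok' {Q n s N : ℕ} (hQ : Q = 2 ^ 96) (hs : 2 ≤ s) (h2 : N ≤ Q ^ 4 * nN n s + 1) :
    (Nat.size N : ℝ) ≤
      Real.logb 2 (1 + n * Real.logb 2 n / (s * Real.logb 2 s)) + 400 := by
  subst hQ
  exact coins_ok hs h2

/-- The data of the verifier. -/
noncomputable def dat (s : CNF → ℕ) : Dat F where
  M φ := uM F (uN φ (s φ))
  L φ := grp F (uN φ (s φ))
  q φ := uq F (uM F (uN φ (s φ))) (uJ (s φ))
  sh φ u k := (shs (uM F (uN φ (s φ))) (uJ (s φ)) u).getD k []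
  cl φ := clab φ (uM F (uN φ (s φ))) (uJ (s φ)) (grp F (uN φ (s φ)))

theorem dat_good [CharP F 2] (hQ : Fintype.card F = 2 ^ 96) {s : CNF → ℕ} (hs : ∀ φ, 2 ≤ s φ)
    (φ : CNF) : (dat F s).Good φ := by
  obtain ⟨l, h0, hl, hl', hlen⟩ := grp_spec F (uN φ (s φ))
  obtain ⟨h1, h2⟩ := uM_spec F (uN φ (s φ))
  rw [← hlen, uN_n φ (hs φ)] at h1 h2
  refine ⟨l, fun k => (wds (uM F (uN φ (s φ))).n F (4 * ((uJ (s φ)).n + 13))).getD k 1, h0, hl, hl',
    fun u k hk => ?_, fun hok => ?_⟩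
  · have hk' : k < (wds (uM F (uN φ (s φ))).n F (4 * ((uJ (s φ)).n + 13))).length := by
      rw [wds_length, ← uq_n]
      exact hk
    refine (congrArg (fun z => List.getD z k []) (shs_toL (uM F (uN φ (s φ))) (uJ (s φ)) u)).trans ?_
    dsimp only
    rw [List.getD_eq_getElem _ _ (by rwa [List.length_map]), List.getElem_map,
      List.getD_eq_getElem _ _ hk']
    rfl
  · have h4 : 2 ^ 19 * (Nat.size l.length / (uJ (s φ)).n + 3) * φ.length ≤
        (uq F (uM F (uN φ (s φ))) (uJ (s φ))).n * l.length := by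
      rw [uq_n, uJ_n]
      exact big_ok' hQ (hs φ) (length_le_csize hok) h1 h2
    have h3 := clab_spec hQ hok (uM F (uN φ (s φ))) (uJ (s φ))
      (by rw [uJ_n]; exact Nat.le_add_left _ _) l hl hl' h4
    rw [← h0] at h3
    exact h3

section

variable {α : Type} [N487b59b3 α]

@[fun_prop] theorem rng_PT {h : α → Un} {i : α → ℕ} (hh : PT h) (hi : PT i) :
    PT fun a => rng (h a) (i a) := by
  unfold rng; fun_prop

@[fun_prop] theorem size_PT {f : α → ℕ} (h : PT f) : PT fun a => Nat.size (f a) :=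
  (PT.unN (PT.usz' h)).of_eq fun _ => sz_nat _

@[fun_prop] theorem nJ_PT {f : α → ℕ} (h : PT f) : PT fun a => nJ (f a) := by
  unfold nJ; fun_prop

@[fun_prop] theorem nN_PT {f g : α → ℕ} (h : PT f) (h' : PT g) : PT fun a => nN (f a) (g a) := by
  unfold nN; fun_prop

theorem uJ_PT {f : α → ℕ} (h : PT f) : PT fun a => uJ (f a) := by
  unfold uJ; fun_prop

theorem uN_PT {φ : α → CNF} {g : α → ℕ} (h : PT φ) (h' : PT g) : PT fun a => uN (φ a) (g a) := by
  unfold uN; fun_prop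

variable [N487b59b3 F]

theorem uM_PT {N : α → Un} (h : PT N) : PT fun a => uM F (N a) := by
  unfold uM; fun_prop

theorem grp_PT {N : α → Un} (h : PT N) : PT fun a => grp F (N a) := by
  have := uM_PT F h
  unfold grp; fun_prop

end

theorem dat_fast [N487b59b3 F] (hQ : Fintype.card F = 2 ^ 96) {s : CNF → ℕ}
    (hp : PT fun φ => List.replicate (s φ) true) (hs : ∀ φ, 2 ≤ s φ) : (dat F s).Fast := by
  have h1 : PT s := (PT.length hp).of_eq fun φ => List.length_replicate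
  obtain ⟨C, hC⟩ := q_le' hQ
  have hB : ∀ {α : Type} [N487b59b3 α] {f : α → CNF}, PT f →
      PB fun x => (4 * Fintype.card F) ^ (4 * ((uJ (s (f x))).n + 13)) := fun hf =>
    ((PB.const C).mul (PB_un (PT.ulen' (PT.comp hp hf)))).mono fun x => by
      rw [uJ_n]
      exact (hC _ (hs _)).trans_eq (congrArg _ List.length_replicate.symm)
  have e : PT fun x : CNF × LM F × ℕ => x.1 := by fun_prop
  have e1 := PT.comp h1 e
  have hN := uN_PT PT.id' h1
  refine ⟨uM_PT F hN, grp_PT F hN,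
    PT.ulen' (shs_PT (uM_PT F hN) (uJ_PT h1) (oneL_PT (uM_PT F hN)) (hB PT.id')), ?_, fun b => ?_⟩
  · exact listGetD_PT (shs_PT (uM_PT F (uN_PT e e1)) (uJ_PT e1) (by fun_prop) (hB e)) (by fun_prop)
      (PT.const _)
  · exact clab_PT b e (uM_PT F (uN_PT e e1)) (uJ_PT e1) (grp_PT F (uN_PT e e1)) (by fun_prop)
      (by fun_prop) (hB e)

variable {F}

theorem main_of_field [CharP F 2] [N487b59b3 F] (hF : Fintype.card F = 2 ^ (8 * 12)) :
    ∃ β : ℝ, 0 < β ∧ β < 1 ∧ ∃ D E : ℝ, ∀ s : CNF → ℕ,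
    N68a2faeb.IsPolyTime (fun φ => List.replicate (s φ) true) → (∀ φ, 2 ≤ s φ) →
    InPCP 1 β (fun φ : CNF => Real.logb 2 (1 + csize φ * Real.logb 2 (csize φ) /
      (s φ * Real.logb 2 (s φ))) + D) (fun φ => E * s φ) ThreeSAT ThreeSATᶜ := by
  have hQ : Fintype.card F = 2 ^ 96 := hF
  obtain ⟨β, b0, b1, E, H⟩ := engine hF
  obtain ⟨C, hC⟩ := q_le' hQ
  refine ⟨β, b0, b1, 400, (E * C : ℕ), fun s hp hs => InPCP_mono (H (dat F s)
    (dat_fast F hQ (MP_73cdf8_lc.PT_of_isPolyTime hp) hs) (dat_good F hQ hs)) (fun φ => ?_)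
    fun φ => ?_⟩
  · obtain ⟨l, h0, -, -, hlen⟩ := grp_spec F (uN φ (s φ))
    have h2 := (uM_spec F (uN φ (s φ))).2
    rw [← hlen, uN_n φ (hs φ)] at h2
    change (Nat.size (grp F (uN φ (s φ))).length : ℝ) ≤ _
    rw [h0, List.length_map]
    exact coins_ok' hQ (hs φ) h2
  · change ((E * (uq F _ (uJ (s φ))).n : ℕ) : ℝ) ≤ _
    rw [uq_n, uJ_n, ← Nat.cast_mul, Nat.cast_le, mul_assoc]
    exact Nat.mul_le_mul_left _ (hC _ (hs φ))

theorem main : ∃ β : ℝ, 0 < β ∧ β < 1 ∧ ∃ D E : ℝ, ∀ s : CNF → ℕ,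
    N68a2faeb.IsPolyTime (fun φ => List.replicate (s φ) true) → (∀ φ, 2 ≤ s φ) →
    InPCP 1 β (fun φ : CNF => Real.logb 2 (1 + csize φ * Real.logb 2 (csize φ) /
      (s φ * Real.logb 2 (s φ))) + D) (fun φ => E * s φ) ThreeSAT ThreeSATᶜ := by
  classical
  have : Fact (Nat.Prime 2) := ⟨Nat.prime_two⟩
  let _ : Fintype (GaloisField 2 96) := Fintype.ofFinite _
  let _ : N487b59b3 (GaloisField 2 96) := N487b59b3.ofLeftInverse
    (fun x => (Fintype.equivFin (GaloisField 2 96) x).val)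
    (fun n => if h : n < Fintype.card (GaloisField 2 96) then
      some ((Fintype.equivFin _).symm ⟨n, h⟩) else none) fun x => by simp
  refine main_of_field (F := GaloisField 2 96) ?_
  rw [← Nat.card_eq_fintype_card, GaloisField.card 2 96 (by norm_num)]

end Pool.Agent.Lib.MP_45faa6_lc.TR
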