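import Pool.Agent.Lib.MP_45faa6_lc.Main
import Pool.Agent.Lib.MP_45faa6_lc.TR.SDef
import Pool.Agent.Lib.MP_45faa6_lc.TR.Acc

/-!
Soundness amplification with no extra coins: run the verifier on all neighbours of the coin
string in an expander. Symbols are then written in bits.
-/

set_option autoImplicit false

namespace Pool.Agent.Lib.MP_45faa6_lc.TR

open Finset Pool.Agent.Lib.MP_acf5a6_lc Pool.Agent.Lib.Common.CookLevin

/-- The last `len` binary digits of `n`, highest first. -/
def ampBits (n len : ℕ) : List Bool :=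
  ((List.range len).map fun i => decide (n / 2 ^ i % 2 = 1)).reverse

theorem ampBits_length (n len : ℕ) : (ampBits n len).length = len := by simp [ampBits]

theorem valM_ampBits (n len : ℕ) : valM (ampBits n len) = n % 2 ^ len := by
  induction len with
  | zero => simp [ampBits, valM, Nat.mod_one]
  | succ k ih =>
    have e : ampBits n (k + 1) = decide (n / 2 ^ k % 2 = 1) :: ampBits n k := by
      simp [ampBits, List.range_succ]
    rw [e, valM, ih, ampBits_length, Nat.mod_pow_succ]
    rcases Nat.mod_two_eq_zero_or_one (n / 2 ^ k) with h | h <;> simp [h]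
    omega

/-- The `g`-th neighbour of a coin string. -/
def ampNbr (ρ : List Bool) (g : ℕ) : List Bool :=
  ampBits (nb (2 ^ (ρ.length / 2)) (2 ^ (ρ.length % 2)) (valM ρ) g) ρ.length

theorem ampNbr_length (ρ : List Bool) (g : ℕ) : (ampNbr ρ g).length = ρ.length :=
  ampBits_length _ _

theorem PT_ampNbr {α : Type} [N487b59b3 α] {l : α → List Bool} (hl : PT l) (g : ℕ) :
    PT (fun a => ampNbr (l a) g) := by
  have key : ∀ {k F n : α → ℕ}, PT k → PT F → PT n → PT (fun a => nb (k a) (F a) (n a) g) := by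
    intro k F n hk hF hn
    unfold nb
    split_ifs <;> fun_prop
  have h1 := key (PT_half hl) (PT_par hl) (PT_valM hl)
  have h2 : ∀ {n : α → ℕ}, PT n → PT (fun a => ampBits (n a) (l a).length) := by
    intro n hn
    refine PT.of_eq (f := fun a => ((uzip (l a)).map fun x =>
      decide (n a / pow2 x.2 % 2 = 1)).reverse) (by fun_prop) fun a => ?_
    rw [ampBits, List.range_eq_range', ← List.zipIdx_map_snd 0 (l a), uzip, List.map_map,
      List.map_map]
    rfl
  exact h2 h1

/-- The answers at the places `off, off + 1, …`, as many as `l` has entries. -/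
def ampSeg (off : ℕ) (l : List ℕ) (ans : List (List Bool)) : List (List Bool) :=
  l.zipIdx.map fun y => ans.getD (off + y.2) []

theorem ampSeg_left (l m : List ℕ) (π : ℕ → List Bool) :
    ampSeg 0 l ((l ++ m).map π) = l.map π := by
  refine List.ext_getElem (by simp [ampSeg]) fun i h1 h2 => ?_
  have hi : i < l.length := by simpa using h2
  simp [ampSeg, List.getD_eq_getElem?_getD, List.getElem?_append_left, hi]

theorem ampSeg_right (l m : List ℕ) (π : ℕ → List Bool) :
    ampSeg l.length m ((l ++ m).map π) = m.map π := by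
  refine List.ext_getElem (by simp [ampSeg]) fun i h1 h2 => ?_
  have hi : i < m.length := by simpa using h2
  simp [ampSeg, List.getD_eq_getElem?_getD, List.getElem?_append_right, hi]

section ver

variable {X : Type}

/-- Queries at the coin string and at its neighbours listed in `gs`. -/
def ampQ (Q : X × List Bool → List ℕ) : List ℕ → X × List Bool → List ℕ
  | [], y => Q y
  | g :: gs, y => Q (y.1, ampNbr y.2 g) ++ ampQ Q gs y

/-- Accept when all these runs accept. -/
def ampD (Q : X × List Bool → List ℕ) (D : X × List Bool × List (List Bool) → Bool) :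
    List ℕ → X × List Bool × List (List Bool) → Bool
  | [], y => D y
  | g :: gs, y => D (y.1, ampNbr y.2.1 g, ampSeg 0 (Q (y.1, ampNbr y.2.1 g)) y.2.2) &&
      ampD Q D gs (y.1, y.2.1,
        ampSeg (Q (y.1, ampNbr y.2.1 g)).length (ampQ Q gs (y.1, y.2.1)) y.2.2)

theorem ampD_iff (Q : X × List Bool → List ℕ) (D : X × List Bool × List (List Bool) → Bool)
    (gs : List ℕ) (x : X) (ρ : List Bool) (π : ℕ → List Bool) :
    ampD Q D gs (x, ρ, (ampQ Q gs (x, ρ)).map π) = true ↔
      D (x, ρ, (Q (x, ρ)).map π) = true ∧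
        ∀ g ∈ gs, D (x, ampNbr ρ g, (Q (x, ampNbr ρ g)).map π) = true := by
  induction gs with
  | nil => simp [ampD, ampQ]
  | cons g gs ih =>
    simp only [ampD, ampQ, ampSeg_left, ampSeg_right, Bool.and_eq_true, ih, List.forall_mem_cons]
    tauto

theorem ampQ_length (Q : X × List Bool → List ℕ) (gs : List ℕ) (x : X) (ρ : List Bool) {q : ℝ}
    (h : ∀ σ : List Bool, σ.length = ρ.length → ((Q (x, σ)).length : ℝ) ≤ q) :
    ((ampQ Q gs (x, ρ)).length : ℝ) ≤ (gs.length + 1) * q := by
  induction gs with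
  | nil => simpa [ampQ] using h ρ rfl
  | cons g gs ih =>
    have := h _ (ampNbr_length ρ g)
    simp only [ampQ, List.length_append, List.length_cons]
    push_cast
    linarith

variable [N487b59b3 X]

theorem PT_ampQ {Q : X × List Bool → List ℕ} (hQ : PT Q) (gs : List ℕ) : PT (ampQ Q gs) := by
  induction gs with
  | nil => exact hQ
  | cons g gs ih =>
    have h1 := PT_ampNbr (l := fun y : X × List Bool => y.2) (by fun_prop) g
    exact PT.append (PT.comp hQ (PT.prodMk (by fun_prop) h1)) ih

theorem PT_ampD {Q : X × List Bool → List ℕ} {D : X × List Bool × List (List Bool) → Bool}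
    (hQ : PT Q) (hD : PT D) (gs : List ℕ) : PT (ampD Q D gs) := by
  have hs : ∀ {off : X × List Bool × List (List Bool) → ℕ} {l : X × List Bool × List (List Bool) → List ℕ},
      PT off → PT l → PT (fun y => ampSeg (off y) (l y) y.2.2) := by
    intro off l h1 h2
    unfold ampSeg
    fun_prop
  induction gs with
  | nil => exact hD
  | cons g gs ih =>
    have h1 := PT_ampNbr (l := fun y : X × List Bool × List (List Bool) => y.2.1) (by fun_prop) g
    have h2 : PT (fun y : X × List Bool × List (List Bool) => Q (y.1, ampNbr y.2.1 g)) :=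
      PT.comp hQ (PT.prodMk (by fun_prop) h1)
    have h3 : PT (fun y : X × List Bool × List (List Bool) => ampQ Q gs (y.1, y.2.1)) :=
      PT.comp (PT_ampQ hQ gs) (by fun_prop)
    exact PT.and' (PT.comp hD (PT.prodMk (by fun_prop) (PT.prodMk h1 (hs (PT.const 0) h2))))
      (PT.comp ih (PT.prodMk (by fun_prop) (PT.prodMk (by fun_prop) (hs (PT.length h2) h3))))

end ver

/-- Few vertices have all their neighbours in a set that misses a fixed share of the graph. -/
theorem amp_count {V : Type} [Fintype V] [DecidableEq V] {τ : Fin 5 → V ≃ V} (hτ : Poinc τ)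
    (p : V → Prop) [DecidablePred p] {β γ M : ℝ} (hM : (Fintype.card V : ℝ) = M) (hM0 : 0 < M)
    (h0 : 0 ≤ β) (hγ : γ ≤ β) (h : ((univ.filter p).card : ℝ) ≤ γ * M) :
    ((univ.filter fun v => p v ∧ ∀ g, p (τ g v)).card : ℝ) ≤ γ * (1 - (1 - β) / 40) * M := by
  set f : V → ℝ := fun v => if p v then 1 else 0 with hf
  set b : ℝ := ((univ.filter p).card : ℝ) with hb
  set a : ℝ := ((univ.filter fun v => p v ∧ ∀ g, p (τ g v)).card : ℝ) with ha
  have e1 : ∑ z, f z = b := by simp [hf, hb]
  have e2 : ∑ z, f z ^ 2 = b := by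
    rw [← e1]
    exact sum_congr rfl fun z _ => by by_cases hz : p z <;> simp [hf, hz]
  have e3 : ∑ z, (if p z ∧ ∀ g, p (τ g z) then (1 : ℝ) else 0) = a := by simp [ha]
  have e4 : ∀ g, ∑ z, (f (τ g z) - f z) ^ 2 ≤ 2 * (b - a) := by
    intro g
    have e5 : ∑ z, f (τ g z) = b := by rw [← e1]; exact Equiv.sum_comp (τ g) f
    calc ∑ z, (f (τ g z) - f z) ^ 2
        ≤ ∑ z, (f (τ g z) + f z - 2 * (if p z ∧ ∀ g, p (τ g z) then (1 : ℝ) else 0)) := by
          refine sum_le_sum fun z _ => ?_
          by_cases h3 : p z ∧ ∀ g, p (τ g z)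
          · rw [if_pos h3]
            simp only [hf, if_pos h3.1, if_pos (h3.2 g)]
            norm_num
          · rw [if_neg h3]
            by_cases h1 : p z <;> by_cases h2 : p (τ g z) <;> simp [hf, h1, h2]
      _ = 2 * (b - a) := by
          rw [sum_sub_distrib, sum_add_distrib, ← mul_sum, e5, e1, e3]
          ring
  have e6 : ∑ g, ∑ z, (f (τ g z) - f z) ^ 2 ≤ 10 * (b - a) := by
    refine (sum_le_sum fun g _ => e4 g).trans_eq ?_
    simp
    ring
  have e7 := hτ f
  rw [hM, e1, e2] at e7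
  have hb0 : 0 ≤ b := by rw [hb]; positivity
  have e8 : M * b - b ^ 2 ≤ 4 * M * (10 * (b - a)) :=
    e7.trans (mul_le_mul_of_nonneg_left e6 (by positivity))
  have e9 : b * b ≤ b * (β * M) :=
    mul_le_mul_of_nonneg_left (h.trans (mul_le_mul_of_nonneg_right hγ hM0.le)) hb0
  have e10 : M * a ≤ M * (b * (1 - (1 - β) / 40)) := by nlinarith
  have e11 := le_of_mul_le_mul_left e10 hM0
  have e12 : b * (1 - (1 - β) / 40) ≤ γ * M * (1 - (1 - β) / 40) :=
    mul_le_mul_of_nonneg_right h (by linarith)
  linarith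

theorem amp_core {X : Type} {β γ : ℝ} (h0 : 0 ≤ β) (hγ : γ ≤ β) (R : X → ℕ)
    (Q : X × List Bool → List ℕ) (D : X × List Bool × List (List Bool) → Bool) (x : X) (π : ℕ → List Bool) :
    (1 ≤ accSym R Q D x π →
      1 ≤ accSym R (ampQ Q [0, 1, 2, 3, 4]) (ampD Q D [0, 1, 2, 3, 4]) x π) ∧
    (accSym R Q D x π ≤ γ → accSym R (ampQ Q [0, 1, 2, 3, 4]) (ampD Q D [0, 1, 2, 3, 4]) x π ≤
      γ * (1 - (1 - β) / 40)) := by
  obtain ⟨τ, hτ, hnb⟩ := exists_graph (R x)
  have hM : (0 : ℝ) < 2 ^ R x := by positivity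
  have hcard : (Fintype.card (Fin (R x) → Bool) : ℝ) = 2 ^ R x := by simp
  have hn : ∀ (g : Fin 5) (ω : Fin (R x) → Bool),
      ampNbr (List.ofFn ω) g = List.ofFn (τ g ω) := by
    intro g ω
    refine valM_inj _ _ (by simp [ampNbr_length]) ?_
    rw [ampNbr, valM_ampBits, List.length_ofFn, ← hnb]
    exact Nat.mod_eq_of_lt (by simpa using valM_lt (List.ofFn (τ g ω)))
  have key : ∀ ω : Fin (R x) → Bool,
      ampD Q D [0, 1, 2, 3, 4] (x, List.ofFn ω,
        (ampQ Q [0, 1, 2, 3, 4] (x, List.ofFn ω)).map π) = true ↔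
      D (x, List.ofFn ω, (Q (x, List.ofFn ω)).map π) = true ∧
        ∀ g, D (x, List.ofFn (τ g ω), (Q (x, List.ofFn (τ g ω))).map π) = true := by
    intro ω
    rw [ampD_iff]
    refine and_congr_right fun _ => ⟨fun H g => ?_, fun H g hg => ?_⟩
    · rw [← hn]
      exact H g (by fin_cases g <;> simp)
    · have hg5 : g < 5 := by simp at hg; omega
      have := H ⟨g, hg5⟩
      rwa [← hn] at this
  refine ⟨fun hπ => ?_, fun h5 => ?_⟩
  · rw [accSym, le_div_iff₀ hM, one_mul, ← hcard] at hπ ⊢
    have hall : ∀ ω : Fin (R x) → Bool, D (x, List.ofFn ω, (Q (x, List.ofFn ω)).map π) = true := by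
      have := (card_eq_iff_eq_univ _).1 (le_antisymm (card_le_univ _) (by exact_mod_cast hπ))
      intro ω
      exact filter_eq_self.1 this ω (mem_univ ω)
    rw [filter_true_of_mem fun ω _ => (key ω).2 ⟨hall _, fun g => hall _⟩, card_univ]
  · rw [accSym, div_le_iff₀ hM] at h5 ⊢
    simp only [key]
    exact amp_count hτ _ hcard hM h0 hγ h5

theorem amp_step {X : Type} [N487b59b3 X] {β γ : ℝ} (h0 : 0 ≤ β) (hγ : γ ≤ β) {r q b : X → ℝ}
    {Y N : Set X} (h : InSymPCP 1 γ r q b Y N) :
    InSymPCP 1 (γ * (1 - (1 - β) / 40)) r (fun x => 6 * q x) b Y N := by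
  obtain ⟨R, Q, D, hR, hQ, hD, h⟩ := h
  have hQ' := MP_73cdf8_lc.PT_of_isPolyTime hQ
  refine ⟨R, ampQ Q [0, 1, 2, 3, 4], ampD Q D [0, 1, 2, 3, 4], hR, (PT_ampQ hQ' _).isPolyTime,
    (PT_ampD hQ' (MP_73cdf8_lc.PT_of_isPolyTime hD) _).isPolyTime, fun x => ?_⟩
  obtain ⟨h1, h2, h3, h4⟩ := h x
  refine ⟨h1, fun ρ hρ => ?_, fun hx => ?_, fun hx π => (amp_core h0 hγ R Q D x π).2 (h4 hx π)⟩
  · have := ampQ_length Q [0, 1, 2, 3, 4] x ρ (q := q x) fun σ hσ => h2 σ (hσ.trans hρ)
    norm_num at this ⊢
    exact this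
  · obtain ⟨π, hb, hπ⟩ := h3 hx
    exact ⟨π, hb, (amp_core h0 hγ R Q D x π).1 hπ⟩

/-- Any soundness below one can be pushed below any positive number with the same coins and a
constant multiple of the queries. -/
theorem amplifyS {β ε : ℝ} (h0 : 0 ≤ β) (h1 : β < 1) (hε : 0 < ε) :
    ∃ c : ℝ, 0 < c ∧ ∀ (X : Type) [N487b59b3 X] (r q b : X → ℝ) (Y N : Set X),
      InSymPCP 1 β r q b Y N → InSymPCP 1 ε r (fun x => c * q x) b Y N := by
  have t0 : 0 ≤ 1 - (1 - β) / 40 := by linarith
  have t1 : 1 - (1 - β) / 40 < 1 := by linarith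
  obtain ⟨t, ht⟩ := exists_pow_lt_of_lt_one hε t1
  refine ⟨6 ^ t, by positivity, fun X _ r q b Y N h => ?_⟩
  have key : ∀ k : ℕ,
      InSymPCP 1 (β * (1 - (1 - β) / 40) ^ k) r (fun x => 6 ^ k * q x) b Y N := by
    intro k
    induction k with
    | zero => simpa using h
    | succ k ih =>
      have := amp_step h0 (mul_le_of_le_one_right h0 (pow_le_one₀ t0 t1.le)) ih
      simpa only [pow_succ, mul_assoc, mul_comm (6 : ℝ), mul_left_comm (6 : ℝ)] using this
  obtain ⟨R, Q, D, hR, hQ, hD, h⟩ := key t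
  refine ⟨R, Q, D, hR, hQ, hD, fun x => ⟨(h x).1, (h x).2.1, (h x).2.2.1, fun hx π => ?_⟩⟩
  refine ((h x).2.2.2 hx π).trans ?_
  exact (mul_le_of_le_one_left (pow_nonneg t0 t) h1.le).trans ht.le

/-- The symbol written in `2 W` bits: a flag and a bit for each place. -/
def bitDec (W : Un) (f : ℕ → Bool) : List Bool :=
  ((urange W).filter fun k => f (2 * k)).map fun k => f (2 * k + 1)

theorem bitDec_congr {W : Un} {f g : ℕ → Bool} (h : ∀ t < 2 * W.n, f t = g t) :
    bitDec W f = bitDec W g := by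
  have e : ((urange W).filter fun k => f (2 * k)) = (urange W).filter fun k => g (2 * k) :=
    List.filter_congr fun k hk => h _ (by have := List.mem_range.1 hk; omega)
  rw [bitDec, bitDec, e]
  exact List.map_congr_left fun k hk => h _ (by
    have := List.mem_range.1 (List.mem_filter.1 hk).1; omega)

theorem bitDec_enc {W : Un} {l : List Bool} (h : l.length ≤ W.n) :
    bitDec W (fun t => if t % 2 = 0 then decide (t / 2 < l.length) else l.getD (t / 2) false) =
      l := by
  have e : ((urange W).filter fun k => decide (k < l.length)) = List.range l.length := by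
    obtain ⟨d, hd⟩ := Nat.exists_eq_add_of_le h
    rw [urange, hd, List.range_add, List.filter_append, List.filter_eq_self.2 (by simp),
      List.filter_eq_nil_iff.2 (by simp), List.append_nil]
  have e1 : ∀ k : ℕ, (2 * k + 1) / 2 = k := fun k => by omega
  simp only [bitDec, Nat.mul_mod_right, if_true, Nat.mul_div_cancel_left _ two_pos, e,
    Nat.mul_add_mod, Nat.one_mod, one_ne_zero, if_false, e1]
  exact List.ext_getElem (by simp) fun i h1 h2 => by simp [h2]

/-- A verifier that reads symbols of at most `W` bits is a verifier that reads bits. -/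
theorem toBits {X : Type} [N487b59b3 X] {α β : ℝ} {r q b : X → ℝ} {Y N : Set X} {W : X → ℕ}
    (hW : N68a2faeb.IsPolyTime fun x => List.replicate (W x) true) (hb : ∀ x, b x ≤ W x)
    (h : InSymPCP α β r q b Y N) : InPCP α β r (fun x => 2 * W x * q x) Y N := by
  obtain ⟨R, Q, D, hR, hQ, hD, h⟩ := h
  have hQ' := MP_73cdf8_lc.PT_of_isPolyTime hQ
  have hD' := MP_73cdf8_lc.PT_of_isPolyTime hD
  obtain ⟨U, hU, eU⟩ : ∃ U : X → Un, PT U ∧ ∀ x, (U x).n = W x :=
    ⟨_, PT.ulen' (MP_73cdf8_lc.PT_of_isPolyTime hW), fun x => List.length_replicate⟩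
  have len : ∀ x i, ((urange ((U x).add (U x))).map fun t => i * (2 * (U x).n) + t).length =
      2 * (U x).n := fun x i => by simp [urange, Un.add, two_mul]
  have key : ∀ x (π : ℕ → Bool), accProb R (fun y => (Q y).flatMap fun i =>
      (urange ((U y.1).add (U y.1))).map fun t => i * (2 * (U y.1).n) + t)
      (fun y => D (y.1, y.2.1, (Q (y.1, y.2.1)).zipIdx.map fun z =>
        bitDec (U y.1) fun t => y.2.2.getD (z.2 * (2 * (U y.1).n) + t) false)) x π =
      accSym R Q D x fun i => bitDec (U x) fun t => π (i * (2 * (U x).n) + t) := by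
    intro x π
    have e : ∀ l : List ℕ, (l.zipIdx.map fun z => bitDec (U x) fun t => ((l.flatMap fun i =>
        (urange ((U x).add (U x))).map fun t => i * (2 * (U x).n) + t).map π).getD
          (z.2 * (2 * (U x).n) + t) false) =
        l.map fun i => bitDec (U x) fun t => π (i * (2 * (U x).n) + t) := by
      intro l
      refine List.ext_getElem (by simp) fun j h1 h2 => ?_
      have hj : j < l.length := by simpa using h2
      rw [List.getElem_map, List.getElem_map, List.getElem_zipIdx, zero_add]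
      refine bitDec_congr fun t ht => ?_
      change List.getD _ (j * _ + t) false = π (l[j]'hj * _ + t)
      rw [List.map_flatMap, flat_getD _ _ _ (fun i _ => by rw [List.length_map, len]) _ hj ht,
        List.getD_eq_getElem _ _ (by rwa [List.length_map, len])]
      simp [urange]
    simp only [accProb, accSym, e]
  refine ⟨R, _, _, hR, PT.isPolyTime ?_, PT.isPolyTime ?_, fun x => ⟨(h x).1, fun ρ hρ => ?_,
    fun hx => ?_, fun hx π => (key x π).trans_le ((h x).2.2.2 hx _)⟩⟩
  · fun_prop
  · unfold bitDec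
    fun_prop
  · rw [flat_length _ _ _ fun i _ => len x i, eU, mul_comm]
    push_cast
    exact mul_le_mul_of_nonneg_left ((h x).2.1 ρ hρ) (by positivity)
  · obtain ⟨π, p1, p2⟩ := (h x).2.2.1 hx
    refine ⟨fun p => if p % (2 * (U x).n) % 2 = 0 then
      decide (p % (2 * (U x).n) / 2 < (π (p / (2 * (U x).n))).length)
      else (π (p / (2 * (U x).n))).getD (p % (2 * (U x).n) / 2) false, ?_⟩
    rw [key]
    refine p2.trans_eq (congrArg _ (funext fun i => ?_))
    have hl : (π i).length ≤ (U x).n := by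
      rw [eU]
      exact_mod_cast (p1 i).trans (hb x)
    refine (bitDec_enc hl).symm.trans (bitDec_congr fun t ht => ?_)
    rw [Nat.mul_add_mod_of_lt ht, mul_comm i, Nat.mul_add_div (by omega), Nat.div_eq_of_lt ht,
      add_zero]

end Pool.Agent.Lib.MP_45faa6_lc.TR
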