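import Pool.Agent.Lib.MP_45faa6_lc.TR.SMain
import Pool.Agent.Lib.MP_45faa6_lc.TR.SAmp
import Pool.Agent.Lib.MP_45faa6_lc.TR.Fglss

/-!
The trade-off for every soundness, and the case of bits.
-/

set_option autoImplicit false

namespace Pool.Agent.Lib.MP_45faa6_lc.TR

open Pool.Agent.Lib.MP_45faa6_lc.NL Pool.Agent.Lib.MP_acf5a6_lc Pool.Agent.Lib.Common.CookLevin

theorem mainS_all : ∃ D : ℝ, ∀ β : ℝ, 0 < β → ∃ E : ℝ, ∀ s w : CNF → ℕ,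
    N68a2faeb.IsPolyTime (fun φ => List.replicate (s φ) true) →
    N68a2faeb.IsPolyTime (fun φ => List.replicate (w φ) true) → (∀ φ, 2 ≤ s φ) → (∀ φ, 1 ≤ w φ) →
    InSymPCP 1 β (fun φ : CNF => Real.logb 2 (1 + ⌈(csize φ : ℝ) / w φ⌉₊ *
      Real.logb 2 ⌈(csize φ : ℝ) / w φ⌉₊ / (s φ * Real.logb 2 (s φ))) + D)
      (fun φ => E * s φ) (fun φ => D * w φ) ThreeSAT ThreeSATᶜ := by
  obtain ⟨β, h0, h1, D, E, h⟩ := mainS
  refine ⟨D, fun ε hε => ?_⟩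
  obtain ⟨c, _, hc⟩ := amplifyS h0.le h1 hε
  refine ⟨c * E, fun s w hs hw h2 h3 => ?_⟩
  simpa only [mul_assoc] using hc _ _ _ _ _ _ (h s w hs hw h2 h3)

theorem bits_of {β D E : ℝ} (h : ∀ s w : CNF → ℕ,
    N68a2faeb.IsPolyTime (fun φ => List.replicate (s φ) true) →
    N68a2faeb.IsPolyTime (fun φ => List.replicate (w φ) true) → (∀ φ, 2 ≤ s φ) → (∀ φ, 1 ≤ w φ) →
    InSymPCP 1 β (fun φ : CNF => Real.logb 2 (1 + ⌈(csize φ : ℝ) / w φ⌉₊ *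
      Real.logb 2 ⌈(csize φ : ℝ) / w φ⌉₊ / (s φ * Real.logb 2 (s φ))) + D)
      (fun φ => E * s φ) (fun φ => D * w φ) ThreeSAT ThreeSATᶜ) (s : CNF → ℕ)
    (hs : N68a2faeb.IsPolyTime fun φ => List.replicate (s φ) true) (h2 : ∀ φ, 2 ≤ s φ) :
    InPCP 1 β (fun φ : CNF => Real.logb 2 (1 + csize φ * Real.logb 2 (csize φ) /
      (s φ * Real.logb 2 (s φ))) + D) (fun φ => 2 * ⌈D⌉₊ * E * s φ) ThreeSAT ThreeSATᶜ := by
  have h1 := toBits (W := fun _ => ⌈D⌉₊) (PT.const _).isPolyTime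
    (fun _ => by simpa using Nat.le_ceil D)
    (h s (fun _ => 1) hs (PT.const _).isPolyTime h2 fun _ => le_rfl)
  simpa only [Nat.cast_one, div_one, Nat.ceil_natCast, mul_assoc] using h1

end Pool.Agent.Lib.MP_45faa6_lc.TR
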