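import Pool.Agent.Lib.MP_45faa6_lc.TR.Eng
import Pool.Agent.Lib.MP_45faa6_lc.TR.SDef

/-!
The verifier reads few blocks of the proof.
-/

set_option autoImplicit false
set_option linter.unusedSectionVars false

namespace Pool.Agent.Lib.MP_45faa6_lc.TR

open Finset Pool.Agent.Lib.MP_45faa6_lc.NL Pool.Agent.Lib.MP_acf5a6_lc
  Pool.Agent.Lib.Common.CookLevin

section

variable {X : Type}

/-- The decision from the blocks read. -/
def blkD (Q B : X × List Bool → List ℕ) (D : X × List Bool × List Bool → Bool) (W : X → ℕ)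
    (y : X × List Bool × List (List Bool)) : Bool :=
  D (y.1, y.2.1, (Q (y.1, y.2.1)).map fun p =>
    (y.2.2.getD (idx (B (y.1, y.2.1)) (p / W y.1)) []).getD (p % W y.1) false)

theorem blk_acc (R : X → ℕ) {Q B : X × List Bool → List ℕ} (D : X × List Bool × List Bool → Bool)
    {W : X → ℕ} {x : X} (h : ∀ ρ, ∀ p ∈ Q (x, ρ), p / W x ∈ B (x, ρ)) (π : ℕ → List Bool) :
    accSym R B (blkD Q B D W) x π =
      accProb R Q D x fun p => (π (p / W x)).getD (p % W x) false := by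
  have key : ∀ ρ, blkD Q B D W (x, ρ, (B (x, ρ)).map π) =
      D (x, ρ, (Q (x, ρ)).map fun p => (π (p / W x)).getD (p % W x) false) := fun ρ => by
    rw [blkD]
    congr 3
    refine List.map_congr_left fun p hp => ?_
    have h1 := List.idxOf_lt_length_of_mem (h _ p hp)
    dsimp only
    rw [idx_eq, List.getD_eq_getElem ((B (x, ρ)).map π) _ (by rwa [List.length_map]),
      List.getElem_map, List.getElem_idxOf]
  simp only [accSym, accProb, key]

theorem blk_proof {W : ℕ} (hW : 0 < W) (π : ℕ → Bool) : ∃ σ : ℕ → List Bool,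
    (∀ i, (σ i).length = W) ∧ (fun p => (σ (p / W)).getD (p % W) false) = π := by
  refine ⟨fun j => (List.range W).map fun i => π (j * W + i), fun i => by simp, funext fun p => ?_⟩
  rw [List.getD_eq_getElem _ _ (by simpa using Nat.mod_lt _ hW), List.getElem_map,
    List.getElem_range, Nat.div_add_mod']

theorem blkD_PT [N487b59b3 X] {Q B : X × List Bool → List ℕ} {D : X × List Bool × List Bool → Bool}
    {W : X → ℕ} (hQ : PT Q) (hB : PT B) (hD : PT D) (hW : PT W) : PT (blkD Q B D W) := by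
  unfold blkD
  fun_prop

end

variable {F : Type} [Field F] [Fintype F] [DecidableEq F] [CharP F 2]

/-- The blocks read. -/
noncomputable def blkB (V : Dat F) (d w : CNF → Un) (y : CNF × List Bool) : List ℕ :=
  (urange (d y.1)).flatMap fun i => (univ : Finset (Option (Fin 8 × F))).toList.map fun p =>
    idx (V.L y.1) (enga_nbr (V.M y.1) (V.sh y.1 (eng_g V y.1 y.2) (i * (w y.1).n))
      (eng_g V y.1 y.2) p) * (d y.1).n + i

theorem blkB_length (V : Dat F) (d w : CNF → Un) (y : CNF × List Bool) :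
    (blkB V d w y).length = Fintype.card (Option (Fin 8 × F)) * (d y.1).n := by
  rw [blkB, flat_length _ _ (Fintype.card (Option (Fin 8 × F))) fun _ _ => by simp, urange,
    List.length_range, mul_comm]

theorem blkB_mem (V : Dat F) (d w : CNF → Un) (φ : CNF) (hq : (V.q φ).n = (d φ).n * (w φ).n)
    (hw : 0 < (w φ).n) (hs : ∀ u k, V.sh φ u k = V.sh φ u (k / (w φ).n * (w φ).n))
    (ρ : List Bool) : ∀ p ∈ eng_Q V (φ, ρ),
      p / ((w φ).n * Fintype.card (enga_Tag F)) ∈ blkB V d w (φ, ρ) := by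
  intro p hp
  obtain ⟨k, hk, hp⟩ := List.mem_flatMap.1 hp
  obtain ⟨i, -, rfl⟩ := List.mem_map.1 hp
  have hT : 0 < Fintype.card (enga_Tag F) := Fintype.card_pos
  rw [urange, List.mem_range, hq] at hk
  refine List.mem_flatMap.2 ⟨k / (w φ).n, List.mem_range.2 ((Nat.div_lt_iff_lt_mul hw).2 hk),
    List.mem_map.2 ⟨i.1, by simp, ?_⟩⟩
  have key : ∀ a t : ℕ, t < Fintype.card (enga_Tag F) →
      ((a * ((d φ).n * (w φ).n) + k) * Fintype.card (enga_Tag F) + t) /
        ((w φ).n * Fintype.card (enga_Tag F)) = a * (d φ).n + k / (w φ).n := fun a t ht => by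
    rw [mul_comm (w φ).n, ← Nat.div_div_eq_div_mul, add_comm _ t, Nat.add_mul_div_right _ _ hT,
      Nat.div_eq_of_lt ht, zero_add, ← mul_assoc, add_comm _ k, Nat.add_mul_div_right _ _ hw,
      add_comm]
  dsimp only
  rw [enga_posQ, enga_posT, hq, key _ _ (Fin.isLt _), ← hs]

theorem blkB_PT [N487b59b3 F] {V : Dat F} (hV : V.Fast) {d w : CNF → Un} (hd : PT d) (hw : PT w) :
    PT (blkB V d w) := by
  refine PT.flatMap (f := fun (y : CNF × List Bool) i =>
    (univ : Finset (Option (Fin 8 × F))).toList.map fun p =>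
      idx (V.L y.1) (enga_nbr (V.M y.1) (V.sh y.1 (eng_g V y.1 y.2) (i * (w y.1).n))
        (eng_g V y.1 y.2) p) * (d y.1).n + i) (PT_listOf _ _ fun p => ?_)
    (PT.urange' (PT.comp hd (PT.fst PT.id')))
  have h0 : PT fun y : (CNF × List Bool) × ℕ => y.1.1 := by fun_prop
  have h3 : PT fun y : (CNF × List Bool) × ℕ => eng_g V y.1.1 y.1.2 := eng_g_PT hV h0 (by fun_prop)
  have h4 : PT fun y : (CNF × List Bool) × ℕ => y.2 := PT.snd PT.id'
  refine PT.natAdd (PT.natMul (idx_PT (PT.comp hV.L h0) ?_) (PT.unN (PT.comp hd h0))) h4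
  rcases p with _ | p
  · exact PT.comp hV.sh (PT.prodMk h0 (PT.prodMk h3 (PT.natMul h4 (PT.unN (PT.comp hw h0)))))
  · exact eeL_PT (PT.const _) (PT.const _) (PT.comp hV.M h0) h3

/-- If the ports come in `d` classes of `w` ports with the same shift, the verifier reads `O(d)`
symbols of `O(w)` bits. -/
theorem engineS [N487b59b3 F] (hF : Fintype.card F = 2 ^ (8 * 12)) :
    ∃ β : ℝ, 0 < β ∧ β < 1 ∧ ∃ E : ℕ, ∀ (V : Dat F) (d w : CNF → Un), V.Fast → PT d → PT w →
      (∀ φ, V.Good φ) → (∀ φ, (V.q φ).n = (d φ).n * (w φ).n) → (∀ φ, 0 < (w φ).n) →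
      (∀ φ u k, V.sh φ u k = V.sh φ u (k / (w φ).n * (w φ).n)) →
      InSymPCP 1 β (fun φ => Nat.size (V.L φ).length) (fun φ => (E * (d φ).n : ℕ))
        (fun φ => (E * (w φ).n : ℕ)) ThreeSAT ThreeSATᶜ := by
  obtain ⟨β, b0, b1, H⟩ := engine_core hF
  refine ⟨β, b0, b1, Fintype.card (Option (Fin 8 × F)) + Fintype.card (enga_Tag F),
    fun V d w hV hd hw hG hq h0 hs => ⟨eng_R V, blkB V d w, blkD (eng_Q V) (blkB V d w)
      (eng_D V 12) fun φ => (w φ).n * Fintype.card (enga_Tag F), (eng_R_PT hV).isPolyTime,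
      (blkB_PT hV hd hw).isPolyTime, (blkD_PT (eng_Q_PT hV) (blkB_PT hV hd hw) (eng_D_PT hV 12)
        (PT.natMul (PT.unN hw) (PT.const _))).isPolyTime, fun φ => ?_⟩⟩
  have h1 := blk_acc (eng_R V) (W := fun φ => (w φ).n * Fintype.card (enga_Tag F)) (eng_D V 12)
    (blkB_mem V d w φ (hq φ) (h0 φ) (hs φ))
  refine ⟨le_rfl, fun ρ _ => ?_, fun hφ => ?_, fun hφ π => ?_⟩
  · rw [blkB_length, Nat.cast_le]
    exact Nat.mul_le_mul_right _ (Nat.le_add_right _ _)
  · obtain ⟨π, hπ⟩ := (H V φ (hG φ)).1 hφ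
    obtain ⟨σ, s1, s2⟩ := blk_proof (Nat.mul_pos (h0 φ) (Fintype.card_pos (α := enga_Tag F))) π
    refine ⟨σ, fun i => ?_, by rwa [h1, s2]⟩
    rw [s1, Nat.cast_le, mul_comm]
    exact Nat.mul_le_mul_right _ (Nat.le_add_left _ _)
  · rw [h1]
    exact (H V φ (hG φ)).2 hφ _

end Pool.Agent.Lib.MP_45faa6_lc.TR
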