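import Pool.Agent.Lib.MP_45faa6_lc.TR.Main
import Pool.Agent.Lib.MP_45faa6_lc.TR.SLab
import Pool.Agent.Lib.MP_45faa6_lc.TR.SEng

/-!
The trade-off between coins, queries and the size of the symbols.
-/

set_option autoImplicit false
set_option linter.unusedSectionVars false

namespace Pool.Agent.Lib.MP_45faa6_lc.TR

open Finset Pool.Agent.Lib.MP_45faa6_lc.NL Pool.Agent.Lib.MP_acf5a6_lc
  Pool.Agent.Lib.Common.CookLevin

/-- The quotient rounded up. -/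
def cdiv (n w : ℕ) : ℕ := (n + w - 1) / w

theorem cdiv_le {n w : ℕ} (hw : 1 ≤ w) : cdiv n w ≤ n := by
  refine Nat.le_of_lt_succ ((Nat.div_lt_iff_lt_mul hw).2 ?_)
  have := Nat.mul_le_mul_left n hw
  rw [Nat.succ_mul]
  omega

theorem le_cdiv {n w : ℕ} (hw : 1 ≤ w) : n ≤ cdiv n w * w := by
  have := Nat.lt_div_mul_add (a := n + w - 1) hw
  unfold cdiv
  omega

theorem cdiv_eq {n w : ℕ} (hw : 1 ≤ w) : ⌈(n : ℝ) / w⌉₊ = cdiv n w := by
  have h0 : (0 : ℝ) < w := by exact_mod_cast hw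
  refine le_antisymm (Nat.ceil_le.2 ((div_le_iff₀ h0).2 (by exact_mod_cast le_cdiv hw))) ?_
  have h1 : n ≤ ⌈(n : ℝ) / w⌉₊ * w := by
    exact_mod_cast (div_le_iff₀ h0).1 (Nat.le_ceil ((n : ℝ) / w))
  refine Nat.le_of_lt_succ ((Nat.div_lt_iff_lt_mul hw).2 ?_)
  rw [Nat.succ_mul]
  omega

/-- The target size in unary. -/
def uNS (φ : CNF) (s w : ℕ) : Un :=
  ulen (rng (((ulen (φ.flatMap fun c => c)).mul ((usz (csize φ)).add ⟨1⟩)).add ⟨1⟩)
    (nN (cdiv (csize φ) w) s))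

theorem uNS_n (φ : CNF) {s w : ℕ} (hs : 2 ≤ s) (hw : 1 ≤ w) :
    (uNS φ s w).n = nN (cdiv (csize φ) w) s := by
  have h : nN (cdiv (csize φ) w) s ≤
      (((ulen (φ.flatMap fun c => c)).mul ((usz (csize φ)).add ⟨1⟩)).add ⟨1⟩).n := by
    change _ ≤ (φ.flatMap fun c => c).length * (sz (csize φ) + 1) + 1
    rw [sz_nat, List.length_flatMap]
    exact (nN_le hs).trans (Nat.add_le_add_right (Nat.mul_le_mul (cdiv_le hw)
      (Nat.add_le_add_right (Nat.size_le_size (cdiv_le hw)) 1)) 1)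
  rw [uNS, rng_eq h]
  simp [ulen]

/-- A number in unary. -/
def uW (w : ℕ) : Un := ulen (List.replicate w true)

theorem uW_n (w : ℕ) : (uW w).n = w := List.length_replicate

variable (F : Type) [Field F] [Fintype F] [DecidableEq F]

/-- The data of the verifier. -/
noncomputable def datS (s w : CNF → ℕ) : Dat F where
  M φ := uM F (uNS φ (s φ) (w φ))
  L φ := grp F (uNS φ (s φ) (w φ))
  q φ := uqS F (uM F (uNS φ (s φ) (w φ))) (uJ (s φ)) (uW (w φ))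
  sh φ u k := (shsS (uM F (uNS φ (s φ) (w φ))) (uJ (s φ)) (uW (w φ)) u).getD k []
  cl φ := clabS φ (uM F (uNS φ (s φ) (w φ))) (uJ (s φ)) (uW (w φ)) (grp F (uNS φ (s φ) (w φ)))

theorem datS_good [CharP F 2] (hQ : Fintype.card F = 2 ^ 96) {s w : CNF → ℕ} (hs : ∀ φ, 2 ≤ s φ)
    (hw : ∀ φ, 1 ≤ w φ) (φ : CNF) : (datS F s w).Good φ := by
  obtain ⟨l, h0, hl, hl', hlen⟩ := grp_spec F (uNS φ (s φ) (w φ))
  obtain ⟨h1, h2⟩ := uM_spec F (uNS φ (s φ) (w φ))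
  rw [← hlen, uNS_n φ (hs φ) (hw φ)] at h1 h2
  refine ⟨l, fun k => (wdsS (uM F (uNS φ (s φ) (w φ))).n F (4 * ((uJ (s φ)).n + 13))
    (uW (w φ)).n).getD k 1, h0, hl, hl', fun u k hk => ?_, fun hok => ?_⟩
  · have hk' : k < (wdsS (uM F (uNS φ (s φ) (w φ))).n F (4 * ((uJ (s φ)).n + 13))
        (uW (w φ)).n).length := by
      rw [← slab_q]
      exact hk
    refine (congrArg (fun z => List.getD z k [])
      (shsS_toL (uM F (uNS φ (s φ) (w φ))) (uJ (s φ)) (uW (w φ)) u)).trans ?_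
    dsimp only
    rw [List.getD_eq_getElem _ _ (by rwa [List.length_map]), List.getElem_map,
      List.getD_eq_getElem _ _ hk']
    rfl
  · have h4 : 2 ^ 19 * (Nat.size l.length / (uJ (s φ)).n + 3) * φ.length ≤
        (uqS F (uM F (uNS φ (s φ) (w φ))) (uJ (s φ)) (uW (w φ))).n * l.length := by
      rw [uqS_n, uJ_n, uW_n, mul_right_comm _ (w φ)]
      refine (Nat.mul_le_mul_left _ ((length_le_csize hok).trans (le_cdiv (hw φ)))).trans ?_
      rw [← mul_assoc]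
      exact Nat.mul_le_mul_right _ (big_ok' hQ (hs φ) le_rfl h1 h2)
    have h3 := clabS_spec hQ hok (uM F (uNS φ (s φ) (w φ))) (uJ (s φ)) (uW (w φ))
      (by rw [uJ_n]; exact Nat.le_add_left _ _) (by rw [uW_n]; exact hw φ) l hl hl' h4
    rw [← h0] at h3
    exact h3

theorem uNS_PT {α : Type} [N487b59b3 α] {φ : α → CNF} {g w : α → ℕ} (h : PT φ) (h' : PT g)
    (hw : PT w) : PT fun a => uNS (φ a) (g a) (w a) := by
  unfold uNS cdiv; fun_prop

theorem datS_fast [N487b59b3 F] (hQ : Fintype.card F = 2 ^ 96) {s w : CNF → ℕ}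
    (hp : PT fun φ => List.replicate (s φ) true) (hp' : PT fun φ => List.replicate (w φ) true)
    (hs : ∀ φ, 2 ≤ s φ) : (datS F s w).Fast ∧
      PT fun φ => uq F (uM F (uNS φ (s φ) (w φ))) (uJ (s φ)) := by
  have h1 : PT s := (PT.length hp).of_eq fun φ => List.length_replicate
  have h2 : PT w := (PT.length hp').of_eq fun φ => List.length_replicate
  have h3 : PT fun φ => uW (w φ) := PT.ulen' hp'
  obtain ⟨C, hC⟩ := q_le' hQ
  have hB : ∀ {α : Type} [N487b59b3 α] {f : α → CNF}, PT f →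
      PB fun x => (4 * Fintype.card F) ^ (4 * ((uJ (s (f x))).n + 13)) := fun hf =>
    ((PB.const C).mul (PB_un (PT.ulen' (PT.comp hp hf)))).mono fun x => by
      rw [uJ_n]
      exact (hC _ (hs _)).trans_eq (congrArg _ List.length_replicate.symm)
  have e : PT fun x : CNF × LM F × ℕ => x.1 := by fun_prop
  have e1 := PT.comp h1 e
  have e3 : PT fun x : CNF × LM F × ℕ => uW (w x.1) := PT.ulen' (PT.comp hp' e)
  have hN := uNS_PT PT.id' h1 h2
  have hN' := uNS_PT e e1 (PT.comp h2 e)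
  refine ⟨⟨uM_PT F hN, grp_PT F hN,
    PT.ulen' (shsS_PT (uM_PT F hN) (uJ_PT h1) h3 (oneL_PT (uM_PT F hN)) (hB PT.id')), ?_,
    fun b => ?_⟩, PT.ulen' (shs_PT (uM_PT F hN) (uJ_PT h1) (oneL_PT (uM_PT F hN)) (hB PT.id'))⟩
  · exact listGetD_PT (shsS_PT (uM_PT F hN') (uJ_PT e1) e3 (by fun_prop) (hB e))
      (by fun_prop) (PT.const _)
  · exact clabS_PT b e (uM_PT F hN') (uJ_PT e1) e3 (grp_PT F hN') (by fun_prop)
      (by fun_prop) (hB e)

theorem InSymPCP_mono {X : Type} [N487b59b3 X] {α β : ℝ} {r q b r' q' b' : X → ℝ} {Y N : Set X}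
    (h : InSymPCP α β r q b Y N) (hr : ∀ x, r x ≤ r' x) (hq : ∀ x, q x ≤ q' x)
    (hb : ∀ x, b x ≤ b' x) : InSymPCP α β r' q' b' Y N := by
  obtain ⟨R, Q, D, h1, h2, h3, h4⟩ := h
  refine ⟨R, Q, D, h1, h2, h3, fun x => ⟨(h4 x).1.trans (hr x),
    fun ρ hρ => ((h4 x).2.1 ρ hρ).trans (hq x), fun hx => ?_, (h4 x).2.2.2⟩⟩
  obtain ⟨π, p1, p2⟩ := (h4 x).2.2.1 hx
  exact ⟨π, fun i => (p1 i).trans (hb x), p2⟩

variable {F}

theorem mainS_of_field [CharP F 2] [N487b59b3 F] (hF : Fintype.card F = 2 ^ (8 * 12)) :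
    ∃ β : ℝ, 0 < β ∧ β < 1 ∧ ∃ D E : ℝ, ∀ s w : CNF → ℕ,
    N68a2faeb.IsPolyTime (fun φ => List.replicate (s φ) true) →
    N68a2faeb.IsPolyTime (fun φ => List.replicate (w φ) true) → (∀ φ, 2 ≤ s φ) → (∀ φ, 1 ≤ w φ) →
    InSymPCP 1 β (fun φ : CNF => Real.logb 2 (1 + ⌈(csize φ : ℝ) / w φ⌉₊ *
      Real.logb 2 ⌈(csize φ : ℝ) / w φ⌉₊ / (s φ * Real.logb 2 (s φ))) + D)
      (fun φ => E * s φ) (fun φ => D * w φ) ThreeSAT ThreeSATᶜ := by
  have hQ : Fintype.card F = 2 ^ 96 := hF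
  obtain ⟨β, b0, b1, E, H⟩ := engineS hF
  obtain ⟨C, hC⟩ := q_le' hQ
  refine ⟨β, b0, b1, 400 + E, (E * C : ℕ), fun s w hp hp' hs hw => ?_⟩
  have p1 := MP_73cdf8_lc.PT_of_isPolyTime hp
  have p2 := MP_73cdf8_lc.PT_of_isPolyTime hp'
  have h1 := datS_fast F hQ p1 p2 hs
  have h0 : ∀ φ, 0 < (uW (w φ)).n := fun φ => by rw [uW_n]; exact hw φ
  have hE : (0 : ℝ) ≤ E := Nat.cast_nonneg _
  refine InSymPCP_mono (H (datS F s w) (fun φ => uq F (uM F (uNS φ (s φ) (w φ))) (uJ (s φ)))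
    (fun φ => uW (w φ)) h1.1 h1.2 (PT.ulen' p2) (datS_good F hQ hs hw)
    (fun φ => (uqS_n _ _ _).trans (by rw [uq_n])) h0 fun φ u k => ?_) (fun φ => ?_)
    (fun φ => ?_) fun φ => ?_
  · change List.getD _ _ _ = List.getD _ _ _
    rw [shsS_eq, rep_getD _ (h0 φ), rep_getD _ (h0 φ), Nat.mul_div_cancel _ (h0 φ)]
  · obtain ⟨l, h0, -, -, hlen⟩ := grp_spec F (uNS φ (s φ) (w φ))
    have h2 := (uM_spec F (uNS φ (s φ) (w φ))).2
    rw [← hlen, uNS_n φ (hs φ) (hw φ)] at h2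
    change (Nat.size (grp F (uNS φ (s φ) (w φ))).length : ℝ) ≤ _
    rw [h0, List.length_map, cdiv_eq (hw φ)]
    exact (coins_ok' hQ (hs φ) h2).trans (by linarith)
  · rw [uq_n, uJ_n, ← Nat.cast_mul, Nat.cast_le, mul_assoc]
    exact Nat.mul_le_mul_left _ (hC _ (hs φ))
  · rw [uW_n, Nat.cast_mul]
    exact mul_le_mul_of_nonneg_right (by linarith) (Nat.cast_nonneg _)

theorem mainS : ∃ β : ℝ, 0 < β ∧ β < 1 ∧ ∃ D E : ℝ, ∀ s w : CNF → ℕ,
    N68a2faeb.IsPolyTime (fun φ => List.replicate (s φ) true) →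
    N68a2faeb.IsPolyTime (fun φ => List.replicate (w φ) true) → (∀ φ, 2 ≤ s φ) → (∀ φ, 1 ≤ w φ) →
    InSymPCP 1 β (fun φ : CNF => Real.logb 2 (1 + ⌈(csize φ : ℝ) / w φ⌉₊ *
      Real.logb 2 ⌈(csize φ : ℝ) / w φ⌉₊ / (s φ * Real.logb 2 (s φ))) + D)
      (fun φ => E * s φ) (fun φ => D * w φ) ThreeSAT ThreeSATᶜ := by
  classical
  have : Fact (Nat.Prime 2) := ⟨Nat.prime_two⟩
  let _ : Fintype (GaloisField 2 96) := Fintype.ofFinite _
  let _ : N487b59b3 (GaloisField 2 96) := N487b59b3.ofLeftInverse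
    (fun x => (Fintype.equivFin (GaloisField 2 96) x).val)
    (fun n => if h : n < Fintype.card (GaloisField 2 96) then
      some ((Fintype.equivFin _).symm ⟨n, h⟩) else none) fun x => by simp
  refine mainS_of_field (F := GaloisField 2 96) ?_
  rw [← Nat.card_eq_fintype_card, GaloisField.card 2 96 (by norm_num)]

end Pool.Agent.Lib.MP_45faa6_lc.TR
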