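import Pool.Agent.Lib.MP_45faa6_lc.TR.SAll

/-!
From boundedly many queries to two queries: read all answers in one symbol and compare one of them.
-/

set_option autoImplicit false

namespace Pool.Agent.Lib.MP_45faa6_lc.TR

open Finset Pool.Agent.Lib.MP_acf5a6_lc Pool.Agent.Lib.Common.CookLevin

/-- The first `t` bits. -/
def twoHd (t : ℕ) (ω : List Bool) : List Bool := (List.range t).map fun i => ω.getD i false

theorem twoHd_append (l ρ : List Bool) : twoHd l.length (l ++ ρ) = l :=
  List.ext_getElem (by simp [twoHd]) fun i _ h => by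
    simp [twoHd, List.getD_eq_getElem?_getD, List.getElem?_append_left, h]

/-- The symbols written in one string, as many as `l` has entries. -/
def twoTup (W : Un) (l : List ℕ) (A : List Bool) : List (List Bool) :=
  l.zipIdx.map fun z => bitDec W fun u => A.getD (z.2 * (2 * W.n) + u) false

theorem twoTup_enc {W : Un} (l : List ℕ) {π : ℕ → List Bool} (h : ∀ i, (π i).length ≤ W.n) :
    twoTup W l (l.flatMap fun i => (List.range (2 * W.n)).map fun u =>
      if u % 2 = 0 then decide (u / 2 < (π i).length) else (π i).getD (u / 2) false) =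
      l.map π := by
  refine List.ext_getElem (by simp [twoTup]) fun j h1 h2 => ?_
  have hj : j < l.length := by simpa using h2
  simp only [twoTup, List.getElem_map, List.getElem_zipIdx, zero_add]
  refine (bitDec_congr fun u hu => ?_).trans (bitDec_enc (h l[j]))
  rw [flat_getD _ _ _ (fun i _ => by simp) _ hj hu, List.getD_eq_getElem _ _ (by simpa using hu)]
  simp

theorem accSym_one {X : Type} (R : X → ℕ) (Q : X × List Bool → List ℕ)
    (D : X × List Bool × List (List Bool) → Bool) (x : X) (π : ℕ → List Bool) :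
    1 ≤ accSym R Q D x π ↔ ∀ ρ, ρ.length = R x → D (x, ρ, (Q (x, ρ)).map π) = true := by
  have hcard : (Fintype.card (Fin (R x) → Bool) : ℝ) = 2 ^ R x := by simp
  rw [accSym, le_div_iff₀ (by positivity), one_mul, ← hcard, Nat.cast_le]
  refine ⟨fun h ρ hρ => ?_, fun h => ?_⟩
  · have := filter_eq_self.1 ((card_eq_iff_eq_univ _).1 (le_antisymm (card_le_univ _) h))
      (fun i => ρ[i.1]'(i.2.trans_eq hρ.symm)) (mem_univ _)
    rwa [show (List.ofFn fun i : Fin (R x) => ρ[i.1]'(i.2.trans_eq hρ.symm)) = ρ from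
      List.ext_getElem (by simp [hρ]) fun i _ _ => by simp] at this
  · rw [filter_true_of_mem fun ω _ => h _ List.length_ofFn, card_univ]

theorem two_count {R t : ℕ} {β : ℝ} (p : (Fin R → Bool) → Prop) [DecidablePred p]
    (p' : (Fin (t + R) → Bool) → Prop) [DecidablePred p']
    (h : ((univ.filter p).card : ℝ) ≤ β * 2 ^ R) (f : (Fin R → Bool) → Fin (t + R) → Bool)
    (hf : Function.Injective f) (hp : ∀ ρ, ¬ p ρ → ¬ p' (f ρ)) :
    ((univ.filter p').card : ℝ) ≤ (1 - (1 - β) / 2 ^ t) * 2 ^ (t + R) := by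
  have h1 := card_filter_add_card_filter_not (s := univ) p
  have h2 := card_filter_add_card_filter_not (s := univ) p'
  have h3 : (univ.filter fun ρ => ¬ p ρ).card ≤ (univ.filter fun ω => ¬ p' ω).card :=
    card_le_card_of_injOn f (fun ρ k => by simpa using hp ρ (by simpa using k)) hf.injOn
  simp only [card_univ, Fintype.card_fun, Fintype.card_bool, Fintype.card_fin] at h1 h2
  have e : (1 - (1 - β) / 2 ^ t) * 2 ^ (t + R) = 2 ^ (t + R) - (1 - β) * 2 ^ R := by
    rw [pow_add]
    field_simp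
  have h1' := congrArg (Nat.cast : ℕ → ℝ) h1
  have h2' := congrArg (Nat.cast : ℕ → ℝ) h2
  have h3' := (Nat.cast_le (α := ℝ)).2 h3
  push_cast at h1' h2'
  linarith

/-- Two queries are enough if the symbols may be longer by a constant factor. -/
theorem twoQueries {X : Type} [N487b59b3 X] {β : ℝ} {r b : X → ℝ} {Y N : Set X} {W : X → ℕ}
    (t : ℕ) (hW : N68a2faeb.IsPolyTime fun x => List.replicate (W x) true) (hb : ∀ x, b x ≤ W x)
    (h : InSymPCP 1 β r (fun _ => 2 ^ t) b Y N) :
    InSymPCP 1 (1 - (1 - β) / 2 ^ t) (fun x => r x + t) (fun _ => 2)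
      (fun x => 2 ^ (t + 1) * W x) Y N := by
  obtain ⟨R, Q, D, hR, hQ, hD, h⟩ := h
  have hQ' := MP_73cdf8_lc.PT_of_isPolyTime hQ
  have hD' := MP_73cdf8_lc.PT_of_isPolyTime hD
  obtain ⟨U, hU, eU⟩ : ∃ U : X → Un, PT U ∧ ∀ x, (U x).n = W x :=
    ⟨_, PT.ulen' (MP_73cdf8_lc.PT_of_isPolyTime hW), fun x => List.length_replicate⟩
  have hq : ∀ x (ρ : List Bool), ρ.length = R x → (Q (x, ρ)).length ≤ 2 ^ t := fun x ρ hρ => by
    have : ((Q (x, ρ)).length : ℝ) ≤ 2 ^ t := (h x).2.1 ρ hρ
    exact_mod_cast this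
  refine ⟨fun x => t + R x, fun y => [2 * valM (y.2.drop t) + 1,
      2 * (Q (y.1, y.2.drop t)).getD (valM (twoHd t y.2)) 0],
    fun y => D (y.1, y.2.1.drop t, twoTup (U y.1) (Q (y.1, y.2.1.drop t)) (y.2.2.getD 0 [])) &&
      (decide ((Q (y.1, y.2.1.drop t)).length ≤ valM (twoHd t y.2.1)) ||
        decide ((twoTup (U y.1) (Q (y.1, y.2.1.drop t)) (y.2.2.getD 0 [])).getD
          (valM (twoHd t y.2.1)) [] = y.2.2.getD 1 [])),
    PT.isPolyTime ?_, PT.isPolyTime ?_, PT.isPolyTime ?_, fun x => ⟨?_, fun ρ _ => by simp,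
    fun hx => ?_, fun hx π => ?_⟩⟩
  · exact (PT.append (PT.const (List.replicate t true)) (MP_73cdf8_lc.PT_of_isPolyTime hR)).of_eq
      fun x => (List.replicate_add _ _ _).symm
  · have h1 := PT_drop t (l := fun y : X × List Bool => y.2) (by fun_prop)
    have h2 := PT_valM h1
    have h3 : PT fun y : X × List Bool => valM (twoHd t y.2) :=
      PT_valM (PT_constmap _ fun i => by fun_prop)
    have h4 : PT fun y : X × List Bool => Q (y.1, y.2.drop t) :=
      PT.comp hQ' (PT.prodMk (by fun_prop) h1)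
    fun_prop
  · have h1 := PT_drop t (l := fun y : X × List Bool × List (List Bool) => y.2.1) (by fun_prop)
    have h3 : PT fun y : X × List Bool × List (List Bool) => valM (twoHd t y.2.1) :=
      PT_valM (PT_constmap _ fun i => by fun_prop)
    have h4 : PT fun y : X × List Bool × List (List Bool) => Q (y.1, y.2.1.drop t) :=
      PT.comp hQ' (PT.prodMk (by fun_prop) h1)
    have h5 : PT fun y : X × List Bool × List (List Bool) =>
        twoTup (U y.1) (Q (y.1, y.2.1.drop t)) (y.2.2.getD 0 []) := by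
      unfold twoTup bitDec
      fun_prop
    have h6 := PT.comp hD' (PT.prodMk (PT.fst PT.id') (PT.prodMk h1 h5))
    fun_prop
  · have := (h x).1
    push_cast
    linarith
  · obtain ⟨π, p1, p2⟩ := (h x).2.2.1 hx
    have hl : ∀ i, (π i).length ≤ (U x).n := fun i => by
      rw [eU]
      exact_mod_cast (p1 i).trans (hb x)
    refine ⟨fun p => if p % 2 = 0 then π (p / 2) else (Q (x, ampBits (p / 2) (R x))).flatMap
      fun i => (List.range (2 * (U x).n)).map fun u =>
        if u % 2 = 0 then decide (u / 2 < (π i).length) else (π i).getD (u / 2) false,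
      fun p => ?_, (accSym_one _ _ _ _ _).2 fun ω hω => ?_⟩
    · beta_reduce
      rw [← eU]
      have h1 : 1 ≤ 2 ^ t := Nat.one_le_two_pow
      have h2 := hq x _ (ampBits_length (p / 2) (R x))
      have h3 := hl (p / 2)
      norm_cast
      split_ifs
      · rw [pow_succ]
        nlinarith
      · rw [flat_length _ _ (2 * (U x).n) fun i _ => by simp, pow_succ, mul_assoc]
        exact Nat.mul_le_mul_right _ h2
    · have hρ : (ω.drop t).length = R x := by simp [hω]
      have e1 : ∀ a : ℕ, (2 * a + 1) / 2 = a := fun a => by omega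
      have e2 : ampBits (valM (ω.drop t)) (R x) = ω.drop t :=
        valM_inj _ _ (by rw [ampBits_length, hρ]) (by
          rw [valM_ampBits, ← hρ, Nat.mod_eq_of_lt (valM_lt _)])
      simp only [List.map_cons, List.map_nil, List.getD_cons_zero, List.getD_cons_succ,
        Nat.mul_add_mod, Nat.one_mod, one_ne_zero, if_false, e1, e2, twoTup_enc _ hl,
        Nat.mul_mod_right, if_true, Nat.mul_div_cancel_left _ two_pos,
        (accSym_one _ _ _ _ _).1 p2 _ hρ, Bool.true_and, Bool.or_eq_true, decide_eq_true_eq]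
      refine (le_or_gt _ _).imp_right fun c => ?_
      rw [List.getD_eq_getElem _ _ (by simpa using c), List.getD_eq_getElem _ _ c,
        List.getElem_map]
  · have h1 := (h x).2.2.2 hx fun i => π (2 * i)
    have h2 : ∀ ρ : Fin (R x) → Bool, ∃ a : Fin t → Bool,
        ¬ D (x, List.ofFn ρ, (Q (x, List.ofFn ρ)).map fun i => π (2 * i)) = true →
        ¬ (D (x, List.ofFn ρ, twoTup (U x) (Q (x, List.ofFn ρ)) (π (2 * valM (List.ofFn ρ) + 1))) &&
          (decide ((Q (x, List.ofFn ρ)).length ≤ valM (List.ofFn a)) ||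
          decide ((twoTup (U x) (Q (x, List.ofFn ρ)) (π (2 * valM (List.ofFn ρ) + 1))).getD
            (valM (List.ofFn a)) [] =
            π (2 * (Q (x, List.ofFn ρ)).getD (valM (List.ofFn a)) 0)))) = true := by
      intro ρ
      have h3 := hq x (List.ofFn ρ) List.length_ofFn
      have h4 : (twoTup (U x) (Q (x, List.ofFn ρ)) (π (2 * valM (List.ofFn ρ) + 1))).length =
        (Q (x, List.ofFn ρ)).length := by simp [twoTup]
      generalize twoTup _ _ _ = T at h4 ⊢
      generalize Q (x, List.ofFn ρ) = l at h3 h4 ⊢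
      by_cases c : T = l.map fun i => π (2 * i)
      · exact ⟨fun _ => false, fun k k' => k (c ▸ (Bool.and_eq_true_iff.1 k').1)⟩
      obtain ⟨j, hj, hne⟩ : ∃ j, ∃ hj : j < l.length, T[j] ≠ π (2 * l[j]) := by
        by_contra k
        push Not at k
        exact c (List.ext_getElem (by simp [h4]) fun j _ k' => by
          rw [List.getElem_map, k j (by simpa using k')])
      obtain ⟨a, e⟩ : ∃ a : Fin t → Bool, valM (List.ofFn a) = j := by
        refine ⟨fun i => (ampBits j t)[i.1]'(i.2.trans_eq (ampBits_length j t).symm), ?_⟩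
        rw [show List.ofFn _ = ampBits j t from
          List.ext_getElem (by simp [ampBits_length]) fun i _ _ => by simp,
          valM_ampBits, Nat.mod_eq_of_lt (hj.trans_le h3)]
      refine ⟨a, fun _ k' => ?_⟩
      rw [e, List.getD_eq_getElem _ _ (h4 ▸ hj), List.getD_eq_getElem _ _ hj] at k'
      simp [hne, not_le.2 hj] at k'
    choose a ha using h2
    have hd : ∀ (u : Fin t → Bool) (l : List Bool),
        (List.ofFn u ++ l).drop t = l ∧ twoHd t (List.ofFn u ++ l) = List.ofFn u := fun u l =>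
      ⟨List.drop_left' List.length_ofFn, by simpa using twoHd_append (List.ofFn u) l⟩
    rw [accSym, div_le_iff₀ (by positivity)] at h1 ⊢
    refine two_count _ _ h1 (fun ρ => Fin.append (a ρ) ρ) (fun ρ ρ' e => ?_) fun ρ k => ?_
    · funext i
      simpa using congrFun e (Fin.natAdd t i)
    · simpa only [List.ofFn_fin_append, hd, List.map_cons, List.map_nil, List.getD_cons_zero,
        List.getD_cons_succ] using ha ρ k

open Pool.Agent.Lib.MP_45faa6_lc.NL in
/-- The case of two queries. -/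
theorem two_of_sym {β D E : ℝ} (hβ : β < 1) (h : ∀ s w : CNF → ℕ,
    N68a2faeb.IsPolyTime (fun φ => List.replicate (s φ) true) →
    N68a2faeb.IsPolyTime (fun φ => List.replicate (w φ) true) → (∀ φ, 2 ≤ s φ) → (∀ φ, 1 ≤ w φ) →
    InSymPCP 1 β (fun φ : CNF => Real.logb 2 (1 + ⌈(csize φ : ℝ) / w φ⌉₊ *
      Real.logb 2 ⌈(csize φ : ℝ) / w φ⌉₊ / (s φ * Real.logb 2 (s φ))) + D)
      (fun φ => E * s φ) (fun φ => D * w φ) ThreeSAT ThreeSATᶜ) :
    ∃ γ : ℝ, γ < 1 ∧ ∃ C : ℝ, ∀ w : CNF → ℕ,
      N68a2faeb.IsPolyTime (fun φ => List.replicate (w φ) true) → (∀ φ, 1 ≤ w φ) →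
      InSymPCP 1 γ (fun φ : CNF => Real.logb 2 (1 + ⌈(csize φ : ℝ) / w φ⌉₊ *
        Real.logb 2 ⌈(csize φ : ℝ) / w φ⌉₊) + C) (fun _ => 2) (fun φ => C * w φ)
        ThreeSAT ThreeSATᶜ := by
  obtain ⟨t, ht⟩ := pow_unbounded_of_one_lt (E * 2) (one_lt_two (α := ℝ))
  refine ⟨1 - (1 - β) / 2 ^ t, sub_lt_self _ (div_pos (sub_pos.2 hβ) (by positivity)),
    max (D + t) (2 ^ (t + 1) * ⌈D⌉₊), fun w hw h1 => ?_⟩
  have hw' := PT.ulen' (MP_73cdf8_lc.PT_of_isPolyTime hw)
  have hW : PT fun φ => List.replicate (⌈D⌉₊ * w φ) true :=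
    PT.of_eq (f := fun φ => (urange ((Un.mk ⌈D⌉₊).mul (ulen (List.replicate (w φ) true)))).map
      fun _ => true) (by fun_prop) fun φ => by simp [urange, Un.mul, ulen]
  refine InSymPCP_mono (twoQueries t hW.isPolyTime (fun φ => ?_) (InSymPCP_mono
    (h (fun _ => 2) w (PT.const _).isPolyTime hw (fun _ => le_rfl) h1) (fun _ => le_rfl)
    (fun _ => ht.le) fun _ => le_rfl)) (fun φ => ?_) (fun _ => le_rfl) fun φ => ?_
  · rw [Nat.cast_mul]
    exact mul_le_mul_of_nonneg_right (Nat.le_ceil D) (Nat.cast_nonneg _)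
  · generalize ⌈(csize φ : ℝ) / w φ⌉₊ = m
    have h2 : 0 ≤ (m : ℝ) * Real.logb 2 m := mul_nonneg (Nat.cast_nonneg _)
      (div_nonneg (Real.log_natCast_nonneg m) (Real.log_nonneg one_le_two))
    have h3 := le_max_left (D + t) (2 ^ (t + 1) * ⌈D⌉₊)
    have h4 : Real.logb 2 (1 + m * Real.logb 2 m / 2) ≤ Real.logb 2 (1 + m * Real.logb 2 m) :=
      Real.logb_le_logb_of_le one_lt_two (by positivity) (by linarith)
    simp only [Nat.cast_ofNat, Real.logb_self_eq_one one_lt_two, mul_one]
    linarith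
  · rw [Nat.cast_mul, ← mul_assoc]
    exact mul_le_mul_of_nonneg_right (le_max_right _ _) (Nat.cast_nonneg _)

end Pool.Agent.Lib.MP_45faa6_lc.TR
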