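import Pool.Agent.Lib.MP_45faa6_lc.TR.Joint
import Pool.Agent.Lib.MP_45faa6_lc.TR.Acc

/-!
Soundness of the local test.
-/

set_option autoImplicit false

namespace Pool.Agent.Lib.MP_45faa6_lc.TR

open Finset Pool.Agent.Lib.MP_45faa6_lc.NL

variable {M : ℕ} {F : Type} [Field F] [CharP F 2] [Fintype F]

omit [CharP F 2] [Fintype F] in
theorem sound_LD {e d : ℕ} {γ : ℕ → Mat M F} (k k' : ℕ) (hγ : γ k ∈ GG M F) (τ : Ty)
    {A : ℕ → Reg → Pt M F → F} {i : Fin 8} (hi : i ∈ RJ)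
    (h : ∀ k t (y : Pt M F), y.1 ∈ GG M F → LD d fun c => A k t (mv e i c y)) (y : Pt M F)
    (hy : y.1 ∈ GG M F) : LD (3 * d) fun c => pp γ A k k' τ (mv e i c y) := by
  rcases τ with r | p | σ
  · refine (((h k (false, r) y hy).sub (h k (true, r) (γ k * y.1, y.2)
      (mul_mem hγ hy))).mono (by omega)).congr fun c => ?_
    simp only [pp, pv, mv, ee_mul_left i ((mem_RJ i).1 hi)]
  · exact ((h k p.1 y hy).sub (h k' p.2 y hy)).mono (by omega)
  · have h1 := fun r => (h k (false, r) y hy).sub (LD.const d (bF F (σ r)))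
    refine ((((h1 0).mul (h1 1)).mul (h1 2)).mono (by omega)).congr fun c => ?_
    simp only [pp, pv, Fin.prod_univ_three]

open Classical in
/-- Sketch: as `NL.sound`, with `decode_all` for `I = range q ×ˢ univ`. The difference of the two
sides has degree `≤ 4 d + 1` on right lines (`LD.sum`) and is nonzero only on the bad set, on `D`
and on the preimage of `D` under the shift by `γ k` (`grpsys_unit`). At `a = 0` only one summand
survives (`hat_zero`, `TB_uniq`). -/
theorem sound {e : ℕ} (hF : Fintype.card F = 2 ^ (8 * e)) (he : 12 ≤ e) {K : ℕ}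
    (hK : M ^ 2 * 2 ^ (8 * e) ≤ 2 ^ (e * (8 * K))) {φ : CNF} (hφ : okF φ = true) {q : ℕ}
    {γ : ℕ → Mat M F} {cl : Mat M F → ℕ → Bool → ℕ} (hL : Lab φ q γ cl) (hE : Emb φ q γ cl)
    (w : ℕ → Word → Pt M F → F)
    (h : 2 ^ 80 * Fintype.card F ^ 13 * #{u ∈ GS M F | ¬Acc e K φ q γ cl w u} ≤ #(GS M F)) :
    Sat φ := by
  set T := {u ∈ GS M F | ¬Acc e K φ q γ cl w u}
  have hω : 4096 * 2 ^ (7 * e) ≤ Fintype.card F := by
    rw [hF, show 8 * e = e + 7 * e by ring, pow_add]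
    exact Nat.mul_le_mul_right _ (Nat.pow_le_pow_right two_pos he)
  have hω' : 1 ≤ 2 ^ (7 * e) := Nat.one_le_two_pow
  have hQ : 2 ^ 90 ≤ Fintype.card F := hF ▸ Nat.pow_le_pow_right two_pos (by omega)
  obtain ⟨Bad, hB, hB'⟩ : ∃ Bad : Finset (XX M F), Bad.card ≤ Fintype.card F ^ 8 * T.card ∧
      ∀ x ∉ Bad, Acc e K φ q γ cl w x.1 := by
    refine ⟨univ.filter fun x => ¬Acc e K φ q γ cl w x.1, ?_, fun x hx => by simpa using hx⟩
    refine (card_le_card_of_injOn (t := T ×ˢ univ) XX.pt (fun x hx => ?_)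
      fun x _ y _ h => ?_).trans (by simp [mul_comm])
    · exact mem_coe.2 (mem_product.2 ⟨mem_filter.2 ⟨(mem_GS _).2 x.1.2, (mem_filter.1 hx).2⟩,
        mem_univ _⟩)
    · exact Prod.ext (Subtype.ext (congrArg Prod.fst h)) (congrArg Prod.snd h :)
  obtain ⟨W, D, hW, hD, hD'⟩ : ∃ (W : ℕ → Word → Pt M F → F) (D : Finset (XX M F)),
      (∀ k wd i (y : Pt M F), y.1 ∈ GG M F →
        LD (128 * 2 ^ (7 * e)) fun c => W k wd (mv e i c y)) ∧
      D.card ≤ 2112 * (Fintype.card F ^ 13 * T.card) ∧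
      ∀ x ∉ D, ∀ k < q, ∀ wd, W k wd x.pt = w k wd x.pt := by
    obtain ⟨w', D, h1, h2, h4⟩ := decode_all e (128 * 2 ^ (7 * e)) hQ (by omega)
      (range q ×ˢ (univ : Finset Word)) (fun p (x : XX M F) => w p.1 p.2 x.pt) Bad
      (Fintype.card F ^ 8 * T.card) hB
      (fun x hx p hp i => (hB' x hx p.1 (mem_range.1 (mem_product.1 hp).1)).1 p.2 x.2 i)
      (le_of_eq_of_le (by ring) h)
    have h3 : ∀ p (x : XX M F),
        (if hy : x.pt.1 ∈ GG M F then w' p (⟨_, hy⟩, x.pt.2) else 0) = w' p x :=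
      fun p x => dif_pos x.1.2
    exact ⟨fun k wd y => if hy : y.1 ∈ GG M F then w' (k, wd) (⟨_, hy⟩, y.2) else 0, D,
      fun k wd i y hy => (h1 (k, wd) i (⟨_, hy⟩, y.2)).congr fun c =>
        h3 _ ((mvX e i).act c (⟨_, hy⟩, y.2)), h2.trans_eq (by ring), fun x hx k hk wd =>
      (h3 _ x).trans (h4 x hx (k, wd) (mem_product.2 ⟨mem_range.2 hk, mem_univ _⟩))⟩
  refine csp_sat hφ hL hE (fun k t => W k (.inl t)) fun τ k hk k' hk' u hu hT => ?_
  let sh : XX M F → XX M F := fun x => (⟨γ k * x.1, mul_mem (hL.mem k) x.1.2⟩, x.2)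
  have hsh : Function.Injective sh := fun x y h =>
    Prod.ext (Subtype.ext ((grpsys_unit (hL.mem k)).mul_right_injective
      (congrArg (fun z : XX M F => z.1.1) h))) (congrArg Prod.snd h :)
  have hz := zero_of_sparse e (4 * (128 * 2 ^ (7 * e)) + 1) hQ (by omega)
    (fun x : XX M F => if ∀ i ∉ RJ, x.2 i = 0 then
      lhs e K φ q γ cl (fun k t => W k (.inl t)) k τ x.pt -
        ∑ j ∈ RJ, x.2 j * W k (.inr (τ, j)) x.pt else 0) (fun i hi x => ?_) ?_ (⟨u, hu⟩, 0)
  · simp only [XX.pt, lhs, hat_zero hF, (mem_GS u).2 hu, Pi.zero_apply, implies_true, if_true,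
      zero_mul, sum_const_zero, sub_zero] at hz
    rw [sum_eq_single_of_mem k' (mem_range.2 hk') fun k₂ _ h2 => by
      rw [Bool.eq_false_iff.2 fun h3 => h2 (TB_uniq h3 hT)]
      simp [bF], hT] at hz
    simpa [bF] using hz
  · have h1 : ∀ c, (∀ k ∉ RJ, ((mvX e i).act c x).2 k = 0) ↔ ∀ k ∉ RJ, x.2 k = 0 := fun c =>
      forall₂_congr fun k hk => by
        change x.2 k + (Pi.single i c : Fin 8 → F) k = 0 ↔ _
        rw [Pi.single_eq_of_ne (ne_of_mem_of_not_mem hi hk).symm, add_zero]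
    simp only [h1]
    split_ifs
    · refine (LD.sum _ fun k₂ _ => ((hat_LD hF (by omega) hK RJ _ _ i hi x.pt).mul
        (sound_LD k k₂ (hL.mem k) τ hi (fun k t => hW k _ i) x.pt x.1.2)).mono (by omega)).sub
        (LD.sum _ fun j _ => (LD.mul (d := 1) ?_ (hW _ _ i x.pt x.1.2)).mono (by omega))
      change LD 1 fun c => x.2 j + (Pi.single i c : Fin 8 → F) j
      refine (LD.const 1 _).add ?_
      by_cases hj : j = i
      · simpa [hj] using LD.id
      · simpa [hj] using LD.const 1 (0 : F)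
    · exact LD.const _ _
  have h1 : #{x | sh x ∈ D} ≤ 2112 * (Fintype.card F ^ 13 * T.card) :=
    (card_le_card_of_injOn sh (fun x hx => (mem_filter.1 hx).2) hsh.injOn).trans hD
  have h5 := hB.trans (Nat.mul_le_mul_right _ (Nat.pow_le_pow_right Fintype.card_pos
    (show 8 ≤ 13 by norm_num)))
  have h6 := GS_pos (M := M) (F := F)
  rw [mul_assoc] at h
  refine lt_of_le_of_lt (Nat.mul_le_mul_left _ ((card_le_card fun x hx => ?_).trans
    ((card_union_le _ _).trans (add_le_add h5 ((card_union_le _ _).trans (add_le_add h1 hD))))))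
    (by omega)
  by_contra hn
  simp only [mem_union, mem_filter, mem_univ, true_and, not_or] at hn
  refine (mem_filter.1 hx).2 (ite_eq_right_iff.2 fun hs => sub_eq_zero.2 ?_)
  refine Eq.trans (sum_congr rfl fun k₂ h2 => congrArg _ ?_) (((hB' x hn.1 k hk).2 τ x.2 hs).trans
    (sum_congr rfl fun j _ => congrArg _ (hD' x hn.2.2 k hk _).symm))
  exact congr_fun (congr (congr (congrArg pv (funext fun t => hD' x hn.2.2 k hk _))
    (funext fun t => hD' x hn.2.2 k₂ (mem_range.1 h2) _))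
    (funext fun t => hD' (sh x) hn.2.1 k hk _)) τ

end Pool.Agent.Lib.MP_45faa6_lc.TR
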